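import Pool.Agent.Lib.MP_9e8926_ag_LP.Defs

set_option autoImplicit false

noncomputable section

namespace LP

open MvPolynomial MeasureTheory

theorem volume_zero {n : ℕ} (f : MvPolynomial (Fin n) ℂ) (hf : f ≠ 0) :
    volume {z : Fin n → ℂ | eval z f = 0} = 0 := by
  induction n with
  | zero =>
    have h : {z : Fin 0 → ℂ | eval z f = 0} = ∅ := by
      ext z
      simp only [Set.mem_ofPred_eq, Set.mem_empty_iff_false, iff_false]
      intro hz
      apply hf
      rw [MvPolynomial.eq_C_of_isEmpty f] at hz ⊢
      rw [eval_C] at hz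
      rw [hz, C_0]
    rw [h, measure_empty]
  | succ n ih =>
    have hP : finSuccEquiv ℂ n f ≠ 0 := by
      intro h
      apply hf
      exact (finSuccEquiv ℂ n).injective (h.trans (map_zero _).symm)
    obtain ⟨m, hm⟩ : ∃ m, (finSuccEquiv ℂ n f).coeff m ≠ 0 := by
      by_contra hcon
      push Not at hcon
      exact hP (Polynomial.ext fun m => by rw [hcon m, Polynomial.coeff_zero])
    have hg := ih _ hm
    have hcl : IsClosed {z : Fin (n + 1) → ℂ | eval z f = 0} :=
      isClosed_eq (MvPolynomial.continuous_eval f) continuous_const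
    set s : Set (ℂ × (Fin n → ℂ)) := {p | eval (Fin.cons p.1 p.2 : Fin (n + 1) → ℂ) f = 0}
      with hs
    have hcont : Continuous fun p : ℂ × (Fin n → ℂ) => (Fin.cons p.1 p.2 : Fin (n + 1) → ℂ) := by
      refine continuous_pi fun i => ?_
      refine Fin.cases ?_ (fun j => ?_) i
      · simpa using continuous_fst
      · have h2 : Continuous fun p : ℂ × (Fin n → ℂ) => p.2 j :=
          (continuous_apply j).comp continuous_snd
        simpa using h2
    have hms : MeasurableSet s := (hcl.preimage hcont).measurableSet
    have hpre : {z : Fin (n + 1) → ℂ | eval z f = 0} =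
        (MeasurableEquiv.piFinSuccAbove (fun _ : Fin (n + 1) => ℂ) 0) ⁻¹' s := by
      ext z
      simp only [Set.mem_ofPred_eq, Set.mem_preimage, hs]
      have hz : (Fin.cons (MeasurableEquiv.piFinSuccAbove (fun _ : Fin (n + 1) => ℂ) 0 z).1
          (MeasurableEquiv.piFinSuccAbove (fun _ : Fin (n + 1) => ℂ) 0 z).2 :
            Fin (n + 1) → ℂ) = z := by
        funext i
        refine Fin.cases ?_ (fun j => ?_) i
        · rfl
        · rfl
      rw [hz]
    have hmp := volume_preserving_piFinSuccAbove (fun _ : Fin (n + 1) => ℂ) 0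
    rw [hpre, hmp.measure_preimage hms.nullMeasurableSet, Measure.volume_eq_prod,
      Measure.prod_apply_symm hms, lintegral_eq_zero_iff (measurable_measure_prodMk_right hms)]
    have h1 : ∀ᵐ w : Fin n → ℂ, eval w ((finSuccEquiv ℂ n f).coeff m) ≠ 0 := by
      rw [ae_iff]
      simpa using hg
    filter_upwards [h1] with w hw
    have hQ : Polynomial.map (eval w) (finSuccEquiv ℂ n f) ≠ 0 := by
      intro h
      apply hw
      rw [← Polynomial.coeff_map, h, Polynomial.coeff_zero]
    show volume ((fun x : ℂ => (x, w)) ⁻¹' s) = 0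
    refine Set.Finite.measure_zero ((Polynomial.map (eval w)
      (finSuccEquiv ℂ n f)).roots.toFinset.finite_toSet.subset fun x hx => ?_) _
    rw [Finset.mem_coe, Multiset.mem_toFinset, Polynomial.mem_roots hQ, Polynomial.IsRoot.def,
      ← eval_eq_eval_mv_eval']
    exact hx

end LP
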