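import Mathlib

/-!
# Frobenius volumes and normalized volumes of pairs on affine space: definitions
-/

set_option autoImplicit false

noncomputable section

namespace LP

open MvPolynomial Filter MeasureTheory

/-- The maximal ideal of the origin in `k[x₁,…,xₙ]`. -/
def m0 (n : ℕ) (k : Type*) [CommRing k] : Ideal (MvPolynomial (Fin n) k) :=
  RingHom.ker (constantCoeff : MvPolynomial (Fin n) k →+* k)

/-- An ideal which is primary to the maximal ideal of the origin. -/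
def IsPrim {n : ℕ} {k : Type*} [CommRing k] (I : Ideal (MvPolynomial (Fin n) k)) : Prop :=
  I ≤ m0 n k ∧ ∃ N : ℕ, m0 n k ^ N ≤ I

/-- The Hilbert-Samuel multiplicity `limsup n! dim (P / I^N) / N^n`. -/
def emult {n : ℕ} {k : Type*} [CommRing k] (I : Ideal (MvPolynomial (Fin n) k)) : ℝ :=
  limsup (fun N : ℕ => (n.factorial : ℝ) *
    (Module.finrank k (MvPolynomial (Fin n) k ⧸ I ^ N) : ℝ) / (N : ℝ) ^ n) atTop

/-- The polynomial `∏ fᵢ ^ ⌈cᵢ (q - 1)⌉`. -/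
def Fq {n : ℕ} {k : Type*} [CommRing k] {ι : Type*} [Fintype ι]
    (f : ι → MvPolynomial (Fin n) k) (c : ι → ℚ) (q : ℕ) : MvPolynomial (Fin n) k :=
  ∏ i, f i ^ ⌈(c i : ℝ) * ((q : ℝ) - 1)⌉₊

/-- Strong `F`-regularity of the triple `(k^n, ∑ cᵢ div fᵢ, I^t)` at the origin. -/
def SFR {n : ℕ} {k : Type*} [CommRing k] {ι : Type*} [Fintype ι] (p : ℕ)
    (f : ι → MvPolynomial (Fin n) k) (c : ι → ℚ) (I : Ideal (MvPolynomial (Fin n) k))
    (t : ℝ) : Prop :=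
  ∀ d : MvPolynomial (Fin n) k, d ≠ 0 → ∃ e : ℕ, 1 ≤ e ∧
    ∃ φ : MvPolynomial (Fin n) k →+ MvPolynomial (Fin n) k,
      (∀ a b, φ (a ^ p ^ e * b) = a * φ b) ∧
      ∃ a ∈ I ^ ⌈t * ((p ^ e : ℕ) - 1 : ℝ)⌉₊, φ (d * Fq f c (p ^ e) * a) ∉ m0 n k

/-- The `F`-pure threshold of `I` at the origin with respect to `(k^n, ∑ cᵢ div fᵢ)`. -/
def fpt {n : ℕ} {k : Type*} [CommRing k] {ι : Type*} [Fintype ι] (p : ℕ)
    (f : ι → MvPolynomial (Fin n) k) (c : ι → ℚ) (I : Ideal (MvPolynomial (Fin n) k)) : ℝ :=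
  sSup {t : ℝ | 0 ≤ t ∧ SFR p f c I t}

/-- The Frobenius volume of the pair `(k^n, ∑ cᵢ div fᵢ)` at the origin. -/
def Fvol {n : ℕ} {k : Type*} [CommRing k] {ι : Type*} [Fintype ι] (p : ℕ)
    (f : ι → MvPolynomial (Fin n) k) (c : ι → ℚ) : ℝ :=
  sInf {v : ℝ | ∃ I : Ideal (MvPolynomial (Fin n) k), IsPrim I ∧ v = emult I * fpt p f c I ^ n}

/-- Integrability near the origin of `ℂⁿ` (for Lebesgue measure). -/
def IntNear {n : ℕ} (Φ : (Fin n → ℂ) → ℝ) : Prop :=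
  ∃ ρ : ℝ, 0 < ρ ∧ IntegrableOn Φ (Metric.ball (0 : Fin n → ℂ) ρ)

/-- The log canonical threshold of `I` at the origin with respect to `(ℂⁿ, ∑ cᵢ div fᵢ)`. -/
def lct {n : ℕ} {ι : Type*} [Fintype ι] (f : ι → MvPolynomial (Fin n) ℂ) (c : ι → ℚ)
    (I : Ideal (MvPolynomial (Fin n) ℂ)) : ℝ :=
  sSup {t : ℝ | 0 ≤ t ∧ ∃ Γ : Finset (MvPolynomial (Fin n) ℂ), Ideal.span (Γ : Set _) = I ∧
    IntNear (fun z => (∏ i, ‖eval z (f i)‖ ^ (-(2 * (c i : ℝ)))) *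
      (∑ g ∈ Γ, ‖eval z g‖ ^ 2) ^ (-t))}

/-- The normalized volume of the pair `(ℂⁿ, ∑ cᵢ div fᵢ)` at the origin (Liu's formula). -/
def volhat {n : ℕ} {ι : Type*} [Fintype ι] (f : ι → MvPolynomial (Fin n) ℂ) (c : ι → ℚ) : ℝ :=
  sInf {v : ℝ | ∃ I : Ideal (MvPolynomial (Fin n) ℂ), IsPrim I ∧ v = emult I * lct f c I ^ n}

/-- The pair `(k^n, ∑ cᵢ div fᵢ)` is strongly `F`-regular at the origin. -/
def Base {n : ℕ} {k : Type*} [CommRing k] {ι : Type*} [Fintype ι] (p : ℕ)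
    (f : ι → MvPolynomial (Fin n) k) (c : ι → ℚ) : Prop := SFR p f c ⊤ 0

/-- The restriction of a polynomial in `z = X 0` and `x₁,…,xₙ` to the hyperplane `z = 0`. -/
def restr {n : ℕ} {k : Type*} [CommRing k] :
    MvPolynomial (Fin (n + 1)) k →ₐ[k] MvPolynomial (Fin n) k :=
  aeval (Fin.cons 0 X)

/-- Polynomials in `x₁,…,xₙ` as polynomials in `z = X 0` and `x₁,…,xₙ`. -/
def emb {n : ℕ} {k : Type*} [CommRing k] :
    MvPolynomial (Fin n) k →ₐ[k] MvPolynomial (Fin (n + 1)) k :=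
  rename Fin.succ

/-- The family `z, f`. -/
def addF {n : ℕ} {k : Type*} [CommRing k] {ι : Type*} (f : ι → MvPolynomial (Fin (n + 1)) k) :
    Option ι → MvPolynomial (Fin (n + 1)) k := fun o => o.elim (X 0) f

/-- The coefficients `b, c`. -/
def addC {ι : Type*} (b : ℚ) (c : ι → ℚ) : Option ι → ℚ := fun o => o.elim b c

/-! ## Auxiliary notions used in the proofs -/

/-- The ideal `(X₁^q, …, Xₙ^q)`. -/
def J (n : ℕ) (k : Type*) [CommRing k] (q : ℕ) : Ideal (MvPolynomial (Fin n) k) :=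
  Ideal.span (Set.range fun i => X i ^ q)

/-- The coefficient of `z^ν`, `z = X 0`. -/
def cf {n : ℕ} {k : Type*} [CommRing k] (ν : ℕ) :
    MvPolynomial (Fin (n + 1)) k →ₗ[k] MvPolynomial (Fin n) k where
  toFun f := (finSuccEquiv k n f).coeff ν
  map_add' f g := by simp
  map_smul' r f := by simp

end LP
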