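import Pool.Agent.Lib.MP_9e8926_ag_LP.Bas

set_option autoImplicit false

noncomputable section

namespace LP

open MvPolynomial

variable {n : ℕ} {k : Type*} [Field k] (p : ℕ) [Fact p.Prime] [CharP k p]

/-- A `p^{-e}`-linear map maps `J (p^e q)` into `J q`. -/
theorem map_J (e q : ℕ) (ψ : MvPolynomial (Fin n) k →+ MvPolynomial (Fin n) k)
    (hψ : ∀ a b, ψ (a ^ p ^ e * b) = a * ψ b) {u : MvPolynomial (Fin n) k}
    (hu : u ∈ J n k (p ^ e * q)) : ψ u ∈ J n k q := by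
  unfold J at hu
  rw [Ideal.mem_span_range_iff_exists_fun] at hu
  obtain ⟨c, rfl⟩ := hu
  rw [map_sum]
  refine Ideal.sum_mem _ fun i _ => ?_
  have h1 : c i * X i ^ (p ^ e * q) = (X i ^ q) ^ p ^ e * c i := by
    rw [← pow_mul, mul_comm q, mul_comm]
  rw [h1, hψ]
  exact Ideal.mul_mem_right _ _ (Ideal.subset_span ⟨i, rfl⟩)

/-- A `p^{-e}`-linear map maps `J (p^e)` into the maximal ideal. -/
theorem map_J_m0 (e : ℕ) (ψ : MvPolynomial (Fin n) k →+ MvPolynomial (Fin n) k)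
    (hψ : ∀ a b, ψ (a ^ p ^ e * b) = a * ψ b) {u : MvPolynomial (Fin n) k}
    (hu : u ∈ J n k (p ^ e)) : ψ u ∈ m0 n k := by
  have h1 : ψ u ∈ J n k 1 := map_J p e 1 ψ hψ (by rwa [mul_one])
  rw [mem_J] at h1
  rw [mem_m0, constantCoeff_eq]
  by_contra h2
  obtain ⟨i, hi⟩ := h1 0 (mem_support_iff.2 h2)
  simp at hi

private def FrobN_exp (q : ℕ) (μ : Fin n →₀ ℕ) (m : Fin n →₀ ℕ) : Fin n →₀ ℕ := q • m + μ

private theorem FrobN_exp_apply (q : ℕ) (μ m : Fin n →₀ ℕ) (a : Fin n) :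
    FrobN_exp q μ m a = q * m a + μ a := by
  simp [FrobN_exp]

private theorem FrobN_exp_inj {q : ℕ} (μ : Fin n →₀ ℕ) (hq : 0 < q) :
    Function.Injective (FrobN_exp q μ) := by
  intro m m' h
  ext a
  have h0 : FrobN_exp q μ m a = FrobN_exp q μ m' a := by rw [h]
  rw [FrobN_exp_apply, FrobN_exp_apply] at h0
  exact Nat.eq_of_mul_eq_mul_left hq (Nat.add_right_cancel h0)

private theorem FrobN_exp_le {q : ℕ} {μ : Fin n →₀ ℕ} (hμ : ∀ a, μ a < q) (s m : Fin n →₀ ℕ) :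
    q • s ≤ FrobN_exp q μ m ↔ s ≤ m := by
  have key : ∀ a b c : ℕ, c < q → (q * a ≤ q * b + c ↔ a ≤ b) := by
    intro a b c hc
    constructor
    · intro h
      by_contra hcon
      have h1 : b + 1 ≤ a := by omega
      have h2 : q * (b + 1) ≤ q * a := Nat.mul_le_mul_left q h1
      rw [mul_add, mul_one] at h2
      omega
    · intro h
      exact le_trans (Nat.mul_le_mul_left q h) (Nat.le_add_right _ _)
  constructor
  · intro h a
    have ha := h a
    rw [Finsupp.smul_apply, smul_eq_mul, FrobN_exp_apply] at ha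
    exact (key _ _ _ (hμ a)).1 ha
  · intro h a
    have ha := h a
    rw [Finsupp.smul_apply, smul_eq_mul, FrobN_exp_apply]
    exact (key _ _ _ (hμ a)).2 ha

private theorem FrobN_exp_sub {q : ℕ} {μ : Fin n →₀ ℕ} (s m : Fin n →₀ ℕ) (h : s ≤ m) :
    FrobN_exp q μ m - q • s = FrobN_exp q μ (m - s) := by
  have key : ∀ a b c : ℕ, a ≤ b → q * b + c - q * a = q * (b - a) + c := by
    intro a b c hab
    obtain ⟨d, rfl⟩ := Nat.exists_eq_add_of_le hab
    rw [Nat.add_sub_cancel_left, mul_add]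
    omega
  ext a
  rw [Finsupp.tsub_apply, FrobN_exp_apply, FrobN_exp_apply, Finsupp.smul_apply, smul_eq_mul,
    Finsupp.tsub_apply]
  exact key _ _ _ (h a)

private def FrobN_psi0 (r : k ≃+* k) (q : ℕ) (μ : Fin n →₀ ℕ) (hq : 0 < q)
    (u : MvPolynomial (Fin n) k) : MvPolynomial (Fin n) k :=
  AddMonoidAlgebra.ofCoeff ((Finsupp.comapDomain (FrobN_exp q μ) (AddMonoidAlgebra.coeff u)
    (FrobN_exp_inj μ hq).injOn).mapRange r (map_zero r))

private theorem FrobN_coeff_psi0 (r : k ≃+* k) (q : ℕ) (μ : Fin n →₀ ℕ) (hq : 0 < q)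
    (u : MvPolynomial (Fin n) k) (m : Fin n →₀ ℕ) :
    coeff m (FrobN_psi0 r q μ hq u) = r (coeff (FrobN_exp q μ m) u) := rfl

private def FrobN_psi1 (r : k ≃+* k) (q : ℕ) (μ : Fin n →₀ ℕ) (hq : 0 < q) :
    MvPolynomial (Fin n) k →+ MvPolynomial (Fin n) k where
  toFun := FrobN_psi0 r q μ hq
  map_zero' := by
    ext m
    rw [FrobN_coeff_psi0, coeff_zero, coeff_zero, map_zero]
  map_add' u v := by
    ext m
    rw [FrobN_coeff_psi0, coeff_add, coeff_add, FrobN_coeff_psi0, FrobN_coeff_psi0, map_add]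

private theorem FrobN_coeff_psi1 (r : k ≃+* k) (q : ℕ) (μ : Fin n →₀ ℕ) (hq : 0 < q)
    (u : MvPolynomial (Fin n) k) (m : Fin n →₀ ℕ) :
    coeff m (FrobN_psi1 r q μ hq u) = r (coeff (FrobN_exp q μ m) u) := rfl

theorem exists_psi_unit [PerfectField k] (e : ℕ) (u : MvPolynomial (Fin n) k)
    (hu : u ∉ J n k (p ^ e)) :
    ∃ ψ : MvPolynomial (Fin n) k →+ MvPolynomial (Fin n) k,
      (∀ a b, ψ (a ^ p ^ e * b) = a * ψ b) ∧ ψ u ∉ m0 n k := by
  classical
  have hq : 0 < p ^ e := pow_pos (Fact.out : p.Prime).pos e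
  have hr' : ∀ x : k, (iterateFrobeniusEquiv k p e).symm (x ^ p ^ e) = x := fun x =>
    (iterateFrobeniusEquiv k p e).symm_apply_apply x
  rw [mem_J] at hu
  push Not at hu
  obtain ⟨μ, hμ, hμl⟩ := hu
  refine ⟨FrobN_psi1 (iterateFrobeniusEquiv k p e).symm (p ^ e) μ hq, fun a b => ?_, ?_⟩
  · induction a using MvPolynomial.induction_on' with
    | monomial s c =>
      rw [monomial_pow]
      ext m
      rw [FrobN_coeff_psi1, coeff_monomial_mul', coeff_monomial_mul', FrobN_coeff_psi1]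
      by_cases hsm : s ≤ m
      · rw [if_pos hsm, if_pos ((FrobN_exp_le hμl s m).2 hsm), map_mul, hr',
          FrobN_exp_sub s m hsm]
      · rw [if_neg hsm, if_neg (fun h => hsm ((FrobN_exp_le hμl s m).1 h)), map_zero]
    | add a a' ha ha' =>
      rw [add_pow_char_pow, add_mul, map_add, ha, ha', add_mul]
  · rw [mem_m0, constantCoeff_eq, FrobN_coeff_psi1]
    have h1 : FrobN_exp (p ^ e) μ 0 = μ := by
      unfold FrobN_exp
      rw [smul_zero, zero_add]
    rw [h1]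
    intro h0
    have h2 := (map_eq_zero_iff _ (iterateFrobeniusEquiv k p e).symm.injective).1 h0
    exact (mem_support_iff.1 hμ) h2

theorem flat [PerfectField k] (e q : ℕ) (u z : MvPolynomial (Fin n) k)
    (hu : u ∉ J n k (p ^ e)) (h : u * z ^ p ^ e ∈ J n k (p ^ e * q)) : z ∈ J n k q := by
  obtain ⟨ψ, hψ1, hψ2⟩ := exists_psi_unit p e u hu
  have h1 := map_J p e q ψ hψ1 h
  rw [mul_comm u, hψ1] at h1
  exact mem_J_of_mul (fun h0 => hψ2 (mem_m0.2 h0)) h1

end LP
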