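import Pool.Agent.Lib.MP_9e8926_ag_LP.SfrN

set_option autoImplicit false

noncomputable section

namespace LP

open MvPolynomial

variable {n : ℕ} {k : Type*} [Field k] {ι : Type*} [Fintype ι] (p : ℕ) [Fact p.Prime] [CharP k p]
  (f : ι → MvPolynomial (Fin n) k) (c : ι → ℚ)

theorem sfr_le (hn : 1 ≤ n) {I : Ideal (MvPolynomial (Fin n) k)} (hI : I ≤ m0 n k) {t : ℝ}
    (h : SFR p f c I t) : t ≤ n := by
  by_contra hcon
  push Not at hcon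
  have h0 : (0 : ℝ) < t - n := by linarith
  obtain ⟨e, -, hQ, a, ha, hna⟩ := sfr_large p f c hn h 1 one_ne_zero ⌈t / (t - n)⌉₊
  apply hna
  refine Ideal.mul_mem_left _ _ ?_
  have h1 : t / (t - n) ≤ ((p ^ e : ℕ) : ℝ) := (Nat.le_ceil _).trans (by exact_mod_cast hQ)
  rw [div_le_iff₀ h0] at h1
  have h2 : ((n * p ^ e : ℕ) : ℝ) ≤ t * (((p ^ e : ℕ) : ℝ) - 1) := by
    push_cast at h1 ⊢
    nlinarith
  have h3 : n * p ^ e ≤ ⌈t * (((p ^ e : ℕ) : ℝ) - 1)⌉₊ := by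
    exact_mod_cast h2.trans (Nat.le_ceil _)
  exact m0_pow_le_J hn _ (Ideal.pow_le_pow_right h3 (Ideal.pow_right_mono hI _ ha))

theorem fpt_nonneg (I : Ideal (MvPolynomial (Fin n) k)) : 0 ≤ fpt p f c I :=
  Real.sSup_nonneg fun _ ht => ht.1

theorem fpt_eq_zero_of_not_base (h : ¬ Base p f c) (I : Ideal (MvPolynomial (Fin n) k)) :
    fpt p f c I = 0 := by
  have h1 : {t : ℝ | 0 ≤ t ∧ SFR p f c I t} = ∅ := by
    rw [Set.eq_empty_iff_forall_notMem]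
    exact fun t ht => h (base_of_sfr p f c ht.2)
  unfold fpt
  rw [h1, Real.sSup_empty]

/-- Beyond the threshold everything is in `J`. -/
theorem mem_of_fpt_lt [PerfectField k] (hn : 1 ≤ n) (hc : ∀ i, 0 ≤ c i) (hb : Base p f c)
    {I : Ideal (MvPolynomial (Fin n) k)} (hI : I ≤ m0 n k) {t : ℝ} (ht : fpt p f c I < t)
    {e : ℕ} (he : 1 ≤ e) {a : MvPolynomial (Fin n) k} (ha : a ∈ I ^ ⌈t * (p ^ e : ℕ)⌉₊) :
    Fq f c (p ^ e) * a ∈ J n k (p ^ e) := by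
  by_contra hcon
  have h0 : 0 ≤ t := (fpt_nonneg p f c I).trans ht.le
  have hs := sfr_of_not_mem p f c hc hb h0 he ha hcon
  have h1 : t ≤ fpt p f c I :=
    le_csSup ⟨(n : ℝ), fun s hs => sfr_le p f c hn hI hs.2⟩ ⟨h0, hs⟩
  exact absurd ht (not_lt.2 h1)

theorem fpt_le (hn : 1 ≤ n) {I : Ideal (MvPolynomial (Fin n) k)} {t : ℝ} (ht : 0 ≤ t)
    (h : ∀ s : ℝ, t < s → ∃ Q : ℕ, ∀ e : ℕ, 1 ≤ e → Q ≤ p ^ e →
      ∀ a ∈ I ^ ⌈s * ((p ^ e : ℕ) - 1 : ℝ)⌉₊, Fq f c (p ^ e) * a ∈ J n k (p ^ e)) :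
    fpt p f c I ≤ t := by
  refine Real.sSup_le (fun s hs => ?_) ht
  by_contra hcon
  push Not at hcon
  obtain ⟨Q, hQ⟩ := h s hcon
  obtain ⟨e, he, hQe, a, ha, hna⟩ := sfr_large p f c hn hs.2 1 one_ne_zero Q
  rw [one_mul] at hna
  exact hna (hQ e he hQe a ha)

end LP
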