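import Pool.Agent.Lib.MP_9e8926_ag_LP.Geo2

set_option autoImplicit false

noncomputable section

namespace LP

open MeasureTheory Set

private theorem geo_polar (n : ℕ) (hn : 1 ≤ n) (f : (Fin n → ℝ) → ENNReal) (hf : Measurable f) :
    ∫⁻ w, f w = ∫⁻ u, (∫⁻ r in Ioi (0 : ℝ), ENNReal.ofReal (r ^ (n - 1)) *
      f (r • (u : Fin n → ℝ))) ∂(volume : Measure (Fin n → ℝ)).toSphere := by
  have : Nonempty (Fin n) := ⟨⟨0, by omega⟩⟩
  have hdim : Module.finrank ℝ (Fin n → ℝ) = n := Module.finrank_fin_fun ℝ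
  have hg : Measurable fun p : Metric.sphere (0 : Fin n → ℝ) 1 × Ioi (0 : ℝ) =>
      f ((p.2 : ℝ) • (p.1 : Fin n → ℝ)) :=
    hf.comp ((measurable_subtype_coe.comp measurable_snd).smul
      (measurable_subtype_coe.comp measurable_fst))
  have hmp := Measure.measurePreserving_homeomorphUnitSphereProd
    (volume : Measure (Fin n → ℝ))
  have e2 := hmp.lintegral_comp hg
  have e1 : ∫⁻ w, f w = ∫⁻ w : ({(0 : Fin n → ℝ)}ᶜ : Set (Fin n → ℝ)), f w
      ∂((volume : Measure (Fin n → ℝ)).comap Subtype.val) := by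
    rw [lintegral_subtype_comap (measurableSet_singleton _).compl f,
      restrict_compl_singleton]
  rw [e1]
  have e3 : ∀ w : ({(0 : Fin n → ℝ)}ᶜ : Set (Fin n → ℝ)),
      f ((((homeomorphUnitSphereProd (Fin n → ℝ)) w).2 : ℝ) •
        (((homeomorphUnitSphereProd (Fin n → ℝ)) w).1 : Fin n → ℝ)) = f w := by
    intro w
    congr 1
    have hw : ‖(w : Fin n → ℝ)‖ ≠ 0 := norm_ne_zero_iff.2 w.2
    rw [homeomorphUnitSphereProd_apply_snd_coe, homeomorphUnitSphereProd_apply_fst_coe, smul_smul,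
      mul_inv_cancel₀ hw, one_smul]
  simp only [e3] at e2
  rw [e2, lintegral_prod _ hg.aemeasurable]
  congr 1
  funext u
  rw [hdim]
  unfold Measure.volumeIoiPow
  rw [lintegral_withDensity_eq_lintegral_mul]
  · have := lintegral_subtype_comap (μ := (volume : Measure ℝ)) (measurableSet_Ioi (a := (0 : ℝ)))
      (fun r => ENNReal.ofReal (r ^ (n - 1)) * f (r • (u : Fin n → ℝ)))
    rw [← this]
    rfl
  · exact ENNReal.measurable_ofReal.comp (measurable_subtype_coe.pow_const _)
  · exact hg.comp (measurable_const.prodMk measurable_id)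

/-- Volumes outside of a convex set in dimension `n + 1` and in a hyperplane section. -/
theorem geo (n : ℕ) (hn : 1 ≤ n) (Γ : Set (Fin (n + 1) → ℝ)) (hΓ : IsClosed Γ)
    (hc : Convex ℝ Γ) (hup : ∀ w ∈ Γ, ∀ w', w ≤ w' → w' ∈ Γ) (R : ℝ) (hR : 0 < R)
    (hlarge : ∀ w : Fin (n + 1) → ℝ, 0 ≤ w → (∃ i, R ≤ w i) → w ∈ Γ)
    (x : ℝ) (hx : 0 < x) :
    (((n : ℝ) + 1) / n) ^ n * x *
      (volume {w : Fin n → ℝ | 0 ≤ w ∧ (Fin.cons x w : Fin (n + 1) → ℝ) ∉ Γ}).toReal ≤
      (volume {w : Fin (n + 1) → ℝ | 0 ≤ w ∧ w ∉ Γ}).toReal := by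
  set T : Set (Fin (n + 1) → ℝ) := {w | 0 ≤ w ∧ w ∉ Γ} with hT
  have hTm : MeasurableSet T := by
    have h1 : T = Ici 0 ∩ Γᶜ := rfl
    rw [h1]
    exact isClosed_Ici.measurableSet.inter hΓ.measurableSet.compl
  have hcons : Continuous fun p : ℝ × (Fin n → ℝ) => (Fin.cons p.1 p.2 : Fin (n + 1) → ℝ) := by
    refine continuous_pi fun i => ?_
    refine Fin.cases ?_ (fun j => ?_) i
    · simp only [Fin.cons_zero]
      exact continuous_fst
    · simp only [Fin.cons_succ]
      exact (continuous_apply j).comp continuous_snd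
  set h : ℝ → (Fin n → ℝ) → ENNReal := fun y w =>
    T.indicator (fun _ => (1 : ENNReal)) (Fin.cons y w : Fin (n + 1) → ℝ) with hh
  have hhm : Measurable fun p : ℝ × (Fin n → ℝ) => h p.1 p.2 :=
    (measurable_const.indicator hTm).comp hcons.measurable
  have hmem : ∀ (y : ℝ) (w : Fin n → ℝ), 0 < y →
      ((Fin.cons y w : Fin (n + 1) → ℝ) ∈ T ↔ 0 ≤ w ∧ (Fin.cons y w : Fin (n + 1) → ℝ) ∉ Γ) := by
    intro y w hy
    rw [hT]
    constructor
    · rintro ⟨h1, h2⟩
      exact ⟨fun j => by simpa using h1 j.succ, h2⟩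
    · rintro ⟨h1, h2⟩
      refine ⟨fun i => ?_, h2⟩
      refine Fin.cases ?_ (fun j => ?_) i
      · simpa using hy.le
      · simpa using h1 j
  -- the inequality for the fixed direction
  have key : ∀ u : Metric.sphere (0 : Fin n → ℝ) 1,
      ENNReal.ofReal ((((n : ℝ) + 1) / n) ^ n * x) *
        (∫⁻ r in Ioi (0 : ℝ), ENNReal.ofReal (r ^ (n - 1)) * h x (r • (u : Fin n → ℝ))) ≤
      ∫⁻ y in Ioi (0 : ℝ), ∫⁻ r in Ioi (0 : ℝ),
        ENNReal.ofReal (r ^ (n - 1)) * h y (r • (u : Fin n → ℝ)) := by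
    intro u
    by_cases hu : 0 ≤ (u : Fin n → ℝ)
    · set Δ : Set (ℝ × ℝ) :=
        {p | (Fin.cons p.1 (p.2 • (u : Fin n → ℝ)) : Fin (n + 1) → ℝ) ∈ Γ} with hΔ
      have hcu : Continuous fun p : ℝ × ℝ =>
          (Fin.cons p.1 (p.2 • (u : Fin n → ℝ)) : Fin (n + 1) → ℝ) :=
        hcons.comp (continuous_fst.prodMk (continuous_snd.smul continuous_const))
      have hconv : ∀ y : ℝ, 0 < y → ∀ r ∈ Ioi (0 : ℝ),
          ENNReal.ofReal (r ^ (n - 1)) * h y (r • (u : Fin n → ℝ)) =
          ({s : ℝ | (y, s) ∉ Δ}.indicator (fun s => ENNReal.ofReal (s ^ (n - 1)))) r := by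
        intro y hy r hr
        have hru : 0 ≤ r • (u : Fin n → ℝ) := smul_nonneg (le_of_lt hr) hu
        have hiff := hmem y (r • (u : Fin n → ℝ)) hy
        by_cases hin : (Fin.cons y (r • (u : Fin n → ℝ)) : Fin (n + 1) → ℝ) ∈ Γ
        · have h1 : (Fin.cons y (r • (u : Fin n → ℝ)) : Fin (n + 1) → ℝ) ∉ T := fun hc =>
            (hiff.1 hc).2 hin
          have h2 : r ∉ {s : ℝ | (y, s) ∉ Δ} := fun hc => hc hin
          rw [hh]
          simp only
          rw [indicator_of_notMem h1, indicator_of_notMem h2, mul_zero]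
        · have h1 : (Fin.cons y (r • (u : Fin n → ℝ)) : Fin (n + 1) → ℝ) ∈ T :=
            hiff.2 ⟨hru, hin⟩
          have h2 : r ∈ {s : ℝ | (y, s) ∉ Δ} := fun hc => hin hc
          rw [hh]
          simp only
          rw [indicator_of_mem h1, indicator_of_mem h2, mul_one]
      have hg := geo2 n hn Δ (hΓ.preimage hcu) ?_ ?_ R hR ?_ x hx
      · rw [setLIntegral_congr_fun measurableSet_Ioi (hconv x hx)]
        refine hg.trans (le_of_eq ?_)
        refine setLIntegral_congr_fun measurableSet_Ioi fun y hy => ?_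
        exact (setLIntegral_congr_fun measurableSet_Ioi (hconv y hy)).symm
      · intro p hp q hq a b ha hb hab
        have h1 := hc hp hq ha hb hab
        rw [hΔ]
        change (Fin.cons (a • p + b • q).1 ((a • p + b • q).2 • (u : Fin n → ℝ)) :
          Fin (n + 1) → ℝ) ∈ Γ
        convert h1 using 1
        funext i
        refine Fin.cases ?_ (fun j => ?_) i
        · simp
        · simp
          ring
      · intro p hp q hpq
        refine hup _ hp _ ?_
        intro i
        refine Fin.cases ?_ (fun j => ?_) i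
        · simpa using hpq.1
        · simp only [Fin.cons_succ, Pi.smul_apply, smul_eq_mul]
          exact mul_le_mul_of_nonneg_right hpq.2 (hu j)
      · intro p hp hpR
        refine hlarge _ ?_ ?_
        · intro i
          refine Fin.cases ?_ (fun j => ?_) i
          · simpa using hp.1
          · simp only [Fin.cons_succ, Pi.smul_apply, smul_eq_mul]
            exact mul_nonneg hp.2 (hu j)
        · rcases hpR with h1 | h1
          · exact ⟨0, by simpa using h1⟩
          · have hnorm : ‖(u : Fin n → ℝ)‖ = 1 := by simp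
            have h2 : ¬ ∀ i, ‖(u : Fin n → ℝ) i‖ < 1 := by
              rw [← pi_norm_lt_iff one_pos, hnorm]
              exact lt_irrefl _
            push Not at h2
            obtain ⟨j, hj⟩ := h2
            rw [Real.norm_eq_abs, abs_of_nonneg (hu j)] at hj
            refine ⟨j.succ, ?_⟩
            simp only [Fin.cons_succ, Pi.smul_apply, smul_eq_mul]
            have := mul_le_mul h1 hj zero_le_one hp.2
            linarith
    · have h0 : ∫⁻ r in Ioi (0 : ℝ), ENNReal.ofReal (r ^ (n - 1)) * h x (r • (u : Fin n → ℝ)) =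
          0 := by
        rw [setLIntegral_congr_fun measurableSet_Ioi (g := fun _ => 0)]
        · simp
        · intro r hr
          have h1 : (Fin.cons x (r • (u : Fin n → ℝ)) : Fin (n + 1) → ℝ) ∉ T := by
            intro hc
            refine hu fun j => ?_
            have h2 := ((hmem x _ hx).1 hc).1 j
            simp only [Pi.smul_apply, smul_eq_mul, Pi.zero_apply] at h2
            exact nonneg_of_mul_nonneg_right h2 hr
          rw [hh]
          simp only
          rw [indicator_of_notMem h1, mul_zero]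
      rw [h0, mul_zero]
      exact bot_le
  -- the volume of the section
  have hSm : MeasurableSet {w : Fin n → ℝ | 0 ≤ w ∧ (Fin.cons x w : Fin (n + 1) → ℝ) ∉ Γ} := by
    have h1 : {w : Fin n → ℝ | 0 ≤ w ∧ (Fin.cons x w : Fin (n + 1) → ℝ) ∉ Γ} =
        (fun w : Fin n → ℝ => (Fin.cons x w : Fin (n + 1) → ℝ)) ⁻¹' T := by
      ext w
      exact (hmem x w hx).symm
    rw [h1]
    exact hTm.preimage (hcons.comp (continuous_const.prodMk continuous_id)).measurable
  have hL : volume {w : Fin n → ℝ | 0 ≤ w ∧ (Fin.cons x w : Fin (n + 1) → ℝ) ∉ Γ} =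
      ∫⁻ w, h x w := by
    rw [← lintegral_indicator_one hSm]
    congr 1
    funext w
    have hiff := hmem x w hx
    by_cases hw : 0 ≤ w ∧ (Fin.cons x w : Fin (n + 1) → ℝ) ∉ Γ
    · rw [hh]
      simp only
      rw [indicator_of_mem (hiff.2 hw), indicator_of_mem (show w ∈ {w : Fin n → ℝ | 0 ≤ w ∧
        (Fin.cons x w : Fin (n + 1) → ℝ) ∉ Γ} from hw)]
      rfl
    · rw [hh]
      simp only
      rw [indicator_of_notMem (fun hc => hw (hiff.1 hc)), indicator_of_notMem (show w ∉
        {w : Fin n → ℝ | 0 ≤ w ∧ (Fin.cons x w : Fin (n + 1) → ℝ) ∉ Γ} from hw)]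
  have hR1 : ∫⁻ y in Ioi (0 : ℝ), ∫⁻ w, h y w ≤ volume T := by
    have hmp := volume_preserving_piFinSuccAbove (fun _ : Fin (n + 1) => ℝ) 0
    have h1 : volume T = ∫⁻ p : ℝ × (Fin n → ℝ), h p.1 p.2 := by
      rw [← lintegral_indicator_one hTm]
      have h2 := hmp.lintegral_comp hhm
      rw [← h2]
      congr 1
      funext w
      rw [hh]
      simp only
      have h3 : (Fin.cons ((MeasurableEquiv.piFinSuccAbove (fun _ : Fin (n + 1) => ℝ) 0) w).1
          ((MeasurableEquiv.piFinSuccAbove (fun _ : Fin (n + 1) => ℝ) 0) w).2 :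
          Fin (n + 1) → ℝ) = w := by
        funext i
        refine Fin.cases ?_ (fun j => ?_) i
        · simp [MeasurableEquiv.piFinSuccAbove]
        · simp [MeasurableEquiv.piFinSuccAbove]
          rfl
      rw [h3]
      rfl
    rw [h1, Measure.volume_eq_prod, lintegral_prod _ hhm.aemeasurable]
    exact setLIntegral_le_lintegral _ _
  have hhy : ∀ y : ℝ, Measurable (h y) := fun y =>
    hhm.comp (measurable_const.prodMk measurable_id)
  have main : ENNReal.ofReal ((((n : ℝ) + 1) / n) ^ n * x) *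
      volume {w : Fin n → ℝ | 0 ≤ w ∧ (Fin.cons x w : Fin (n + 1) → ℝ) ∉ Γ} ≤ volume T := by
    rw [hL]
    refine le_trans ?_ hR1
    rw [geo_polar n hn _ (hhy x)]
    simp only [geo_polar n hn _ (hhy _)]
    have hFm : Measurable fun q : (ℝ × Metric.sphere (0 : Fin n → ℝ) 1) × ℝ =>
        ENNReal.ofReal (q.2 ^ (n - 1)) * h q.1.1 (q.2 • (q.1.2 : Fin n → ℝ)) := by
      refine (ENNReal.measurable_ofReal.comp (measurable_snd.pow_const _)).mul ?_
      exact hhm.comp ((measurable_fst.comp measurable_fst).prodMk (measurable_snd.smul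
        (measurable_subtype_coe.comp (measurable_snd.comp measurable_fst))))
    have hsw : ∫⁻ y in Ioi (0 : ℝ), ∫⁻ u, (∫⁻ r in Ioi (0 : ℝ), ENNReal.ofReal (r ^ (n - 1)) *
        h y (r • (u : Fin n → ℝ))) ∂(volume : Measure (Fin n → ℝ)).toSphere =
        ∫⁻ u, (∫⁻ y in Ioi (0 : ℝ), ∫⁻ r in Ioi (0 : ℝ), ENNReal.ofReal (r ^ (n - 1)) *
        h y (r • (u : Fin n → ℝ))) ∂(volume : Measure (Fin n → ℝ)).toSphere :=
      lintegral_lintegral_swap (Measurable.lintegral_prod_right' hFm).aemeasurable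
    rw [hsw, ← lintegral_const_mul' _ _ ENNReal.ofReal_ne_top]
    exact lintegral_mono key
  have hTfin : volume T ≠ ⊤ := by
    have h1 : T ⊆ Icc 0 fun _ => R := by
      intro w hw
      refine ⟨hw.1, fun i => ?_⟩
      by_contra hcon
      rw [not_le] at hcon
      exact hw.2 (hlarge w hw.1 ⟨i, hcon.le⟩)
    exact ((measure_mono h1).trans_lt isCompact_Icc.measure_lt_top).ne
  have hc0 : 0 ≤ (((n : ℝ) + 1) / n) ^ n * x := by positivity
  have hfin := ENNReal.toReal_mono hTfin main
  rw [ENNReal.toReal_mul, ENNReal.toReal_ofReal hc0] at hfin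
  exact hfin

end LP
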