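import Pool.Agent.Lib.MP_9e8926_ag_LP.Reg

set_option autoImplicit false

noncomputable section

namespace LP

open MvPolynomial MeasureTheory Filter
open scoped Pointwise

variable {n : ℕ} {k : Type*} [Field k]

/-- the unit cube with lower corner `μ` -/
private def RegC_cube (μ : Fin n →₀ ℕ) : Set (Fin n → ℝ) :=
  Set.pi Set.univ fun i => Set.Ico (μ i : ℝ) ((μ i : ℝ) + 1)

private theorem RegC_cube_vol (μ : Fin n →₀ ℕ) :
    volume (RegC_cube μ : Set (Fin n → ℝ)) = 1 := by
  unfold RegC_cube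
  rw [Real.volume_pi_Ico]
  simp

theorem lower_count (I : Ideal (MvPolynomial (Fin n) k)) (hI : IsPrim I) :
    n.factorial * (volume {w : Fin n → ℝ | 0 ≤ w ∧ w ∉ Gam I}).toReal ≤ emult I := by
  classical
  set S : Set (Fin n → ℝ) := {w : Fin n → ℝ | 0 ≤ w ∧ w ∉ Gam I} with hS
  refine le_emult I hI _ fun s hs => ?_
  have hs' : (0 : ℝ) < s := by exact_mod_cast hs
  obtain ⟨-, M, hM⟩ := hI
  have hM' : m0 n k ^ (M * s) ≤ I ^ s := by
    rw [pow_mul]
    exact Ideal.pow_right_mono hM s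
  have hfin : (L (I ^ s))ᶜ.Finite := finite_compl hM'
  have hcard : Module.finrank k (MvPolynomial (Fin n) k ⧸ I ^ s) = hfin.toFinset.card := by
    rw [finrank_eq hM', Set.ncard_eq_toFinset_card _ hfin]
  -- the scaled set is covered by the cubes
  have hcov : (s : ℝ) • S ⊆ ⋃ μ ∈ hfin.toFinset, RegC_cube μ := by
    rintro u ⟨w, ⟨hw0, hw⟩, rfl⟩
    have hu : ∀ i, 0 ≤ (s : ℝ) * w i := fun i => mul_nonneg hs'.le (hw0 i)
    set μ : Fin n →₀ ℕ := Finsupp.equivFunOnFinite.symm fun i => ⌊(s : ℝ) * w i⌋₊ with hμ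
    have hμi : ∀ i, μ i = ⌊(s : ℝ) * w i⌋₊ := fun i => rfl
    refine Set.mem_iUnion₂.2 ⟨μ, ?_, ?_⟩
    · rw [Set.Finite.mem_toFinset]
      intro hmem
      refine hw (subset_closure (subset_convexHull ℝ _ ⟨s, hs, μ, hmem, fun i => ?_⟩))
      rw [hμi]
      exact Nat.floor_le (hu i)
    · intro i _
      change (s : ℝ) * w i ∈ Set.Ico (μ i : ℝ) ((μ i : ℝ) + 1)
      rw [hμi]
      exact ⟨Nat.floor_le (hu i), Nat.lt_floor_add_one _⟩
  have hvol : volume ((s : ℝ) • S) ≤ (hfin.toFinset.card : ENNReal) := by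
    refine (measure_mono hcov).trans ((measure_biUnion_finset_le _ _).trans ?_)
    rw [Finset.sum_congr rfl fun μ _ => RegC_cube_vol μ]
    simp
  rw [Measure.addHaar_smul] at hvol
  simp only [Module.finrank_fintype_fun_eq_card, Fintype.card_fin] at hvol
  have h1 : (ENNReal.ofReal |(s : ℝ) ^ n| * volume S).toReal ≤ (hfin.toFinset.card : ℝ) := by
    have := ENNReal.toReal_mono (ENNReal.natCast_ne_top _) hvol
    simpa using this
  rw [ENNReal.toReal_mul, ENNReal.toReal_ofReal (abs_nonneg _), abs_of_nonneg (by positivity)] at h1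
  rw [hcard, mul_assoc]
  refine mul_le_mul_of_nonneg_left ?_ (by positivity)
  rw [mul_comm]
  exact h1

end LP
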