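import Pool.Agent.Lib.MP_9e8926_ag_LP.Bas

set_option autoImplicit false

noncomputable section

namespace LP

open MvPolynomial MeasureTheory Filter

variable {n : ℕ} {k : Type*} [Field k]

private theorem Lim_cube_le (I : Ideal (MvPolynomial (Fin n) k)) (M : ℕ)
    (h : ∀ m : Fin n →₀ ℕ, (∃ i, M ≤ m i) → monomial m (1 : k) ∈ I) :
    Module.finrank k (MvPolynomial (Fin n) k ⧸ I) ≤ M ^ n := by
  classical
  set g : (Fin n → Fin M) → (MvPolynomial (Fin n) k ⧸ I) := fun a =>
    Ideal.Quotient.mkₐ k I (monomial (Finsupp.equivFunOnFinite.symm fun i => (a i : ℕ)) (1 : k))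
    with hg
  set T : Finset (MvPolynomial (Fin n) k ⧸ I) := Finset.univ.image g with hT
  have htop : Submodule.span k (T : Set (MvPolynomial (Fin n) k ⧸ I)) = ⊤ := by
    rw [hT, Finset.coe_image, eq_top_iff]
    rintro x -
    obtain ⟨f, rfl⟩ := Ideal.Quotient.mkₐ_surjective k I x
    induction f using MvPolynomial.induction_on' with
    | monomial u a =>
      have h1 : (monomial u a : MvPolynomial (Fin n) k) = a • monomial u 1 := by
        rw [smul_monomial, smul_eq_mul, mul_one]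
      rw [h1, map_smul]
      refine Submodule.smul_mem _ _ ?_
      by_cases hu : ∃ i, M ≤ u i
      · have h2 : Ideal.Quotient.mkₐ k I (monomial u (1 : k)) = 0 := by
          rw [Ideal.Quotient.mkₐ_eq_mk]
          exact Ideal.Quotient.eq_zero_iff_mem.2 (h u hu)
        rw [h2]
        exact Submodule.zero_mem _
      · have hu' : ∀ i, u i < M := fun i => by
          by_contra hc
          exact hu ⟨i, not_lt.1 hc⟩
        apply Submodule.subset_span
        refine ⟨fun i => ⟨u i, hu' i⟩, by simp, ?_⟩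
        have h4 : (Finsupp.equivFunOnFinite.symm fun i => u i) = u := by
          ext i
          rfl
        simp only [hg, h4]
    | add p q hp hq =>
      rw [map_add]
      exact Submodule.add_mem _ hp hq
  have h2 := finrank_span_finset_le_card (R := k) T
  rw [Set.finrank, htop, finrank_top] at h2
  refine h2.trans (Finset.card_image_le.trans ?_)
  rw [Finset.card_univ, Fintype.card_fun, Fintype.card_fin, Fintype.card_fin]

theorem finrank_pow_le (I : Ideal (MvPolynomial (Fin n) k)) (hI : IsPrim I) :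
    ∃ C : ℝ, ∀ s : ℕ, 1 ≤ s →
      (Module.finrank k (MvPolynomial (Fin n) k ⧸ I ^ s) : ℝ) ≤ C * (s : ℝ) ^ n := by
  obtain ⟨-, N, hN⟩ := hI
  refine ⟨(N : ℝ) ^ n, fun s _ => ?_⟩
  have h1 : m0 n k ^ (N * s) ≤ I ^ s := by
    rw [pow_mul]
    exact Ideal.pow_right_mono hN s
  have h2 := Lim_cube_le (I ^ s) (N * s) fun m hm => by
    apply h1
    rw [mem_m0_pow]
    intro m' hm'
    have h3 := support_monomial_subset hm'
    rw [Finset.mem_singleton] at h3
    subst h3
    obtain ⟨i, hi⟩ := hm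
    exact hi.trans (Finset.single_le_sum (f := fun i => m' i) (fun j _ => Nat.zero_le _)
      (Finset.mem_univ i))
  have h3 : (Module.finrank k (MvPolynomial (Fin n) k ⧸ I ^ s) : ℝ) ≤
      (((N * s) ^ n : ℕ) : ℝ) := by
    exact_mod_cast h2
  rw [← mul_pow]
  exact_mod_cast h3

private def LimU (I : Ideal (MvPolynomial (Fin n) k)) (s : ℕ) : ℝ := (n.factorial : ℝ) *
    (Module.finrank k (MvPolynomial (Fin n) k ⧸ I ^ s) : ℝ) / (s : ℝ) ^ n

private theorem LimU_nonneg (I : Ideal (MvPolynomial (Fin n) k)) (s : ℕ) : 0 ≤ LimU I s := by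
  unfold LimU
  positivity

private theorem LimU_cobdd (I : Ideal (MvPolynomial (Fin n) k)) :
    IsCoboundedUnder (· ≤ ·) atTop (LimU I) :=
  isCoboundedUnder_le_of_le atTop (x := 0) (LimU_nonneg I)

private theorem LimU_bdd (I : Ideal (MvPolynomial (Fin n) k)) (hI : IsPrim I) :
    IsBoundedUnder (· ≤ ·) atTop (LimU I) := by
  obtain ⟨C0, hC⟩ := finrank_pow_le I hI
  refine isBoundedUnder_of_eventually_le (a := (n.factorial : ℝ) * C0) ?_
  filter_upwards [eventually_ge_atTop 1] with s hs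
  have h0 : (0 : ℝ) < (s : ℝ) := by exact_mod_cast hs
  unfold LimU
  rw [div_le_iff₀ (by positivity), mul_assoc]
  exact mul_le_mul_of_nonneg_left (hC s hs) (by positivity)

private theorem emult_eq_LimU (I : Ideal (MvPolynomial (Fin n) k)) :
    emult I = limsup (LimU I) atTop := rfl

theorem emult_nonneg (I : Ideal (MvPolynomial (Fin n) k)) (hI : IsPrim I) : 0 ≤ emult I := by
  rw [emult_eq_LimU]
  exact le_limsup_of_frequently_le
    (Eventually.frequently (Eventually.of_forall fun s => LimU_nonneg I s)) (LimU_bdd I hI)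

theorem emult_le (I : Ideal (MvPolynomial (Fin n) k)) (x : ℕ → ℝ) (V : ℝ)
    (hx : Tendsto x atTop (nhds V))
    (h : ∀ᶠ s : ℕ in atTop, (n.factorial : ℝ) *
      (Module.finrank k (MvPolynomial (Fin n) k ⧸ I ^ s) : ℝ) ≤ x s * (s : ℝ) ^ n) :
    emult I ≤ V := by
  rw [emult_eq_LimU, ← hx.limsup_eq]
  refine limsup_le_limsup ?_ (LimU_cobdd I) hx.isBoundedUnder_le
  filter_upwards [eventually_ge_atTop 1, h] with s hs h1
  have h0 : (0 : ℝ) < (s : ℝ) := by exact_mod_cast hs
  unfold LimU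
  rw [div_le_iff₀ (by positivity)]
  exact h1

theorem le_emult (I : Ideal (MvPolynomial (Fin n) k)) (hI : IsPrim I) (V : ℝ)
    (h : ∀ s : ℕ, 1 ≤ s → V * (s : ℝ) ^ n ≤ (n.factorial : ℝ) *
      (Module.finrank k (MvPolynomial (Fin n) k ⧸ I ^ s) : ℝ)) :
    V ≤ emult I := by
  rw [emult_eq_LimU]
  refine le_limsup_of_frequently_le (Eventually.frequently ?_) (LimU_bdd I hI)
  filter_upwards [eventually_ge_atTop 1] with s hs
  have h0 : (0 : ℝ) < (s : ℝ) := by exact_mod_cast hs
  unfold LimU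
  rw [le_div_iff₀ (by positivity)]
  exact h s hs

theorem finrank_le_emult (I : Ideal (MvPolynomial (Fin n) k)) (hI : IsPrim I) (V : ℝ)
    (hV : emult I < V) : ∃ C : ℝ, ∀ s : ℕ, (n.factorial : ℝ) *
      (Module.finrank k (MvPolynomial (Fin n) k ⧸ I ^ s) : ℝ) ≤ V * (s : ℝ) ^ n + C := by
  have hV0 : 0 < V := (emult_nonneg I hI).trans_lt hV
  rw [emult_eq_LimU] at hV
  obtain ⟨s0, hs0⟩ := eventually_atTop.1 (eventually_lt_of_limsup_lt hV (LimU_bdd I hI))
  set F : ℕ → ℝ := fun s => (n.factorial : ℝ) *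
    (Module.finrank k (MvPolynomial (Fin n) k ⧸ I ^ s) : ℝ) with hF
  have hF0 : ∀ s, 0 ≤ F s := fun s => by
    rw [hF]
    positivity
  have hS : 0 ≤ ∑ s ∈ Finset.range (s0 + 1), F s := Finset.sum_nonneg fun s _ => hF0 s
  refine ⟨∑ s ∈ Finset.range (s0 + 1), F s, fun s => ?_⟩
  change F s ≤ _
  rcases Nat.lt_or_ge s (s0 + 1) with hs | hs
  · have h1 : F s ≤ ∑ s ∈ Finset.range (s0 + 1), F s :=
      Finset.single_le_sum (f := F) (fun j _ => hF0 j) (Finset.mem_range.2 hs)
    have h2 : 0 ≤ V * (s : ℝ) ^ n := by positivity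
    linarith
  · have h1 := hs0 s (by omega)
    have h0 : (0 : ℝ) < (s : ℝ) := by
      have : 0 < s := by omega
      exact_mod_cast this
    unfold LimU at h1
    rw [div_lt_iff₀ (by positivity)] at h1
    have h2 : F s ≤ V * (s : ℝ) ^ n := h1.le
    linarith

end LP
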