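import Pool.Agent.Lib.MP_9e8926_ag_LP.NewtB
import Pool.Agent.Lib.MP_9e8926_ag_LP.Lim

set_option autoImplicit false

noncomputable section

namespace LP

open MvPolynomial MeasureTheory Filter

variable {n : ℕ} {k : Type*} [Field k]

theorem emult_le_covol (hn : 1 ≤ n) (I : Ideal (MvPolynomial (Fin n) k)) (hI : IsPrim I) :
    emult I ≤ n.factorial * (volume {w : Fin n → ℝ | 0 ≤ w ∧ w ∉ Up (L I)}).toReal := by
  obtain ⟨C, hC⟩ := finrank_le_covol hn I hI
  set V : ℝ := (volume {w : Fin n → ℝ | 0 ≤ w ∧ w ∉ Up (L I)}).toReal with hV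
  refine emult_le I (fun s : ℕ => (n.factorial : ℝ) *
    ((1 + (n : ℝ) / (s : ℝ)) ^ n * V + C / (s : ℝ))) _ ?_ ?_
  · have h1 : Tendsto (fun s : ℕ => (n : ℝ) / (s : ℝ)) atTop (nhds 0) :=
      tendsto_const_div_atTop_nhds_zero_nat _
    have h2 : Tendsto (fun s : ℕ => C / (s : ℝ)) atTop (nhds 0) :=
      tendsto_const_div_atTop_nhds_zero_nat _
    have h3 : Tendsto (fun s : ℕ => (n.factorial : ℝ) *
        ((1 + (n : ℝ) / (s : ℝ)) ^ n * V + C / (s : ℝ))) atTop
        (nhds ((n.factorial : ℝ) * ((1 + 0) ^ n * V + 0))) :=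
      ((((h1.const_add 1).pow n).mul_const V).add h2).const_mul _
    simpa using h3
  · filter_upwards [eventually_ge_atTop 1] with s hs
    have h0 : (0 : ℝ) < (s : ℝ) := by exact_mod_cast hs
    have h1 := hC s hs
    have h2 : ((n.factorial : ℝ) * ((1 + (n : ℝ) / (s : ℝ)) ^ n * V + C / (s : ℝ))) *
        (s : ℝ) ^ n = (n.factorial : ℝ) * (((s : ℝ) + n) ^ n * V + C * (s : ℝ) ^ (n - 1)) := by
      have h3 : (1 + (n : ℝ) / (s : ℝ)) ^ n * (s : ℝ) ^ n = ((s : ℝ) + n) ^ n := by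
        rw [← mul_pow]
        congr 1
        field_simp
      have h4 : C / (s : ℝ) * (s : ℝ) ^ n = C * (s : ℝ) ^ (n - 1) := by
        obtain ⟨m, rfl⟩ : ∃ m, n = m + 1 := ⟨n - 1, by omega⟩
        rw [Nat.add_sub_cancel, pow_succ]
        field_simp
      rw [← h3, ← h4]
      ring
    show (n.factorial : ℝ) *
      (Module.finrank k (MvPolynomial (Fin n) k ⧸ I ^ s) : ℝ) ≤ _
    rw [h2]
    exact mul_le_mul_of_nonneg_left h1 (by positivity)

end LP
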