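import Pool.Agent.Lib.MP_9e8926_ag_LP.Reg
import Pool.Agent.Lib.MP_9e8926_ag_LP.NewtC

set_option autoImplicit false

noncomputable section

namespace LP

open MvPolynomial MeasureTheory Filter

variable {n : ℕ} {k : Type*} [Field k]

/-- The rescaled Newton polyhedra of the slices. -/
private def RegS_U (I : Ideal (MvPolynomial (Fin (n + 1)) k)) (a b N : ℕ) : Set (Fin n → ℝ) :=
  {w | ((N * b : ℕ) : ℝ) • w ∈ Up (L (D (I ^ (N * b)) (N * a)))}

private theorem RegS_convex (I : Ideal (MvPolynomial (Fin (n + 1)) k)) (a b N : ℕ) :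
    Convex ℝ (RegS_U I a b N) :=
  (Up_convex (L (D (I ^ (N * b)) (N * a)))).smul_preimage ((N * b : ℕ) : ℝ)

private theorem RegS_mul (I : Ideal (MvPolynomial (Fin (n + 1)) k)) (a b N s : ℕ)
    {w : Fin n → ℝ} (hw : w ∈ RegS_U I a b N) : w ∈ RegS_U I a b (N * s) := by
  obtain ⟨y, hy, hyw⟩ := hw
  refine ⟨(s : ℝ) • y, ?_, ?_⟩
  · have h1 : convexHull ℝ (rv '' L (D (I ^ (N * b)) (N * a))) ⊆
        (fun z : Fin n → ℝ => (s : ℝ) • z) ⁻¹'
          convexHull ℝ (rv '' L (D (I ^ (N * s * b)) (N * s * a))) := by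
      refine convexHull_min ?_ ((convex_convexHull ℝ _).smul_preimage _)
      rintro _ ⟨μ, hμ, rfl⟩
      refine subset_convexHull ℝ _ ⟨s • μ, ?_, ?_⟩
      · have h2 := L_mono (D_pow (I ^ (N * b)) (N * a) s) (L_pow hμ s)
        rw [← pow_mul] at h2
        rw [show N * s * b = N * b * s by ring, show N * s * a = s * (N * a) by ring]
        exact h2
      · funext i
        simp [rv]
    exact h1 hy
  · have h2 : ((N * s * b : ℕ) : ℝ) • w = (s : ℝ) • (((N * b : ℕ) : ℝ) • w) := by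
      rw [smul_smul]
      congr 1
      push_cast
      ring
    rw [h2]
    exact smul_le_smul_of_nonneg_left hyw (Nat.cast_nonneg s)

private theorem RegS_cover (I : Ideal (MvPolynomial (Fin (n + 1)) k)) (a b : ℕ) (hb : 1 ≤ b)
    (x r : ℝ) (hx0 : 0 < x) (hr : 1 < r) (hra : r * x ≤ a / b) (w : Fin n → ℝ)
    (hw : ∀ i, 0 < w i) (hG : (Fin.cons x (r⁻¹ • w) : Fin (n + 1) → ℝ) ∈ Gam I) :
    ∃ M : ℕ, 1 ≤ M ∧ w ∈ RegS_U I a b M := by
  have hr0 : 0 < r := by linarith
  have hb0 : (0 : ℝ) < b := by exact_mod_cast hb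
  have hpos : ∀ i, 0 < (Fin.cons x (r⁻¹ • w) : Fin (n + 1) → ℝ) i := by
    intro i
    refine Fin.cases ?_ (fun i => ?_) i
    · exact hx0
    · rw [Fin.cons_succ, Pi.smul_apply, smul_eq_mul]
      exact mul_pos (inv_pos.2 hr0) (hw i)
  obtain ⟨M, hM, μ, hμ, hμw⟩ := dil_pos I _ hG hpos r hr
  refine ⟨M, hM, ?_⟩
  have h0 := hμw 0
  rw [Pi.smul_apply, Fin.cons_zero, smul_eq_mul] at h0
  have hi : ∀ i : Fin n, (μ i.succ : ℝ) ≤ M * w i := by
    intro i
    have h1 := hμw i.succ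
    rw [Pi.smul_apply, Fin.cons_succ, Pi.smul_apply, smul_eq_mul, smul_eq_mul, ← mul_assoc r,
      mul_inv_cancel₀ hr0.ne', one_mul] at h1
    exact h1
  have h2 : b • μ ∈ L (I ^ (M * b)) := by
    rw [pow_mul]
    exact L_pow hμ b
  have h3 : b • μ ≤ Finsupp.cons (M * a) (b • Finsupp.tail μ) := by
    intro i
    refine Fin.cases ?_ (fun i => ?_) i
    · rw [Finsupp.cons_zero, Finsupp.smul_apply, smul_eq_mul]
      have h4 : ((b * μ 0 : ℕ) : ℝ) ≤ ((M * a : ℕ) : ℝ) := by
        push_cast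
        have h5 : (M : ℝ) * (r * x) ≤ M * (a / b) :=
          mul_le_mul_of_nonneg_left hra (Nat.cast_nonneg M)
        calc (b : ℝ) * μ 0 ≤ b * (M * (a / b)) :=
              mul_le_mul_of_nonneg_left (h0.trans h5) hb0.le
          _ = M * a := by
            field_simp
      exact_mod_cast h4
    · rw [Finsupp.cons_succ, Finsupp.smul_apply, Finsupp.smul_apply, Finsupp.tail_apply]
  have h6 := (L_cons (I ^ (M * b)) (M * a) (b • Finsupp.tail μ)).1 (L_up h2 h3)
  refine ⟨rv (b • Finsupp.tail μ), subset_convexHull ℝ _ ⟨_, h6, rfl⟩, ?_⟩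
  intro i
  show ((b • Finsupp.tail μ) i : ℝ) ≤ _
  rw [Finsupp.smul_apply, Finsupp.tail_apply, Pi.smul_apply, smul_eq_mul, smul_eq_mul]
  push_cast
  have h7 := mul_le_mul_of_nonneg_left (hi i) hb0.le
  linarith

private theorem RegS_vol (I : Ideal (MvPolynomial (Fin (n + 1)) k)) (a b N : ℕ) (hb : 1 ≤ b)
    (hN : 1 ≤ N) : {w : Fin n → ℝ | 0 ≤ w ∧ w ∉ RegS_U I a b N} =
      (fun w : Fin n → ℝ => ((N * b : ℕ) : ℝ) • w) ⁻¹'
        {w : Fin n → ℝ | 0 ≤ w ∧ w ∉ Up (L (D (I ^ (N * b)) (N * a)))} := by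
  have hc : (0 : ℝ) < ((N * b : ℕ) : ℝ) := by
    have : 0 < N * b := Nat.mul_pos hN hb
    exact_mod_cast this
  ext w
  refine and_congr ?_ Iff.rfl
  show 0 ≤ w ↔ 0 ≤ ((N * b : ℕ) : ℝ) • w
  constructor
  · intro h
    exact smul_nonneg hc.le h
  · intro h i
    have h1 := h i
    rw [Pi.smul_apply, smul_eq_mul, Pi.zero_apply] at h1
    exact nonneg_of_mul_nonneg_right h1 hc

/-- The slices of the limit region have large covolume. -/
theorem gam_slice (hn : 1 ≤ n) (I : Ideal (MvPolynomial (Fin (n + 1)) k)) (hI : IsPrim I)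
    (τ V : ℝ) (hV : 0 ≤ V)
    (h : ∀ N : ℕ, 1 ≤ N → ∀ ν : ℕ, (ν : ℝ) < τ * N →
      IsPrim (D (I ^ N) ν) ∧ V * (N : ℝ) ^ n ≤ emult (D (I ^ N) ν))
    (x : ℝ) (hx0 : 0 < x) (hx : x < τ) :
    V / n.factorial ≤
      (volume {w : Fin n → ℝ | 0 ≤ w ∧ (Fin.cons x w : Fin (n + 1) → ℝ) ∉ Gam I}).toReal := by
  set S : Set (Fin n → ℝ) := {w | 0 ≤ w ∧ (Fin.cons x w : Fin (n + 1) → ℝ) ∉ Gam I} with hS
  have hfac : (0 : ℝ) < n.factorial := by exact_mod_cast n.factorial_pos
  -- the slice has finite measure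
  have hSfin : volume S ≠ ⊤ := by
    obtain ⟨R, hR, hlarge⟩ := Gam_large I hI
    have h1 : S ⊆ Set.Icc (0 : Fin n → ℝ) (fun _ => R) := by
      rintro w ⟨hw, hw2⟩
      refine ⟨hw, fun i => ?_⟩
      by_contra hcon
      push Not at hcon
      refine hw2 (hlarge _ ?_ ⟨i.succ, ?_⟩)
      · intro j
        refine Fin.cases ?_ (fun j => ?_) j
        · exact hx0.le
        · exact hw j
      · rw [Fin.cons_succ]
        exact hcon.le
    exact (measure_mono h1).trans_lt (isCompact_Icc.measure_lt_top) |>.ne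
  -- the estimate with a factor
  have key : ∀ r : ℝ, 1 < r → r * x < τ → V / n.factorial ≤ r ^ n * (volume S).toReal := by
    intro r hr hrx
    have hr0 : 0 < r := by linarith
    obtain ⟨q, hq1, hq2⟩ := exists_rat_btwn hrx
    have hq0 : 0 < q := by
      have : (0 : ℝ) < q := lt_trans (mul_pos hr0 hx0) hq1
      exact_mod_cast this
    obtain ⟨a, b, hb, hab⟩ : ∃ a b : ℕ, 1 ≤ b ∧ (q : ℝ) = a / b := by
      refine ⟨q.num.toNat, q.den, q.den_pos, ?_⟩
      have h1 : ((q.num.toNat : ℤ) : ℝ) = (q.num : ℝ) := by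
        rw [Int.toNat_of_nonneg (Rat.num_nonneg.2 hq0.le)]
      have h2 : ((q.num.toNat : ℕ) : ℝ) = (q.num : ℝ) := by
        rw [← h1]
        norm_cast
      rw [h2]
      exact_mod_cast (Rat.num_div_den q).symm
    have hb0 : (0 : ℝ) < b := by exact_mod_cast hb
    set E : ℕ → Set (Fin n → ℝ) := fun N => {w | 0 ≤ w ∧ w ∉ RegS_U I a b N} with hE
    have hslice : ∀ N : ℕ, 1 ≤ N → IsPrim (D (I ^ (N * b)) (N * a)) ∧
        V * ((N * b : ℕ) : ℝ) ^ n ≤ emult (D (I ^ (N * b)) (N * a)) := by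
      intro N hN
      have hN0 : (0 : ℝ) < N := by exact_mod_cast hN
      refine h (N * b) (Nat.mul_pos hN hb) (N * a) ?_
      push_cast
      rw [hab, div_lt_iff₀ hb0] at hq2
      have := mul_lt_mul_of_pos_left hq2 hN0
      linarith
    have hvolE : ∀ N : ℕ, 1 ≤ N → volume (E N) =
        ENNReal.ofReal ((((N * b : ℕ) : ℝ) ^ n)⁻¹) *
          volume {w : Fin n → ℝ | 0 ≤ w ∧ w ∉ Up (L (D (I ^ (N * b)) (N * a)))} := by
      intro N hN
      have hc : (0 : ℝ) < ((N * b : ℕ) : ℝ) := by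
        have : 0 < N * b := Nat.mul_pos hN hb
        exact_mod_cast this
      rw [hE]
      simp only
      rw [RegS_vol I a b N hb hN, Measure.addHaar_preimage_smul _ hc.ne', Module.finrank_fin_fun,
        abs_of_nonneg (by positivity)]
    have hEfin : ∀ N : ℕ, 1 ≤ N → volume (E N) ≠ ⊤ := by
      intro N hN
      rw [hvolE N hN]
      exact ENNReal.mul_ne_top ENNReal.ofReal_ne_top (covol_lt_top _ (hslice N hN).1).ne
    have hElow : ∀ N : ℕ, 1 ≤ N → V / n.factorial ≤ (volume (E N)).toReal := by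
      intro N hN
      have hc : (0 : ℝ) < ((N * b : ℕ) : ℝ) := by
        have : 0 < N * b := Nat.mul_pos hN hb
        exact_mod_cast this
      rw [hvolE N hN, ENNReal.toReal_mul, ENNReal.toReal_ofReal (by positivity)]
      have h1 := (hslice N hN).2.trans (emult_le_covol hn _ (hslice N hN).1)
      rw [div_le_iff₀ hfac]
      have h2 : (0 : ℝ) < ((N * b : ℕ) : ℝ) ^ n := by positivity
      rw [inv_mul_eq_div, div_mul_eq_mul_div, le_div_iff₀ h2]
      linarith
    have hEmono : ∀ N s : ℕ, E (N * s) ⊆ E N := by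
      rintro N s w ⟨h1, h2⟩
      exact ⟨h1, fun h3 => h2 (RegS_mul I a b N s h3)⟩
    have hanti : Antitone fun j : ℕ => E j.factorial := by
      refine antitone_nat_of_succ_le fun j => ?_
      rw [Nat.factorial_succ, mul_comm]
      exact hEmono _ _
    have hmeas : ∀ j : ℕ, NullMeasurableSet (E j.factorial) volume := by
      intro j
      have h1 : E j.factorial = {w : Fin n → ℝ | 0 ≤ w} \ RegS_U I a b j.factorial := rfl
      rw [h1]
      refine NullMeasurableSet.diff ?_ ((RegS_convex I a b _).nullMeasurableSet _)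
      exact (isClosed_Ici (a := (0 : Fin n → ℝ))).measurableSet.nullMeasurableSet
    have hlim := tendsto_measure_iInter_atTop hmeas hanti ⟨0, hEfin _ (Nat.factorial_pos 0)⟩
    have hInf : volume (⋂ j : ℕ, E j.factorial) ≠ ⊤ := by
      refine ((measure_mono (Set.iInter_subset _ 0)).trans_lt ?_).ne
      exact lt_top_iff_ne_top.2 (hEfin _ (Nat.factorial_pos 0))
    have hlow : V / n.factorial ≤ (volume (⋂ j : ℕ, E j.factorial)).toReal := by
      have h1 := (ENNReal.tendsto_toReal hInf).comp hlim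
      exact ge_of_tendsto' h1 fun j => hElow _ (Nat.factorial_pos j)
    -- the intersection
    have hsub : (⋂ j : ℕ, E j.factorial) ⊆
        (fun w : Fin n → ℝ => r⁻¹ • w) ⁻¹' S ∪ ⋃ i : Fin n, {w : Fin n → ℝ | w i = 0} := by
      intro w hw
      rw [Set.mem_iInter] at hw
      have hw0 : 0 ≤ w := (hw 0).1
      by_cases hz : ∃ i, w i = 0
      · right
        exact Set.mem_iUnion.2 hz
      · left
        push Not at hz
        have hpos : ∀ i, 0 < w i := fun i => lt_of_le_of_ne (hw0 i) (Ne.symm (hz i))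
        refine ⟨smul_nonneg (inv_nonneg.2 hr0.le) hw0, fun hG => ?_⟩
        obtain ⟨M, hM, hM2⟩ := RegS_cover I a b hb x r hx0 hr (by rw [← hab]; exact hq1.le) w
          hpos hG
        obtain ⟨s, hs⟩ := Nat.dvd_factorial hM le_rfl
        have h3 := RegS_mul I a b M s hM2
        rw [← hs] at h3
        exact (hw M).2 h3
    have hnull : volume (⋃ i : Fin n, {w : Fin n → ℝ | w i = 0}) = 0 := by
      rw [measure_iUnion_null_iff]
      intro i
      rw [volume_pi]
      exact Measure.pi_hyperplane _ i 0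
    have h5 : volume (⋂ j : ℕ, E j.factorial) ≤ ENNReal.ofReal (r ^ n) * volume S := by
      refine (measure_mono hsub).trans ((measure_union_le _ _).trans ?_)
      rw [hnull, add_zero, Measure.addHaar_preimage_smul _ (inv_pos.2 hr0).ne',
        Module.finrank_fin_fun, inv_pow, inv_inv, abs_of_nonneg (by positivity)]
    have h6 := ENNReal.toReal_mono (ENNReal.mul_ne_top ENNReal.ofReal_ne_top hSfin) h5
    rw [ENNReal.toReal_mul, ENNReal.toReal_ofReal (by positivity)] at h6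
    exact hlow.trans h6
  -- the limit
  have hcont : Tendsto (fun r : ℝ => r ^ n * (volume S).toReal) (nhdsWithin 1 (Set.Ioi 1))
      (nhds (1 ^ n * (volume S).toReal)) :=
    ((continuous_pow n).mul continuous_const).continuousWithinAt.tendsto
  rw [one_pow, one_mul] at hcont
  refine ge_of_tendsto hcont ?_
  have h1 : ∀ᶠ r in nhdsWithin (1 : ℝ) (Set.Ioi 1), r < τ / x :=
    mem_nhdsWithin_of_mem_nhds (Iio_mem_nhds ((one_lt_div hx0).2 hx))
  filter_upwards [h1, self_mem_nhdsWithin] with r hr1 hr2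
  exact key r hr2 ((lt_div_iff₀ hx0).1 hr1)

end LP
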