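import Pool.Agent.Lib.MP_9e8926_ag_LP.Slice
import Pool.Agent.Lib.MP_9e8926_ag_LP.SfrM
import Pool.Agent.Lib.MP_9e8926_ag_LP.RegC
import Pool.Agent.Lib.MP_9e8926_ag_LP.RegS
import Pool.Agent.Lib.MP_9e8926_ag_LP.Geo

set_option autoImplicit false

noncomputable section

namespace LP

open MvPolynomial

variable {n : ℕ} {k : Type*} [Field k] {ι : Type*} [Fintype ι] (p : ℕ) [Fact p.Prime] [CharP k p]

theorem fvol_nonneg (f : ι → MvPolynomial (Fin n) k) (c : ι → ℚ) : 0 ≤ Fvol p f c := by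
  refine Real.sInf_nonneg ?_
  rintro v ⟨I, hI, rfl⟩
  exact mul_nonneg (emult_nonneg I hI) (pow_nonneg (fpt_nonneg p f c I) _)

theorem fvol_le (f : ι → MvPolynomial (Fin n) k) (c : ι → ℚ)
    (I : Ideal (MvPolynomial (Fin n) k)) (hI : IsPrim I) :
    Fvol p f c ≤ emult I * fpt p f c I ^ n := by
  refine csInf_le ⟨0, ?_⟩ ⟨I, hI, rfl⟩
  rintro v ⟨I', hI', rfl⟩
  exact mul_nonneg (emult_nonneg I' hI') (pow_nonneg (fpt_nonneg p f c I') _)

theorem fvol_eq_zero (hn : 1 ≤ n) (f : ι → MvPolynomial (Fin n) k) (c : ι → ℚ)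
    (h : ¬ Base p f c) : Fvol p f c = 0 := by
  refine le_antisymm ?_ (fvol_nonneg p f c)
  have h1 := fvol_le p f c (m0 n k) isPrim_m0
  rwa [fpt_eq_zero_of_not_base p f c h, zero_pow (by omega), mul_zero] at h1

/-- The inequality for one ideal and one exponent beyond its threshold. -/
private theorem Low_step [PerfectField k] (hn : 1 ≤ n) (f : ι → MvPolynomial (Fin (n + 1)) k)
    (c : ι → ℚ) (hc : ∀ i, 0 ≤ c i) (b : ℚ) (hb0 : 0 ≤ b) (hb1 : b < 1)
    (hB : Base p (fun i => restr (f i)) c) (I : Ideal (MvPolynomial (Fin (n + 1)) k))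
    (hI : IsPrim I) (t : ℝ) (ht : fpt p (addF f) (addC b c) I < t) :
    (1 - b : ℝ) * (((n : ℝ) + 1) ^ (n + 1) / (n : ℝ) ^ n) * Fvol p (fun i => restr (f i)) c ≤
      emult I * t ^ (n + 1) := by
  have ht0 : 0 < t := lt_of_le_of_lt (fpt_nonneg p _ _ I) ht
  have hb1' : (b : ℝ) < 1 := by exact_mod_cast hb1
  have hn0 : (0 : ℝ) < n := by exact_mod_cast hn
  set V : ℝ := Fvol p (fun i => restr (f i)) c with hV
  have hV0 : 0 ≤ V := fvol_nonneg p _ c
  set τ : ℝ := (1 - b) / t with hτ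
  have hτ0 : 0 < τ := div_pos (by linarith) ht0
  have hsl : ∀ N : ℕ, 1 ≤ N → ∀ ν : ℕ, (ν : ℝ) < τ * N →
      IsPrim (D (I ^ N) ν) ∧ V / t ^ n * (N : ℝ) ^ n ≤ emult (D (I ^ N) ν) := by
    intro N hN ν hν
    have hN0 : (0 : ℝ) < N := by exact_mod_cast hN
    have hν' : (ν : ℝ) * t < (1 - b) * N := by
      have h1 : (ν : ℝ) * t < τ * N * t := mul_lt_mul_of_pos_right hν ht0
      have h2 : τ * N * t = (1 - b) * N := by
        rw [hτ]
        field_simp
      rwa [h2] at h1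
    obtain ⟨hA, hA2⟩ := slice p hn f c hc b hb0 hb1 hB I hI t ht N ν hN hν'
    refine ⟨hA, ?_⟩
    have h3 : V ≤ emult (D (I ^ N) ν) * (t / N) ^ n :=
      (fvol_le p (fun i => restr (f i)) c _ hA).trans
        (mul_le_mul_of_nonneg_left (pow_le_pow_left₀ (fpt_nonneg p _ _ _) hA2 n)
          (emult_nonneg _ hA))
    rw [div_pow, ← mul_div_assoc, le_div_iff₀ (by positivity)] at h3
    rw [div_mul_eq_mul_div, div_le_iff₀ (by positivity)]
    exact h3
  obtain ⟨R, hR0, hR⟩ := Gam_large I hI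
  have hkey : ∀ x : ℝ, 0 < x → x < τ →
      ((n : ℝ) + 1) * (((n : ℝ) + 1) / n) ^ n * (V / t ^ n) * x ≤ emult I := by
    intro x hx0 hx
    have h1 := gam_slice hn I hI τ (V / t ^ n) (by positivity) hsl x hx0 hx
    have h2 := geo n hn (Gam I) (Gam_closed I) (Gam_convex I)
      (fun w hw w' hle => Gam_up I w w' hw hle) R hR0 hR x hx0
    have h3 := lower_count I hI
    have hf : (0 : ℝ) < (n.factorial : ℝ) := by exact_mod_cast n.factorial_pos
    have h4 : (((n : ℝ) + 1) / n) ^ n * x * (V / t ^ n / n.factorial) ≤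
        (MeasureTheory.volume {w : Fin (n + 1) → ℝ | 0 ≤ w ∧ w ∉ Gam I}).toReal :=
      (mul_le_mul_of_nonneg_left h1 (by positivity)).trans h2
    have h5 : (((n + 1).factorial : ℕ) : ℝ) *
        ((((n : ℝ) + 1) / n) ^ n * x * (V / t ^ n / n.factorial)) ≤ emult I :=
      (mul_le_mul_of_nonneg_left h4 (by positivity)).trans h3
    have h6 : (((n + 1).factorial : ℕ) : ℝ) *
        ((((n : ℝ) + 1) / n) ^ n * x * (V / t ^ n / n.factorial)) =
        ((n : ℝ) + 1) * (((n : ℝ) + 1) / n) ^ n * (V / t ^ n) * x := by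
      rw [Nat.factorial_succ]
      push_cast
      field_simp
    rwa [h6] at h5
  have hlim : ((n : ℝ) + 1) * (((n : ℝ) + 1) / n) ^ n * (V / t ^ n) * τ ≤ emult I := by
    have hc1 : Filter.Tendsto (fun x : ℝ =>
        ((n : ℝ) + 1) * (((n : ℝ) + 1) / n) ^ n * (V / t ^ n) * x)
        (nhdsWithin τ (Set.Iio τ))
        (nhds (((n : ℝ) + 1) * (((n : ℝ) + 1) / n) ^ n * (V / t ^ n) * τ)) :=
      ((continuous_const.mul continuous_id).tendsto τ).mono_left nhdsWithin_le_nhds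
    refine le_of_tendsto hc1 ?_
    filter_upwards [Ioo_mem_nhdsLT hτ0] with x hx
    exact hkey x hx.1 hx.2
  have h7 := mul_le_mul_of_nonneg_right hlim (show (0 : ℝ) ≤ t ^ (n + 1) by positivity)
  have h8 : ((n : ℝ) + 1) * (((n : ℝ) + 1) / n) ^ n * (V / t ^ n) * τ * t ^ (n + 1) =
      (1 - b : ℝ) * (((n : ℝ) + 1) ^ (n + 1) / (n : ℝ) ^ n) * V := by
    rw [hτ, div_pow, pow_succ ((n : ℝ) + 1) n, pow_succ t n]
    field_simp
  rwa [h8] at h7

/-- **Restriction inequality** for Frobenius volumes. -/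
theorem fvol_restr [PerfectField k] (hn : 1 ≤ n) (f : ι → MvPolynomial (Fin (n + 1)) k)
    (c : ι → ℚ) (hc : ∀ i, 0 ≤ c i) (b : ℚ) (hb0 : 0 ≤ b) (hb1 : b < 1) :
    (1 - b : ℝ) * (((n : ℝ) + 1) ^ (n + 1) / (n : ℝ) ^ n) * Fvol p (fun i => restr (f i)) c ≤
      Fvol p (addF f) (addC b c) := by
  by_cases hB : Base p (fun i => restr (f i)) c
  · refine le_csInf ⟨_, m0 (n + 1) k, isPrim_m0, rfl⟩ ?_
    rintro v ⟨I, hI, rfl⟩
    set φ : ℝ := fpt p (addF f) (addC b c) I with hφ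
    have hc1 : Filter.Tendsto (fun t : ℝ => emult I * t ^ (n + 1))
        (nhdsWithin φ (Set.Ioi φ)) (nhds (emult I * φ ^ (n + 1))) :=
      ((continuous_const.mul (continuous_pow (n + 1))).tendsto φ).mono_left nhdsWithin_le_nhds
    refine ge_of_tendsto hc1 ?_
    filter_upwards [self_mem_nhdsWithin] with t ht
    exact Low_step p hn f c hc b hb0 hb1 hB I hI t ht
  · rw [fvol_eq_zero p hn _ _ hB, mul_zero]
    exact fvol_nonneg p _ _

end LP
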