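import Pool.Agent.Lib.MP_9e8926_ag_LP.Defs

set_option autoImplicit false

noncomputable section

namespace LP

open MvPolynomial

variable {n : ℕ} {k : Type*} [Field k]

theorem mem_m0 {f : MvPolynomial (Fin n) k} : f ∈ m0 n k ↔ constantCoeff f = 0 := by
  exact RingHom.mem_ker

theorem mem_J {q : ℕ} {f : MvPolynomial (Fin n) k} :
    f ∈ J n k q ↔ ∀ m ∈ f.support, ∃ i, q ≤ m i := by
  have h := @mem_ideal_span_monomial_image (Fin n) k _ f (Set.range fun i => Finsupp.single i q)
  have e : ((fun s => monomial s (1 : k)) '' (Set.range fun i : Fin n => Finsupp.single i q)) =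
      Set.range fun i : Fin n => (X i : MvPolynomial (Fin n) k) ^ q := by
    rw [← Set.range_comp]
    congr 1
    funext i
    simp only [Function.comp_apply]
    rw [X_pow_eq_monomial]
  rw [e] at h
  unfold J
  rw [h]
  refine forall₂_congr fun m _ => ?_
  simp [Finsupp.single_le_iff]

private theorem m0_eq : m0 n k = idealOfVars (Fin n) k := by
  ext f
  have h := mem_pow_idealOfVars_iff (σ := Fin n) (R := k) 1 f
  rw [pow_one] at h
  rw [h, mem_m0]
  constructor
  · intro h0 x hx
    rw [Nat.one_le_iff_ne_zero]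
    intro hd
    rw [Finsupp.degree_eq_zero_iff] at hd
    subst hd
    rw [mem_support_iff] at hx
    exact hx (by rw [← constantCoeff_eq]; exact h0)
  · intro h0
    rw [constantCoeff_eq]
    by_contra hc
    have := h0 0 (mem_support_iff.2 hc)
    simp at this

theorem mem_m0_pow {N : ℕ} {f : MvPolynomial (Fin n) k} :
    f ∈ m0 n k ^ N ↔ ∀ m ∈ f.support, N ≤ ∑ i, m i := by
  rw [m0_eq, mem_pow_idealOfVars_iff]
  refine forall₂_congr fun m _ => ?_
  rw [Finsupp.degree_eq_sum]

theorem m0_pow_le_J (hn : 1 ≤ n) (q : ℕ) : m0 n k ^ (n * q) ≤ J n k q := by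
  intro f hf
  rw [mem_m0_pow] at hf
  rw [mem_J]
  intro m hm
  by_contra hc
  push Not at hc
  have h1 := hf m hm
  have hn' : (Finset.univ : Finset (Fin n)).Nonempty := ⟨⟨0, hn⟩, Finset.mem_univ _⟩
  have h2 : ∑ i : Fin n, m i < ∑ _i : Fin n, q := Finset.sum_lt_sum_of_nonempty hn' fun i _ => hc i
  rw [Finset.sum_const, Finset.card_univ, Fintype.card_fin, smul_eq_mul] at h2
  omega

theorem mem_J_of_mul {q : ℕ} {z v : MvPolynomial (Fin n) k} (hv : constantCoeff v ≠ 0)
    (h : z * v ∈ J n k q) : z ∈ J n k q := by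
  classical
  rw [mem_J] at h ⊢
  by_contra hc
  push Not at hc
  obtain ⟨m1, hm1, hq0⟩ := hc
  obtain ⟨m, hm, hmin⟩ := Finset.exists_min_image
    (z.support.filter (fun m => ∀ i, m i < q)) (fun m => ∑ i, m i)
    ⟨m1, Finset.mem_filter.2 ⟨hm1, hq0⟩⟩
  rw [Finset.mem_filter] at hm
  obtain ⟨hmz, hm0⟩ := hm
  have h1 : coeff m (z * v) = coeff m z * coeff 0 v := by
    rw [coeff_mul]
    rw [Finset.sum_eq_single (m, 0)]
    · rintro ⟨a, b⟩ hab hne
      rw [Finset.HasAntidiagonal.mem_antidiagonal] at hab
      simp only at hab ⊢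
      have hna : a ≠ m := by
        intro e
        subst e
        apply hne
        have : b = 0 := by
          simpa using hab
        rw [this]
      have hz : coeff a z = 0 := by
        by_contra hz
        have e0 : ∀ i, a i + b i = m i := fun i => by rw [← hab]; rfl
        have h2 := hmin a (Finset.mem_filter.2 ⟨mem_support_iff.2 hz, fun i => by
          have := e0 i
          have := hm0 i
          omega⟩)
        apply hna
        have h3 : ∑ i, m i = ∑ i, a i + ∑ i, b i := by
          rw [← Finset.sum_add_distrib]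
          exact Finset.sum_congr rfl fun i _ => (e0 i).symm
        have h4 : ∑ i, b i = 0 := by
          omega
        ext i
        have h5 := (Finset.sum_eq_zero_iff.1 h4) i (Finset.mem_univ i)
        have := e0 i
        omega
      rw [hz, zero_mul]
    · intro hh
      exfalso
      apply hh
      rw [Finset.HasAntidiagonal.mem_antidiagonal]
      exact add_zero m
  have h2 : m ∈ (z * v).support := by
    rw [mem_support_iff, h1]
    exact mul_ne_zero (mem_support_iff.1 hmz) (by rw [← constantCoeff_eq]; exact hv)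
  obtain ⟨i, hi⟩ := h m h2
  have := hm0 i
  omega

private theorem finite_of_le {I I' : Ideal (MvPolynomial (Fin n) k)} (h : I ≤ I')
    (hI : Module.Finite k (MvPolynomial (Fin n) k ⧸ I)) :
    Module.Finite k (MvPolynomial (Fin n) k ⧸ I') :=
  Module.Finite.of_surjective (Ideal.Quotient.factorₐ k h).toLinearMap
    (Ideal.Quotient.factor_surjective h)

private theorem finite_m0_pow (N : ℕ) :
    Module.Finite k (MvPolynomial (Fin n) k ⧸ m0 n k ^ N) := by
  classical
  let F : (Fin n → Fin N) → MvPolynomial (Fin n) k ⧸ m0 n k ^ N := fun a =>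
    Ideal.Quotient.mkₐ k (m0 n k ^ N)
      (monomial (Finsupp.equivFunOnFinite.symm fun i => (a i : ℕ)) 1)
  have hF : Submodule.span k (Set.range F) = ⊤ := by
    rw [eq_top_iff]
    rintro x -
    obtain ⟨f, rfl⟩ := Ideal.Quotient.mkₐ_surjective k (m0 n k ^ N) x
    rw [f.as_sum, map_sum]
    refine Submodule.sum_mem _ fun m _ => ?_
    have e : (monomial m (coeff m f) : MvPolynomial (Fin n) k) =
        coeff m f • monomial m (1 : k) := by
      rw [smul_monomial, smul_eq_mul, mul_one]
    rw [e, map_smul]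
    refine Submodule.smul_mem _ _ ?_
    by_cases hm : N ≤ ∑ i, m i
    · have h1 : Ideal.Quotient.mkₐ k (m0 n k ^ N) (monomial m (1 : k)) = 0 := by
        rw [Ideal.Quotient.mkₐ_eq_mk]
        refine Ideal.Quotient.eq_zero_iff_mem.2 ?_
        rw [mem_m0_pow]
        intro m' hm'
        rw [mem_support_iff, coeff_monomial] at hm'
        have : m = m' := by
          by_contra hne
          exact hm' (if_neg hne)
        rw [← this]
        exact hm
      rw [h1]
      exact Submodule.zero_mem _
    · have h2 : ∀ i, m i < N := fun i => by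
        have := Finset.single_le_sum (f := fun i => m i) (fun j _ => Nat.zero_le _)
          (Finset.mem_univ i)
        omega
      apply Submodule.subset_span
      refine ⟨fun i => ⟨m i, h2 i⟩, ?_⟩
      show Ideal.Quotient.mkₐ k (m0 n k ^ N) (monomial _ 1) = _
      congr 2
      congr 1
      ext i
      rfl
  exact ⟨⟨Finset.univ.image F, by rw [Finset.coe_image, Finset.coe_univ, Set.image_univ]; exact hF⟩⟩

theorem finite_of_pow_le {I : Ideal (MvPolynomial (Fin n) k)} {N : ℕ} (h : m0 n k ^ N ≤ I) :
    Module.Finite k (MvPolynomial (Fin n) k ⧸ I) :=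
  finite_of_le h (finite_m0_pow N)

theorem finrank_anti {I I' : Ideal (MvPolynomial (Fin n) k)} (h : I ≤ I')
    (hI : Module.Finite k (MvPolynomial (Fin n) k ⧸ I)) :
    Module.finrank k (MvPolynomial (Fin n) k ⧸ I') ≤
      Module.finrank k (MvPolynomial (Fin n) k ⧸ I) := by
  have hs : Function.Surjective (Ideal.Quotient.factorₐ k h).toLinearMap :=
    Ideal.Quotient.factor_surjective h
  have h1 := LinearMap.finrank_range_le (Ideal.Quotient.factorₐ k h).toLinearMap
  rw [LinearMap.range_eq_top.2 hs, finrank_top] at h1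
  exact h1

theorem isPrim_pow {I : Ideal (MvPolynomial (Fin n) k)} (h : IsPrim I) {N : ℕ} (hN : 1 ≤ N) :
    IsPrim (I ^ N) := by
  obtain ⟨h1, M, hM⟩ := h
  refine ⟨(Ideal.pow_le_self (by omega)).trans h1, M * N, ?_⟩
  rw [pow_mul]
  exact Ideal.pow_right_mono hM N

theorem isPrim_m0 : IsPrim (m0 n k) := by
  exact ⟨le_rfl, 1, by rw [pow_one]⟩

end LP
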