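import Pool.Agent.Lib.MP_9e8926_ag_LP.Bas

set_option autoImplicit false

noncomputable section

namespace LP

open MvPolynomial

variable {n : ℕ} {k : Type*} [Field k]

theorem coeff_cf (ν : ℕ) (f : MvPolynomial (Fin (n + 1)) k) (m : Fin n →₀ ℕ) :
    coeff m (cf ν f) = coeff (Finsupp.cons ν m) f :=
  finSuccEquiv_coeff_coeff m f ν

private theorem fse_C (a : k) :
    finSuccEquiv k n (C a) = Polynomial.C (C a) := by
  have h := AlgEquiv.commutes (finSuccEquiv k n) a
  rw [← MvPolynomial.algebraMap_eq, h]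
  rfl

theorem cf_zero_eq (f : MvPolynomial (Fin (n + 1)) k) : cf 0 f = restr f := by
  show (finSuccEquiv k n f).coeff 0 = restr f
  induction f using MvPolynomial.induction_on with
  | C a =>
    rw [fse_C, Polynomial.coeff_C_zero, restr, aeval_C]
    rfl
  | add p q hp hq => rw [map_add, Polynomial.coeff_add, hp, hq, map_add]
  | mul_X p i hp =>
    rw [map_mul, Polynomial.mul_coeff_zero, hp, map_mul]
    congr 1
    refine Fin.cases ?_ (fun j => ?_) i
    · rw [finSuccEquiv_X_zero, Polynomial.coeff_X_zero, restr, aeval_X, Fin.cons_zero]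
    · rw [finSuccEquiv_X_succ, Polynomial.coeff_C_zero, restr, aeval_X, Fin.cons_succ]

private theorem fse_emb (f : MvPolynomial (Fin n) k) :
    finSuccEquiv k n (emb f) = Polynomial.C f := by
  induction f using MvPolynomial.induction_on with
  | C a => rw [emb, rename_C, fse_C]
  | add p q hp hq => rw [map_add, map_add, hp, hq, map_add]
  | mul_X p i hp =>
    rw [map_mul, map_mul, hp, map_mul]
    congr 1
    rw [emb, rename_X, finSuccEquiv_X_succ]

theorem cf_emb (ν : ℕ) (f : MvPolynomial (Fin n) k) : cf ν (emb f) = if ν = 0 then f else 0 := by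
  show (finSuccEquiv k n (emb f)).coeff ν = _
  rw [fse_emb, Polynomial.coeff_C]

theorem cf_X_pow_mul (s ν : ℕ) (f : MvPolynomial (Fin (n + 1)) k) :
    cf ν (X 0 ^ s * f) = if s ≤ ν then cf (ν - s) f else 0 := by
  show (finSuccEquiv k n (X 0 ^ s * f)).coeff ν =
    if s ≤ ν then (finSuccEquiv k n f).coeff (ν - s) else 0
  rw [map_mul, map_pow, finSuccEquiv_X_zero, Polynomial.coeff_X_pow_mul']

theorem cf_mul_low {f g : MvPolynomial (Fin (n + 1)) k} {ν μ : ℕ} (hf : ∀ j < ν, cf j f = 0)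
    (hg : ∀ j < μ, cf j g = 0) :
    (∀ j < ν + μ, cf j (f * g) = 0) ∧ cf (ν + μ) (f * g) = cf ν f * cf μ g := by
  have hf' : ∀ j < ν, (finSuccEquiv k n f).coeff j = 0 := hf
  have hg' : ∀ j < μ, (finSuccEquiv k n g).coeff j = 0 := hg
  constructor
  · intro j hj
    show (finSuccEquiv k n (f * g)).coeff j = 0
    rw [map_mul, Polynomial.coeff_mul]
    refine Finset.sum_eq_zero fun x hx => ?_
    rw [Finset.HasAntidiagonal.mem_antidiagonal] at hx
    by_cases h1 : x.1 < ν
    · rw [hf' _ h1, zero_mul]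
    · rw [hg' _ (by omega), mul_zero]
  · show (finSuccEquiv k n (f * g)).coeff (ν + μ) =
      (finSuccEquiv k n f).coeff ν * (finSuccEquiv k n g).coeff μ
    rw [map_mul, Polynomial.coeff_mul]
    refine Finset.sum_eq_single (ν, μ) (fun x hx hne => ?_) (fun h => ?_)
    · rw [Finset.HasAntidiagonal.mem_antidiagonal] at hx
      by_cases h1 : x.1 < ν
      · rw [hf' _ h1, zero_mul]
      · rw [hg' _ (by
          by_contra h2
          apply hne
          ext <;> simp only <;> omega), mul_zero]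
    · exact absurd (Finset.HasAntidiagonal.mem_antidiagonal.2
        (show ((ν, μ) : ℕ × ℕ).1 + ((ν, μ) : ℕ × ℕ).2 = ν + μ from rfl)) h

private theorem exists_cons (m : Fin (n + 1) →₀ ℕ) :
    m = Finsupp.cons (m 0) m.tail := (Finsupp.cons_tail m).symm

theorem mem_J_cf {q : ℕ} {f : MvPolynomial (Fin (n + 1)) k} :
    f ∈ J (n + 1) k q ↔ ∀ ν < q, cf ν f ∈ J n k q := by
  rw [mem_J]
  constructor
  · intro h ν hν
    rw [mem_J]
    intro m hm
    rw [mem_support_iff, coeff_cf] at hm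
    obtain ⟨i, hi⟩ := h _ (mem_support_iff.2 hm)
    revert hi
    refine Fin.cases (fun hi => ?_) (fun j hi => ?_) i
    · rw [Finsupp.cons_zero] at hi
      omega
    · rw [Finsupp.cons_succ] at hi
      exact ⟨j, hi⟩
  · intro h m hm
    by_cases h0 : q ≤ m 0
    · exact ⟨0, h0⟩
    · have h1 := mem_J.1 (h (m 0) (by omega)) m.tail (by
        rw [mem_support_iff, coeff_cf, Finsupp.cons_tail]
        exact mem_support_iff.1 hm)
      obtain ⟨i, hi⟩ := h1
      exact ⟨i.succ, hi⟩

theorem mem_m0_pow_cf {N : ℕ} {f : MvPolynomial (Fin (n + 1)) k} :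
    f ∈ m0 (n + 1) k ^ N ↔ ∀ ν : ℕ, cf ν f ∈ m0 n k ^ (N - ν) := by
  rw [mem_m0_pow]
  constructor
  · intro h ν
    rw [mem_m0_pow]
    intro m hm
    rw [mem_support_iff, coeff_cf] at hm
    have h1 := h _ (mem_support_iff.2 hm)
    rw [Fin.sum_univ_succ, Finsupp.cons_zero] at h1
    simp only [Finsupp.cons_succ] at h1
    omega
  · intro h m hm
    have h1 := mem_m0_pow.1 (h (m 0)) m.tail (by
      rw [mem_support_iff, coeff_cf, Finsupp.cons_tail]
      exact mem_support_iff.1 hm)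
    have h2 : ∑ i, m.tail i = ∑ i : Fin n, m i.succ := rfl
    rw [h2] at h1
    rw [Fin.sum_univ_succ]
    omega

theorem cf_Fq {ι : Type*} [Fintype ι] (f : ι → MvPolynomial (Fin (n + 1)) k) (c : ι → ℚ) (q : ℕ) :
    cf 0 (Fq f c q) = Fq (fun i => restr (f i)) c q := by
  rw [cf_zero_eq]
  unfold Fq
  rw [map_prod]
  exact Finset.prod_congr rfl fun i _ => map_pow _ _ _

theorem Fq_addF {ι : Type*} [Fintype ι] (f : ι → MvPolynomial (Fin (n + 1)) k) (b : ℚ)
    (c : ι → ℚ) (q : ℕ) :
    Fq (addF f) (addC b c) q = X 0 ^ ⌈(b : ℝ) * ((q : ℝ) - 1)⌉₊ * Fq f c q := by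
  unfold Fq
  rw [Fintype.prod_option]
  rfl

theorem Fq_emb {ι : Type*} [Fintype ι] (f : ι → MvPolynomial (Fin n) k) (c : ι → ℚ) (q : ℕ) :
    Fq (fun i => (emb (f i) : MvPolynomial (Fin (n + 1)) k)) c q = emb (Fq f c q) := by
  unfold Fq
  rw [map_prod]
  exact Finset.prod_congr rfl fun i _ => (map_pow _ _ _).symm

end LP
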