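import Pool.Agent.Lib.MP_9e8926_ag_LP.SfrN
import Pool.Agent.Lib.MP_9e8926_ag_LP.LowC

set_option autoImplicit false

noncomputable section

namespace LP

open MvPolynomial

variable {n : ℕ} {k : Type*} [Field k] {ι : Type*} [Fintype ι] (p : ℕ) [Fact p.Prime] [CharP k p]
  [PerfectField k]

/-- a nonzero polynomial has a nonzero coefficient polynomial -/
private theorem exists_cf_ne {n : ℕ} {k : Type*} [Field k] {d : MvPolynomial (Fin (n + 1)) k}
    (hd : d ≠ 0) : ∃ ν : ℕ, cf ν d ≠ 0 := by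
  by_contra hcon
  push Not at hcon
  apply hd
  ext m
  have h1 := coeff_cf (m 0) d (Finsupp.tail m)
  rw [Finsupp.cons_tail, hcon] at h1
  rw [← h1]
  simp

/-- Inversion of adjunction for strong `F`-regularity. -/
theorem base_ext (hn : 1 ≤ n) (f : ι → MvPolynomial (Fin (n + 1)) k) (c : ι → ℚ)
    (hc : ∀ i, 0 ≤ c i) (b : ℚ) (hb0 : 0 ≤ b) (hb1 : b < 1)
    (h : Base p (fun i => restr (f i)) c) : Base p (addF f) (addC b c) := by
  classical
  have _ := hc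
  rw [base_iff]
  intro d hd
  have hex := exists_cf_ne hd
  set ν := Nat.find hex with hν
  have hν1 : cf ν d ≠ 0 := Nat.find_spec hex
  have hν2 : ∀ j < ν, cf j d = 0 := fun j hj => by
    have := Nat.find_min hex hj
    push Not at this
    exact this
  have hb0' : (0 : ℝ) ≤ (b : ℝ) := by exact_mod_cast hb0
  have hb1' : (0 : ℝ) < 1 - (b : ℝ) := by
    have : (b : ℝ) < 1 := by exact_mod_cast hb1
    linarith
  obtain ⟨e, he, hQ, a, -, ha⟩ := sfr_large p (fun i => restr (f i)) c hn h (cf ν d) hν1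
    (⌈(ν : ℝ) / (1 - b)⌉₊ + 2)
  refine ⟨e, he, ?_⟩
  set q := p ^ e with hq
  have h1 : cf ν d * Fq (fun i => restr (f i)) c q ∉ J n k q := fun hmem =>
    ha (Ideal.mul_mem_right a _ hmem)
  set s := ⌈(b : ℝ) * ((q : ℝ) - 1)⌉₊ with hs
  have hQ' : (ν : ℝ) / (1 - b) + 2 ≤ (q : ℝ) := by
    have h2 := Nat.le_ceil ((ν : ℝ) / (1 - b))
    have h3 : ((⌈(ν : ℝ) / (1 - b)⌉₊ + 2 : ℕ) : ℝ) ≤ (q : ℝ) := by exact_mod_cast hQ
    push_cast at h3
    linarith
  have hlt : s + ν < q := by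
    have h0 : (0 : ℝ) ≤ (ν : ℝ) / (1 - b) := by positivity
    have h2 : (s : ℝ) < (b : ℝ) * ((q : ℝ) - 1) + 1 :=
      Nat.ceil_lt_add_one (mul_nonneg hb0' (by linarith))
    have h3 : (ν : ℝ) < (1 - b) * ((q : ℝ) - 1) := by
      have h4 : (ν : ℝ) / (1 - b) < (q : ℝ) - 1 := by linarith
      rw [div_lt_iff₀ hb1'] at h4
      linarith [mul_comm (1 - (b : ℝ)) ((q : ℝ) - 1)]
    have h5 : ((s + ν : ℕ) : ℝ) < (q : ℝ) := by
      push_cast
      linarith
    exact_mod_cast h5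
  intro hmem
  rw [Fq_addF] at hmem
  have h2 : d * (X 0 ^ s * Fq f c q) = X 0 ^ s * (d * Fq f c q) := by ring
  rw [← hs, h2] at hmem
  have h3 := mem_J_cf.1 hmem (s + ν) hlt
  rw [cf_X_pow_mul, if_pos (Nat.le_add_right s ν), Nat.add_sub_cancel_left] at h3
  have h4 := (cf_mul_low (f := d) (g := Fq f c q) (ν := ν) (μ := 0) hν2
    (fun j hj => absurd hj (Nat.not_lt_zero j))).2
  rw [add_zero] at h4
  rw [h4, cf_Fq] at h3
  exact h1 h3

theorem base_desc (f : ι → MvPolynomial (Fin n) k) (c : ι → ℚ) (b : ℚ)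
    (h : Base p (addF fun i => (emb (f i) : MvPolynomial (Fin (n + 1)) k)) (addC b c)) :
    Base p f c := by
  rw [base_iff] at h ⊢
  intro d hd
  have hinj : Function.Injective (emb : MvPolynomial (Fin n) k →ₐ[k]
      MvPolynomial (Fin (n + 1)) k) := rename_injective _ (Fin.succ_injective n)
  have hd' : (emb d : MvPolynomial (Fin (n + 1)) k) ≠ 0 := fun h0 =>
    hd (hinj (h0.trans (map_zero emb).symm))
  obtain ⟨e, he, h1⟩ := h (emb d) hd'
  refine ⟨e, he, fun hmem => h1 ?_⟩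
  rw [Fq_addF, Fq_emb]
  have h2 : (emb (d * Fq f c (p ^ e)) : MvPolynomial (Fin (n + 1)) k) ∈
      J (n + 1) k (p ^ e) := by
    rw [mem_J_cf]
    intro ν _
    rw [cf_emb]
    split_ifs
    · exact hmem
    · exact Ideal.zero_mem _
  have h3 : (emb d : MvPolynomial (Fin (n + 1)) k) *
      (X 0 ^ ⌈(b : ℝ) * (((p ^ e : ℕ) : ℝ) - 1)⌉₊ * emb (Fq f c (p ^ e))) =
      X 0 ^ ⌈(b : ℝ) * (((p ^ e : ℕ) : ℝ) - 1)⌉₊ * emb (d * Fq f c (p ^ e)) := by
    rw [map_mul]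
    ring
  rw [h3]
  exact Ideal.mul_mem_left _ _ h2

end LP
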