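import Pool.Agent.Lib.MP_9e8926_ag_LP.Defs
import Pool.Agent.Lib.MP_9e8926_ag_FV.Defs

set_option autoImplicit false

noncomputable section

namespace LP

open MvPolynomial

private lemma lin_one {k : Type*} [CommRing k] (f : MvPolynomial (Fin 2) k) :
    FV.lin (1 : Matrix (Fin 2) (Fin 2) k) f = f := by
  unfold FV.lin
  have h : (fun i : Fin 2 => ∑ j, C ((1 : Matrix (Fin 2) (Fin 2) k) i j) *
      (X j : MvPolynomial (Fin 2) k)) = X := by
    funext i
    rw [Finset.sum_eq_single i]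
    · rw [Matrix.one_apply_eq, C_1, one_mul]
    · intro j _ hj
      rw [Matrix.one_apply_ne (Ne.symm hj), C_0, zero_mul]
    · intro h
      exact absurd (Finset.mem_univ i) h
  rw [h, aeval_X_left]
  rfl

private lemma mem_bot {k : Type*} [CommRing k] (f : MvPolynomial (Fin 2) k) :
    f ∈ FV.Inv (⊥ : Subgroup (Matrix.GeneralLinearGroup (Fin 2) k)) := by
  intro σ hσ
  rw [Subgroup.mem_bot] at hσ
  rw [hσ, Units.val_one]
  exact lin_one f

/-- All polynomials are invariant under the trivial group. -/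
def invE (k : Type*) [CommRing k] :
    FV.Inv (⊥ : Subgroup (Matrix.GeneralLinearGroup (Fin 2) k)) ≃ₐ[k] MvPolynomial (Fin 2) k :=
  AlgEquiv.ofBijective (FV.Inv (⊥ : Subgroup (Matrix.GeneralLinearGroup (Fin 2) k))).val (by
    exact ⟨fun a b h => Subtype.ext h, fun f => ⟨⟨f, mem_bot f⟩, rfl⟩⟩)

theorem invE_apply (k : Type*) [CommRing k]
    (x : FV.Inv (⊥ : Subgroup (Matrix.GeneralLinearGroup (Fin 2) k))) : invE k x = x.1 := rfl

private lemma mem_map_iff (k : Type*) [CommRing k]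
    (I : Ideal (FV.Inv (⊥ : Subgroup (Matrix.GeneralLinearGroup (Fin 2) k))))
    (y : MvPolynomial (Fin 2) k) : y ∈ I.map (invE k) ↔ (invE k).symm y ∈ I := by
  rw [Ideal.mem_map_iff_of_surjective (invE k) (invE k).surjective]
  constructor
  · rintro ⟨x, hx, rfl⟩
    rwa [AlgEquiv.symm_apply_apply]
  · intro h
    exact ⟨_, h, AlgEquiv.apply_symm_apply _ _⟩

private lemma mem_map_iff' (k : Type*) [CommRing k]
    (I : Ideal (FV.Inv (⊥ : Subgroup (Matrix.GeneralLinearGroup (Fin 2) k))))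
    (x : FV.Inv (⊥ : Subgroup (Matrix.GeneralLinearGroup (Fin 2) k))) :
    invE k x ∈ I.map (invE k) ↔ x ∈ I := by
  rw [mem_map_iff, AlgEquiv.symm_apply_apply]

private lemma mem_m0_iff (k : Type*) [CommRing k]
    (x : FV.Inv (⊥ : Subgroup (Matrix.GeneralLinearGroup (Fin 2) k))) :
    invE k x ∈ m0 2 k ↔ x ∈ FV.mO (⊥ : Subgroup (Matrix.GeneralLinearGroup (Fin 2) k)) :=
  Iff.rfl

theorem map_mO (k : Type*) [CommRing k] :
    (FV.mO (⊥ : Subgroup (Matrix.GeneralLinearGroup (Fin 2) k))).map (invE k) = m0 2 k := by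
  ext y
  obtain ⟨x, rfl⟩ := (invE k).surjective y
  rw [mem_map_iff', mem_m0_iff]

private lemma map_le_map_iff (k : Type*) [CommRing k]
    (I J : Ideal (FV.Inv (⊥ : Subgroup (Matrix.GeneralLinearGroup (Fin 2) k)))) :
    I.map (invE k) ≤ J.map (invE k) ↔ I ≤ J := by
  constructor
  · intro h x hx
    exact (mem_map_iff' k J x).1 (h ((mem_map_iff' k I x).2 hx))
  · exact Ideal.map_mono

theorem isPrim_map (k : Type*) [CommRing k]
    (I : Ideal (FV.Inv (⊥ : Subgroup (Matrix.GeneralLinearGroup (Fin 2) k)))) :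
    IsPrim (I.map (invE k)) ↔ FV.IsPrim ⊥ I := by
  unfold IsPrim FV.IsPrim
  rw [← map_mO, map_le_map_iff]
  refine and_congr_right fun _ => exists_congr fun N => ?_
  rw [← Ideal.map_pow, map_le_map_iff]

theorem emult_map (k : Type*) [Field k]
    (I : Ideal (FV.Inv (⊥ : Subgroup (Matrix.GeneralLinearGroup (Fin 2) k)))) :
    emult (I.map (invE k)) = FV.emult k I := by
  unfold emult FV.emult
  congr 1
  funext N
  have h1 : Module.finrank k (MvPolynomial (Fin 2) k ⧸ (I.map (invE k)) ^ N) =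
      Module.finrank k (FV.Inv (⊥ : Subgroup (Matrix.GeneralLinearGroup (Fin 2) k)) ⧸ I ^ N) := by
    have e : (I.map (invE k)) ^ N = (I ^ N).map (invE k) := (Ideal.map_pow _ _ _).symm
    have E := Ideal.quotientEquivAlg (I ^ N) ((I.map (invE k)) ^ N) (invE k) e
    exact E.toLinearEquiv.finrank_eq.symm
  rw [h1]
  norm_num [Nat.factorial]

private lemma sfr_iff {k : Type*} [Field k] (p : ℕ) {r : ℕ} (f : Fin r → MvPolynomial (Fin 2) k)
    (c : Fin r → ℚ) (I : Ideal (FV.Inv (⊥ : Subgroup (Matrix.GeneralLinearGroup (Fin 2) k))))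
    (t : ℝ) : SFR p f c (I.map (invE k)) t ↔ FV.SFR p ⊥ f c I t := by
  constructor
  · intro h d hd
    have hd' : invE k d ≠ 0 := fun h0 => hd ((map_eq_zero_iff _ (invE k).injective).1 h0)
    obtain ⟨e, he, φ, hφ, a, ha, h1⟩ := h (invE k d) hd'
    refine ⟨e, he, ((invE k).symm.toAddEquiv.toAddMonoidHom.comp φ).comp
      (invE k).toAddEquiv.toAddMonoidHom, ?_, (invE k).symm a, ?_,
      (invE k).symm (invE k d * Fq f c (p ^ e) * a), ?_, ?_⟩
    · intro x y
      show (invE k).symm (φ (invE k (x ^ p ^ e * y))) = x * (invE k).symm (φ (invE k y))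
      rw [map_mul, map_pow, hφ, map_mul, AlgEquiv.symm_apply_apply]
    · rw [← Ideal.map_pow] at ha
      exact (mem_map_iff k _ a).1 ha
    · rw [← invE_apply, AlgEquiv.apply_symm_apply]
      have e1 : (((invE k).symm a : FV.Inv (⊥ : Subgroup (Matrix.GeneralLinearGroup (Fin 2) k))) :
          MvPolynomial (Fin 2) k) = a := by
        rw [← invE_apply, AlgEquiv.apply_symm_apply]
      rw [e1]
      rfl
    · rw [← mem_m0_iff]
      show invE k ((invE k).symm (φ (invE k ((invE k).symm _)))) ∉ m0 2 k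
      rw [AlgEquiv.apply_symm_apply, AlgEquiv.apply_symm_apply]
      exact h1
  · intro h d hd
    have hd' : (invE k).symm d ≠ 0 :=
      fun h0 => hd ((map_eq_zero_iff _ (invE k).symm.injective).1 h0)
    obtain ⟨e, he, φ, hφ, a, ha, z, hz, h1⟩ := h ((invE k).symm d) hd'
    refine ⟨e, he, ((invE k).toAddEquiv.toAddMonoidHom.comp φ).comp
      (invE k).symm.toAddEquiv.toAddMonoidHom, ?_, invE k a, ?_, ?_⟩
    · intro x y
      show invE k (φ ((invE k).symm (x ^ p ^ e * y))) = x * invE k (φ ((invE k).symm y))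
      rw [map_mul, map_pow, hφ, map_mul, AlgEquiv.apply_symm_apply]
    · rw [← Ideal.map_pow]
      exact (mem_map_iff' k _ a).2 ha
    · have e1 : d * Fq f c (p ^ e) * invE k a = invE k z := by
        rw [invE_apply k z, hz]
        have e2 : (((invE k).symm d : FV.Inv (⊥ : Subgroup (Matrix.GeneralLinearGroup
            (Fin 2) k))) : MvPolynomial (Fin 2) k) = d := by
          rw [← invE_apply, AlgEquiv.apply_symm_apply]
        rw [e2]
        rfl
      rw [e1]
      show invE k (φ ((invE k).symm (invE k z))) ∉ m0 2 k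
      rw [AlgEquiv.symm_apply_apply, mem_m0_iff]
      exact h1

private lemma fpt_eq {k : Type*} [Field k] (p : ℕ) {r : ℕ} (f : Fin r → MvPolynomial (Fin 2) k)
    (c : Fin r → ℚ) (I : Ideal (FV.Inv (⊥ : Subgroup (Matrix.GeneralLinearGroup (Fin 2) k)))) :
    fpt p f c (I.map (invE k)) = FV.fpt p ⊥ f c I := by
  unfold fpt FV.fpt
  congr 1
  ext t
  exact and_congr_right fun _ => sfr_iff p f c I t

theorem fvol_eq_bot {k : Type*} [Field k] (p : ℕ) {r : ℕ} (f : Fin r → MvPolynomial (Fin 2) k)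
    (c : Fin r → ℚ) : Fvol p f c = FV.Fvol p ⊥ f c := by
  unfold Fvol FV.Fvol
  congr 1
  ext v
  constructor
  · rintro ⟨J, hJ, hv⟩
    have e : (J.comap (invE k)).map (invE k) = J :=
      Ideal.map_comap_of_surjective _ (invE k).surjective J
    refine ⟨J.comap (invE k), ?_, ?_⟩
    · rw [← isPrim_map, e]
      exact hJ
    · rw [← emult_map, ← fpt_eq, e]
      exact hv
  · rintro ⟨I, hI, hv⟩
    refine ⟨I.map (invE k), (isPrim_map k I).2 hI, ?_⟩
    rw [emult_map, fpt_eq]
    exact hv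

end LP
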