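import Pool.Agent.Lib.MP_9e8926_ag_LP.Defs

set_option autoImplicit false

noncomputable section

namespace LP

open MvPolynomial

/-- The family `z₁, …, z_m, f` in the polynomial ring in `z₁, …, z_m, x, y`. -/
def zf {k : Type*} [CommRing k] (m : ℕ) {r : ℕ} (f : Fin r → MvPolynomial (Fin (m + 2)) k) :
    Fin m ⊕ Fin r → MvPolynomial (Fin (m + 2)) k :=
  Sum.elim (fun l => X (Fin.castAdd 2 l)) f

/-- The restriction of a polynomial in `z₁, …, z_m, x, y` to the plane `z₁ = … = z_m = 0`. -/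
def restr0 {k : Type*} [CommRing k] (m : ℕ) :
    MvPolynomial (Fin (m + 2)) k →ₐ[k] MvPolynomial (Fin 2) k :=
  aeval (Fin.append 0 X)

/-- Polynomials in `x, y` as polynomials in `z₁, …, z_m, x, y`. -/
def emb0 {k : Type*} [CommRing k] (m : ℕ) :
    MvPolynomial (Fin 2) k →ₐ[k] MvPolynomial (Fin (m + 2)) k :=
  rename (Fin.natAdd m)

/-- The constant of the iterated product formula. -/
def Kc (m : ℕ) (b : Fin m → ℚ) : ℝ := ((m : ℝ) + 2) ^ (m + 2) / 4 * ∏ l, (1 - (b l : ℝ))

/-- The pair `(ℂ^n, ∑ cᵢ div fᵢ)` is klt at the origin: `∏ |fᵢ|^{-2 (1 + δ) cᵢ}` is integrable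
near the origin for some `δ > 0`. -/
def Klt {n : ℕ} {ι : Type*} [Fintype ι] (f : ι → MvPolynomial (Fin n) ℂ) (c : ι → ℚ) : Prop :=
  ∃ δ : ℝ, 0 < δ ∧ IntNear (fun z => ∏ i, ‖eval z (f i)‖ ^ (-(2 * ((1 + δ) * (c i : ℝ)))))

variable {k : Type*} [CommRing k]

theorem restr0_succ (m : ℕ) (f : MvPolynomial (Fin (m + 1 + 2)) k) :
    restr0 (m + 1) f = restr0 m (restr (n := m + 2) f) := by
  have h : (restr0 (m + 1) : MvPolynomial (Fin (m + 1 + 2)) k →ₐ[k] MvPolynomial (Fin 2) k) =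
      (restr0 m).comp (restr (n := m + 2)) := by
    apply MvPolynomial.algHom_ext
    intro i
    refine Fin.addCases (fun j => ?_) (fun j => ?_) i
    · rw [AlgHom.comp_apply]
      refine Fin.cases ?_ (fun j => ?_) j
      · have h1 : (restr (n := m + 2) (X (Fin.castAdd 2 (0 : Fin (m + 1))) :
            MvPolynomial (Fin (m + 1 + 2)) k) : MvPolynomial (Fin (m + 2)) k) = 0 := by
          have : (Fin.castAdd 2 (0 : Fin (m + 1)) : Fin (m + 2 + 1)) = 0 := rfl
          rw [restr]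
          erw [aeval_X]
          rw [this, Fin.cons_zero]
        rw [h1, map_zero, restr0, aeval_X, Fin.append_left]
        rfl
      · have h1 : (restr (n := m + 2) (X (Fin.castAdd 2 (j.succ)) :
            MvPolynomial (Fin (m + 1 + 2)) k) : MvPolynomial (Fin (m + 2)) k) =
            X (Fin.castAdd 2 j) := by
          have : (Fin.castAdd 2 (j.succ) : Fin (m + 2 + 1)) = Fin.succ (Fin.castAdd 2 j) := rfl
          rw [restr]
          erw [aeval_X]
          rw [this, Fin.cons_succ]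
        rw [h1, restr0, aeval_X, Fin.append_left, restr0, aeval_X, Fin.append_left]
        rfl
    · have h1 : (restr (n := m + 2) (X (Fin.natAdd (m + 1) j) :
            MvPolynomial (Fin (m + 1 + 2)) k) : MvPolynomial (Fin (m + 2)) k) =
            X (Fin.natAdd m j) := by
        have : (Fin.natAdd (m + 1) j : Fin (m + 2 + 1)) = Fin.succ (Fin.natAdd m j) := by
          ext
          simp
          omega
        rw [restr]
        erw [aeval_X]
        rw [this, Fin.cons_succ]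
      rw [AlgHom.comp_apply, h1, restr0, aeval_X, Fin.append_right, restr0, aeval_X,
        Fin.append_right]
  rw [h]
  rfl

theorem restr0_zero (f : MvPolynomial (Fin (0 + 2)) k) :
    restr0 0 f = rename (Fin.cast (by rfl)) f := by
  have h : (restr0 0 : MvPolynomial (Fin (0 + 2)) k →ₐ[k] MvPolynomial (Fin 2) k) =
      rename (Fin.cast (by rfl)) := by
    apply MvPolynomial.algHom_ext
    intro i
    rw [restr0, aeval_X, rename_X]
    refine Fin.addCases (fun j => j.elim0) (fun j => ?_) i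
    rw [Fin.append_right]
    congr 1
    ext
    simp
  rw [h]

theorem emb0_succ (m : ℕ) (f : MvPolynomial (Fin 2) k) :
    (emb0 (m + 1) f : MvPolynomial (Fin (m + 1 + 2)) k) = emb (n := m + 2) (emb0 m f) := by
  rw [emb0, emb0, emb, rename_rename]
  congr 2
  funext i
  ext
  simp
  omega

theorem restr0_emb0 (m : ℕ) (f : MvPolynomial (Fin 2) k) : restr0 m (emb0 m f) = f := by
  rw [restr0, emb0, aeval_rename]
  have : (Fin.append (0 : Fin m → MvPolynomial (Fin 2) k) X) ∘ Fin.natAdd m = X := by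
    funext i
    simp
  rw [this, aeval_X_left, AlgHom.id_apply]

theorem restr_zf (m : ℕ) {r : ℕ} (f : Fin r → MvPolynomial (Fin (m + 1 + 2)) k)
    (i : Fin m ⊕ Fin r) :
    restr (n := m + 2) (Sum.elim (fun l : Fin m => (X (Fin.castAdd 2 l.succ) :
      MvPolynomial (Fin (m + 1 + 2)) k)) f i) = zf m (fun j => restr (n := m + 2) (f j)) i := by
  rcases i with l | j
  · have : (Fin.castAdd 2 (l.succ) : Fin (m + 2 + 1)) = Fin.succ (Fin.castAdd 2 l) := rfl
    simp only [Sum.elim_inl, zf, restr]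
    erw [aeval_X]
    rw [this, Fin.cons_succ]
  · rfl

theorem emb_zf (m : ℕ) {r : ℕ} (f : Fin r → MvPolynomial (Fin (m + 2)) k) (i : Fin m ⊕ Fin r) :
    emb (n := m + 2) (zf m f i) = Sum.elim (fun l : Fin m => (X (Fin.castAdd 2 l.succ) :
      MvPolynomial (Fin (m + 1 + 2)) k)) (fun j => emb (n := m + 2) (f j)) i := by
  rcases i with l | j
  · simp only [Sum.elim_inl, zf, emb]
    rw [rename_X]
    rfl
  · rfl

/-- The equivalence `Option (Fin m ⊕ Fin r) ≃ Fin (m + 1) ⊕ Fin r`. -/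
def eq1 (m r : ℕ) : Option (Fin m ⊕ Fin r) ≃ Fin (m + 1) ⊕ Fin r where
  toFun o := o.elim (Sum.inl 0) (Sum.map Fin.succ id)
  invFun := Sum.elim (Fin.cons none fun l => some (Sum.inl l)) fun j => some (Sum.inr j)
  left_inv := by
    rintro (_ | l | j) <;> simp
  right_inv := by
    rintro (l | j)
    · refine Fin.cases ?_ (fun l => ?_) l <;> simp
    · simp

theorem zf_eq1 (m : ℕ) {r : ℕ} (f : Fin r → MvPolynomial (Fin (m + 1 + 2)) k)
    (o : Option (Fin m ⊕ Fin r)) :
    zf (m + 1) f (eq1 m r o) = addF (n := m + 2) (Sum.elim (fun l : Fin m =>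
      (X (Fin.castAdd 2 l.succ) : MvPolynomial (Fin (m + 1 + 2)) k)) f) o := by
  rcases o with _ | l | j
  · rfl
  · rfl
  · rfl

theorem bc_eq1 (m r : ℕ) (b : Fin (m + 1) → ℚ) (c : Fin r → ℚ) (o : Option (Fin m ⊕ Fin r)) :
    (Sum.elim b c : Fin (m + 1) ⊕ Fin r → ℚ) (eq1 m r o) =
      addC (b 0) (Sum.elim (fun l : Fin m => b l.succ) c) o := by
  rcases o with _ | l | j
  · rfl
  · rfl
  · rfl

theorem Kc_succ (m : ℕ) (b : Fin (m + 1) → ℚ) :
    Kc (m + 1) b = (1 - (b 0 : ℝ)) * ((((m + 2 : ℕ) : ℝ) + 1) ^ (m + 2 + 1) /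
      ((m + 2 : ℕ) : ℝ) ^ (m + 2)) * Kc m (fun l => b l.succ) := by
  unfold Kc
  rw [Fin.prod_univ_succ]
  have h : ((m : ℝ) + 2) ^ (m + 2) ≠ 0 := by positivity
  push_cast
  have h3 : ((m : ℝ) + 1 + 2) = (m : ℝ) + 2 + 1 := by ring
  rw [h3]
  have h4 : m + 1 + 2 = m + 2 + 1 := rfl
  rw [h4]
  field_simp

end LP
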