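import Pool.Agent.Lib.MP_9e8926_ag_LP.BrF
import Pool.Agent.Lib.MP_9e8926_ag_LP.IterD

set_option autoImplicit false

noncomputable section

namespace LP

open MvPolynomial MeasureTheory

theorem intNear_two (Φ : (Fin 2 → ℂ) → ℝ) :
    IntNear Φ ↔ FV.IntNear (fun z : ℂ × ℂ => Φ ![z.1, z.2]) := by
  have key : ∀ ρ : ℝ, 0 < ρ → (IntegrableOn Φ (Metric.ball (0 : Fin 2 → ℂ) ρ) ↔
      IntegrableOn (fun z : ℂ × ℂ => Φ ![z.1, z.2]) (Metric.ball (0 : ℂ × ℂ) ρ)) := by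
    intro ρ hρ
    have h := (volume_preserving_finTwoArrow ℂ).integrableOn_comp_preimage
      (MeasurableEquiv.finTwoArrow.measurableEmbedding) (f := fun z : ℂ × ℂ => Φ ![z.1, z.2])
      (s := Metric.ball (0 : ℂ × ℂ) ρ)
    rw [← h]
    have e1 : ((fun z : ℂ × ℂ => Φ ![z.1, z.2]) ∘
        (MeasurableEquiv.finTwoArrow : (Fin 2 → ℂ) ≃ᵐ ℂ × ℂ)) = Φ := by
      funext w
      show Φ ![w 0, w 1] = Φ w
      congr 1
      ext i
      fin_cases i <;> rfl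
    have e2 : (MeasurableEquiv.finTwoArrow : (Fin 2 → ℂ) ≃ᵐ ℂ × ℂ) ⁻¹'
        (Metric.ball (0 : ℂ × ℂ) ρ) = Metric.ball (0 : Fin 2 → ℂ) ρ := by
      ext w
      rw [Set.mem_preimage, mem_ball_zero_iff, mem_ball_zero_iff, pi_norm_lt_iff hρ,
        Fin.forall_fin_two]
      show ‖((w 0, w 1) : ℂ × ℂ)‖ < ρ ↔ _
      rw [Prod.norm_mk, max_lt_iff]
    rw [e1, e2]
  constructor
  · rintro ⟨ρ, hρ, h⟩
    exact ⟨ρ, hρ, (key ρ hρ).1 h⟩
  · rintro ⟨ρ, hρ, h⟩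
    exact ⟨ρ, hρ, (key ρ hρ).2 h⟩

theorem klt_two {r : ℕ} (f : Fin r → MvPolynomial (Fin 2) ℂ) (c : Fin r → ℚ) :
    Klt f c ↔ FV.Klt f c := by
  unfold Klt FV.Klt
  refine exists_congr fun δ => and_congr_right fun _ => ?_
  rw [intNear_two]
  rfl

private theorem BrV_map_symm
    (I : Ideal (FV.Inv (⊥ : Subgroup (Matrix.GeneralLinearGroup (Fin 2) ℂ)))) :
    (I.map (invE ℂ)).map (invE ℂ).symm = I := by
  refine le_antisymm ?_ ?_
  · rw [Ideal.map_le_iff_le_comap, Ideal.map_le_iff_le_comap]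
    intro x hx
    rw [Ideal.mem_comap, Ideal.mem_comap]
    have e : (invE ℂ).symm ((invE ℂ) x) = x := (invE ℂ).symm_apply_apply x
    rw [e]
    exact hx
  · intro x hx
    have e : (invE ℂ).symm ((invE ℂ) x) = x := (invE ℂ).symm_apply_apply x
    rw [← e]
    exact Ideal.mem_map_of_mem _ (Ideal.mem_map_of_mem _ hx)

private theorem BrV_symm_coe (g : MvPolynomial (Fin 2) ℂ) :
    (((invE ℂ).symm g : FV.Inv (⊥ : Subgroup (Matrix.GeneralLinearGroup (Fin 2) ℂ))) :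
      MvPolynomial (Fin 2) ℂ) = g := by
  rw [← invE_apply]
  exact (invE ℂ).apply_symm_apply g

private theorem lct_map {r : ℕ} (f : Fin r → MvPolynomial (Fin 2) ℂ) (c : Fin r → ℚ)
    (I : Ideal (FV.Inv (⊥ : Subgroup (Matrix.GeneralLinearGroup (Fin 2) ℂ)))) :
    lct f c (I.map (invE ℂ)) = FV.lct ⊥ f c I := by
  classical
  unfold lct FV.lct
  congr 1
  ext t
  simp only [Set.mem_ofPred_eq]
  refine and_congr_right fun _ => ?_
  constructor
  · rintro ⟨Γ, h1, h2⟩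
    refine ⟨Γ.image (invE ℂ).symm, ?_, ?_⟩
    · rw [Finset.coe_image, ← BrV_map_symm I, ← h1]
      exact (Ideal.map_span _ _).symm
    · rw [intNear_two] at h2
      have e : ∀ z : ℂ × ℂ, ∑ g ∈ Γ.image (invE ℂ).symm, ‖FV.ev (g : FV.P2 ℂ) z‖ ^ 2 =
          ∑ g ∈ Γ, ‖eval ![z.1, z.2] g‖ ^ 2 := by
        intro z
        rw [Finset.sum_image fun x _ y _ h => (invE ℂ).symm.injective h]
        refine Finset.sum_congr rfl fun g _ => ?_
        rw [BrV_symm_coe]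
        rfl
      simp only [e]
      exact h2
  · rintro ⟨Γ, h1, h2⟩
    refine ⟨Γ.image (invE ℂ), ?_, ?_⟩
    · rw [Finset.coe_image, ← h1]
      exact (Ideal.map_span _ _).symm
    · rw [intNear_two]
      have e : ∀ z : ℂ × ℂ, ∑ g ∈ Γ.image (invE ℂ), ‖eval ![z.1, z.2] g‖ ^ 2 =
          ∑ g ∈ Γ, ‖FV.ev (g : FV.P2 ℂ) z‖ ^ 2 := by
        intro z
        rw [Finset.sum_image fun x _ y _ h => (invE ℂ).injective h]
        rfl
      simp only [e]
      exact h2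

theorem volhat_eq_bot {r : ℕ} (f : Fin r → MvPolynomial (Fin 2) ℂ) (c : Fin r → ℚ) :
    volhat f c = FV.volhat ⊥ f c := by
  unfold volhat FV.volhat
  congr 1
  ext v
  simp only [Set.mem_ofPred_eq]
  constructor
  · rintro ⟨I, h1, h2⟩
    have e : (I.comap (invE ℂ)).map (invE ℂ) = I :=
      Ideal.map_comap_of_surjective _ (invE ℂ).surjective I
    rw [← e] at h1 h2
    exact ⟨I.comap (invE ℂ), (isPrim_map ℂ _).1 h1, by rw [h2, emult_map, lct_map]⟩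
  · rintro ⟨I, h1, h2⟩
    exact ⟨I.map (invE ℂ), (isPrim_map ℂ _).2 h1, by rw [h2, emult_map, lct_map]⟩

end LP
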