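import Pool.Agent.Lib.MP_9e8926_ag_LP.BrF
import Pool.Agent.Lib.MP_9e8926_ag_LP.BrV
import Pool.Agent.Lib.MP_9e8926_ag_FV.Final

set_option autoImplicit false

noncomputable section

namespace LP

open MvPolynomial

private theorem Fin0_mem_inv {A : Type*} [CommRing A] (f : MvPolynomial (Fin 2) A) :
    f ∈ FV.Inv (⊥ : Subgroup (Matrix.GeneralLinearGroup (Fin 2) A)) := by
  intro σ hσ
  rw [Subgroup.mem_bot] at hσ
  subst hσ
  have h1 : (fun i : Fin 2 => ∑ j, C ((((1 : Matrix.GeneralLinearGroup (Fin 2) A)) :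
      Matrix (Fin 2) (Fin 2) A) i j) * X j) = (X : Fin 2 → MvPolynomial (Fin 2) A) := by
    funext i
    rw [Finset.sum_eq_single i]
    · simp
    · intro j _ hj
      rw [Units.val_one, Matrix.one_apply_ne hj.symm, C_0, zero_mul]
    · intro h
      exact absurd (Finset.mem_univ i) h
  unfold FV.lin
  rw [h1]
  exact aeval_X_left_apply f

theorem two_dim (A : Type) [CommRing A] [IsDomain A] [Algebra.FiniteType ℤ A] (ι : A →+* ℂ)
    (hι : Function.Injective ι) (r : ℕ) (f : Fin r → MvPolynomial (Fin 2) A)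
    (hf : ∀ i, f i ≠ 0) (c : Fin r → ℚ) (hc : ∀ i, 0 ≤ c i)
    (hklt : Klt (fun i => map ι (f i)) c) :
    ∃ C : ℝ, ∃ a : A, a ≠ 0 ∧ ∀ μ : Ideal A, μ.IsMaximal → a ∉ μ → ∀ p : ℕ, CharP (A ⧸ μ) p →
      |Fvol p (fun i => map (Ideal.Quotient.mk μ) (f i)) c - volhat (fun i => map ι (f i)) c| ≤
        C / p := by
  obtain ⟨C, a, ha, h⟩ := FV.main A ι hι ⊥
    (fun σ hσ h1 => absurd (Subgroup.mem_bot.1 hσ) h1) r f hf (fun i => Fin0_mem_inv (f i)) c hc
    ((klt_two _ _).1 hklt)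
  refine ⟨C, a, ha, fun μ hμ haμ p hp => ?_⟩
  have h1 := h μ hμ haμ p hp
  rw [Subgroup.map_bot, Subgroup.map_bot] at h1
  let _ : Field (A ⧸ μ) := Ideal.Quotient.field μ
  have e : Fvol p (fun i => map (Ideal.Quotient.mk μ) (f i)) c =
      FV.Fvol p ⊥ (fun i => map (Ideal.Quotient.mk μ) (f i)) c :=
    fvol_eq_bot (k := A ⧸ μ) p (fun i => map (Ideal.Quotient.mk μ) (f i)) c
  rw [e, volhat_eq_bot]
  exact h1

end LP
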