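import Mathlib

set_option autoImplicit false

noncomputable section

namespace LP

open MeasureTheory Set

private theorem geo2_pow (n : ℕ) (hn : 1 ≤ n) {T : ℝ} (hT : 0 ≤ T) :
    ∫⁻ r in Ioc (0 : ℝ) T, ENNReal.ofReal (r ^ (n - 1)) = ENNReal.ofReal (T ^ n / n) := by
  have h1 : IntegrableOn (fun r : ℝ => r ^ (n - 1)) (Ioc 0 T) := by
    have h2 : Continuous fun r : ℝ => r ^ (n - 1) := by fun_prop
    exact (h2.integrableOn_Icc (a := 0) (b := T)).mono_set Ioc_subset_Icc_self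
  rw [← ofReal_integral_eq_lintegral_ofReal h1
    ((ae_restrict_iff' measurableSet_Ioc).2 (ae_of_all _ fun r hr => pow_nonneg hr.1.le _)),
    ← intervalIntegral.integral_of_le hT, integral_pow]
  have h3 : n - 1 + 1 = n := by omega
  have h4 : ((n - 1 : ℕ) : ℝ) + 1 = n := by
    have : ((n - 1 + 1 : ℕ) : ℝ) = n := by rw [h3]
    push_cast at this
    exact this
  rw [h3, h4, zero_pow (by omega), sub_zero]

private theorem geo2_tri (n : ℕ) (hn : 1 ≤ n) {a b u : ℝ} (ha : 0 < a) (hb : 0 < b) (hu : 0 < u) :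
    ∫⁻ y in Ioc (0 : ℝ) (u / a), ENNReal.ofReal (((u - a * y) / b) ^ n / n) =
      ENNReal.ofReal ((u / b) ^ n * (u / a) / (n * (n + 1))) := by
  have hn0 : (0 : ℝ) < n := by exact_mod_cast hn
  have hcont : Continuous fun y : ℝ => ((u - a * y) / b) ^ n / (n : ℝ) := by fun_prop
  have h1 : IntegrableOn (fun y : ℝ => ((u - a * y) / b) ^ n / (n : ℝ)) (Ioc 0 (u / a)) :=
    (hcont.integrableOn_Icc (a := 0) (b := u / a)).mono_set Ioc_subset_Icc_self
  have hX : 0 ≤ u / a := (div_pos hu ha).le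
  rw [← ofReal_integral_eq_lintegral_ofReal h1
    ((ae_restrict_iff' measurableSet_Ioc).2 (ae_of_all _ fun y hy => by
      have h2 : a * y ≤ u := by
        have := (le_div_iff₀ ha).1 hy.2
        linarith
      have h3 : 0 ≤ (u - a * y) / b := div_nonneg (by linarith) hb.le
      exact div_nonneg (pow_nonneg h3 _) hn0.le)),
    ← intervalIntegral.integral_of_le hX]
  congr 1
  have hd : ∀ y ∈ uIcc 0 (u / a), HasDerivAt
      (fun y : ℝ => -(((u - a * y) / b) ^ (n + 1) * (b / (a * n * (n + 1)))))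
      (((u - a * y) / b) ^ n / (n : ℝ)) y := by
    intro y _
    have e1 : HasDerivAt (fun y : ℝ => (u - a * y) / b) (-(a * 1) / b) y :=
      (((hasDerivAt_id y).const_mul a).const_sub u).div_const b
    have e2 := ((e1.pow (n + 1)).mul_const (b / (a * n * (n + 1)))).neg
    refine e2.congr_deriv ?_
    have h5 : ((n : ℝ) + 1) ≠ 0 := by positivity
    have h6 : (n : ℝ) ≠ 0 := hn0.ne'
    push_cast
    generalize hU : (u - a * y) / b = U
    generalize U ^ n = V
    field_simp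
  rw [intervalIntegral.integral_eq_sub_of_hasDerivAt hd (hcont.intervalIntegrable _ _)]
  have h6 : u - a * (u / a) = 0 := by field_simp; ring
  rw [h6, mul_zero, sub_zero, zero_div, zero_pow (by omega), pow_succ]
  generalize (u / b) ^ n = V
  field_simp
  ring

private theorem geo2_amgm (n : ℕ) (hn : 1 ≤ n) {α β : ℝ} (_hα : 0 ≤ α) (hβ : 0 ≤ β)
    (h : α + β ≤ 1) : (((n : ℝ) + 1) / n) ^ n * (((n : ℝ) + 1) * (α * β ^ n)) ≤ 1 := by
  have hn0 : (0 : ℝ) < n := by exact_mod_cast hn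
  have e1 : ((n : ℝ) + 1) * α ≤ Real.exp (((n : ℝ) + 1) * α - 1) := by
    have := Real.add_one_le_exp (((n : ℝ) + 1) * α - 1)
    linarith
  have e2 : ((n : ℝ) + 1) / n * β ≤ Real.exp (-((((n : ℝ) + 1) * α - 1) / n)) := by
    have h1 := Real.add_one_le_exp (-((((n : ℝ) + 1) * α - 1) / n))
    refine le_trans ?_ h1
    have h2 : -((((n : ℝ) + 1) * α - 1) / n) + 1 = ((n : ℝ) + 1) / n * (1 - α) := by
      field_simp
      ring
    rw [h2]
    exact mul_le_mul_of_nonneg_left (by linarith) (by positivity)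
  have e3 := pow_le_pow_left₀ (by positivity) e2 n
  have e4 : Real.exp (-((((n : ℝ) + 1) * α - 1) / n)) ^ n =
      Real.exp (-(((n : ℝ) + 1) * α - 1)) := by
    rw [← Real.exp_nat_mul]
    congr 1
    field_simp
  rw [e4] at e3
  have e5 := mul_le_mul e1 e3 (by positivity) (Real.exp_pos _).le
  rw [← Real.exp_add, add_neg_cancel, Real.exp_zero, mul_pow] at e5
  calc (((n : ℝ) + 1) / n) ^ n * (((n : ℝ) + 1) * (α * β ^ n)) =
      ((n : ℝ) + 1) * α * ((((n : ℝ) + 1) / n) ^ n * β ^ n) := by ring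
    _ ≤ 1 := e5

private theorem geo2_point (n : ℕ) (hn : 1 ≤ n) (Γ : Set (ℝ × ℝ)) (hΓ : IsClosed Γ)
    (hc : Convex ℝ Γ) (R : ℝ)
    (hlarge : ∀ w : ℝ × ℝ, 0 ≤ w → (R ≤ w.1 ∨ R ≤ w.2) → w ∈ Γ) (hR : 0 < R)
    {x r : ℝ} (hx : 0 < x) (hr : 0 < r) (hp : (x, r) ∉ Γ) :
    ENNReal.ofReal ((((n : ℝ) + 1) / n) ^ n * x * (r ^ n / n)) ≤
      ∫⁻ y in Ioi (0 : ℝ), ∫⁻ r in Ioi (0 : ℝ),
        ({s : ℝ | (y, s) ∉ Γ}.indicator (fun s => ENNReal.ofReal (s ^ (n - 1)))) r := by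
  have hn0 : (0 : ℝ) < n := by exact_mod_cast hn
  obtain ⟨f, u, hfu, hf⟩ := geometric_hahn_banach_point_closed hc hΓ hp
  obtain ⟨a, ha⟩ : ∃ a, a = f (1, 0) := ⟨_, rfl⟩
  obtain ⟨b, hb⟩ : ∃ b, b = f (0, 1) := ⟨_, rfl⟩
  have hfw : ∀ p q : ℝ, f (p, q) = a * p + b * q := by
    intro p q
    have h1 : ((p, q) : ℝ × ℝ) = p • ((1, 0) : ℝ × ℝ) + q • ((0, 1) : ℝ × ℝ) := by
      simp
    rw [h1, map_add, map_smul, map_smul, ← ha, ← hb, smul_eq_mul, smul_eq_mul]
    ring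
  have ha0 : 0 ≤ a := by
    by_contra hneg
    push Not at hneg
    have h1 : ((R + (|u| + 1) / (-a), 0) : ℝ × ℝ) ∈ Γ := by
      have h2 : 0 ≤ (|u| + 1) / (-a) := div_nonneg (by positivity) (by linarith)
      exact hlarge _ ⟨by show (0 : ℝ) ≤ R + _; linarith, le_refl (0 : ℝ)⟩
        (Or.inl (by show R ≤ R + _; linarith))
    have h3 := hf _ h1
    rw [hfw] at h3
    have h4 : a * ((|u| + 1) / (-a)) = -(|u| + 1) := by
      have h8 : a ≠ 0 := hneg.ne
      rw [div_neg, mul_neg, mul_div_cancel₀ _ h8]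
    have h5 : a * R < 0 := mul_neg_of_neg_of_pos hneg hR
    have h6 := neg_abs_le u
    have h7 : a * (R + (|u| + 1) / (-a)) = a * R + a * ((|u| + 1) / (-a)) := by ring
    rw [h7, h4] at h3
    linarith
  have hb0 : 0 ≤ b := by
    by_contra hneg
    push Not at hneg
    have h1 : ((0, R + (|u| + 1) / (-b)) : ℝ × ℝ) ∈ Γ := by
      have h2 : 0 ≤ (|u| + 1) / (-b) := div_nonneg (by positivity) (by linarith)
      exact hlarge _ ⟨le_refl (0 : ℝ), by show (0 : ℝ) ≤ R + _; linarith⟩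
        (Or.inr (by show R ≤ R + _; linarith))
    have h3 := hf _ h1
    rw [hfw] at h3
    have h4 : b * ((|u| + 1) / (-b)) = -(|u| + 1) := by
      have h8 : b ≠ 0 := hneg.ne
      rw [div_neg, mul_neg, mul_div_cancel₀ _ h8]
    have h5 : b * R < 0 := mul_neg_of_neg_of_pos hneg hR
    have h6 := neg_abs_le u
    have h7 : b * (R + (|u| + 1) / (-b)) = b * R + b * ((|u| + 1) / (-b)) := by ring
    rw [h7, h4] at h3
    linarith
  rw [hfw] at hfu
  have hu0 : 0 < u := by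
    have h1 := mul_nonneg ha0 hx.le
    have h2 := mul_nonneg hb0 hr.le
    linarith
  have ha1 : 0 < a := by
    have h1 := hf (R, 0) (hlarge _ ⟨hR.le, le_refl (0 : ℝ)⟩ (Or.inl le_rfl))
    rw [hfw] at h1
    by_contra h2
    have h3 : a = 0 := le_antisymm (not_lt.1 h2) ha0
    rw [h3] at h1
    linarith
  have hb1 : 0 < b := by
    have h1 := hf (0, R) (hlarge _ ⟨le_refl (0 : ℝ), hR.le⟩ (Or.inr le_rfl))
    rw [hfw] at h1
    by_contra h2
    have h3 : b = 0 := le_antisymm (not_lt.1 h2) hb0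
    rw [h3] at h1
    linarith
  have hlow : ENNReal.ofReal ((u / b) ^ n * (u / a) / (n * (n + 1))) ≤
      ∫⁻ y in Ioi (0 : ℝ), ∫⁻ r in Ioi (0 : ℝ),
        ({s : ℝ | (y, s) ∉ Γ}.indicator (fun s => ENNReal.ofReal (s ^ (n - 1)))) r := by
    rw [← geo2_tri n hn ha1 hb1 hu0]
    calc ∫⁻ y in Ioc (0 : ℝ) (u / a), ENNReal.ofReal (((u - a * y) / b) ^ n / n) ≤
        ∫⁻ y in Ioc (0 : ℝ) (u / a), ∫⁻ r in Ioi (0 : ℝ),
          ({s : ℝ | (y, s) ∉ Γ}.indicator (fun s => ENNReal.ofReal (s ^ (n - 1)))) r := by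
          refine setLIntegral_mono' measurableSet_Ioc fun y hy => ?_
          have h2 : a * y ≤ u := by
            have := (le_div_iff₀ ha1).1 hy.2
            linarith
          have h3 : 0 ≤ (u - a * y) / b := div_nonneg (by linarith) hb1.le
          rw [← geo2_pow n hn h3]
          calc ∫⁻ r in Ioc (0 : ℝ) ((u - a * y) / b), ENNReal.ofReal (r ^ (n - 1)) =
              ∫⁻ r in Ioc (0 : ℝ) ((u - a * y) / b), ({s : ℝ | (y, s) ∉ Γ}.indicator
                (fun s => ENNReal.ofReal (s ^ (n - 1)))) r := by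
                refine setLIntegral_congr_fun measurableSet_Ioc fun s hs => ?_
                have h4 : (y, s) ∉ Γ := by
                  intro h5
                  have h6 := hf _ h5
                  rw [hfw] at h6
                  have h7 := (le_div_iff₀ hb1).1 hs.2
                  linarith
                rw [indicator_of_mem (show s ∈ {s : ℝ | (y, s) ∉ Γ} from h4)]
            _ ≤ _ := lintegral_mono_set Ioc_subset_Ioi_self
      _ ≤ _ := lintegral_mono_set Ioc_subset_Ioi_self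
  refine le_trans (ENNReal.ofReal_le_ofReal ?_) hlow
  have hα : 0 ≤ a * x / u := by positivity
  have hβ : 0 ≤ b * r / u := by positivity
  have hαβ : a * x / u + b * r / u ≤ 1 := by
    rw [← add_div, div_le_one hu0]
    exact hfu.le
  have hA := geo2_amgm n hn hα hβ hαβ
  have hC : 0 ≤ (u / b) ^ n * (u / a) / (n * (n + 1)) := by positivity
  have h8 := mul_le_mul_of_nonneg_left hA hC
  rw [mul_one] at h8
  refine le_trans (le_of_eq ?_) h8
  have h9 : (b * r / u) ^ n = r ^ n * ((u / b) ^ n)⁻¹ := by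
    rw [← inv_pow, ← mul_pow]
    congr 1
    field_simp
  rw [h9]
  have h10 : (u / b) ^ n ≠ 0 := by positivity
  generalize (u / b) ^ n = U at h10
  have h11 : ((n : ℝ) + 1) ≠ 0 := by positivity
  generalize (((n : ℝ) + 1) / n) ^ n = V
  field_simp

/-- The two-dimensional inequality: a closed convex set `Γ` in the quadrant, closed upwards. -/
theorem geo2 (n : ℕ) (hn : 1 ≤ n) (Γ : Set (ℝ × ℝ)) (hΓ : IsClosed Γ) (hc : Convex ℝ Γ)
    (hup : ∀ w ∈ Γ, ∀ w', w ≤ w' → w' ∈ Γ) (R : ℝ) (hR : 0 < R)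
    (hlarge : ∀ w : ℝ × ℝ, 0 ≤ w → (R ≤ w.1 ∨ R ≤ w.2) → w ∈ Γ)
    (x : ℝ) (hx : 0 < x) :
    ENNReal.ofReal ((((n : ℝ) + 1) / n) ^ n * x) *
      (∫⁻ r in Ioi (0 : ℝ), ({s : ℝ | (x, s) ∉ Γ}.indicator (fun s => ENNReal.ofReal (s ^ (n - 1)))) r) ≤
      ∫⁻ y in Ioi (0 : ℝ), ∫⁻ r in Ioi (0 : ℝ),
        ({s : ℝ | (y, s) ∉ Γ}.indicator (fun s => ENNReal.ofReal (s ^ (n - 1)))) r := by
  have hn0 : (0 : ℝ) < n := by exact_mod_cast hn
  generalize hI : (∫⁻ y in Ioi (0 : ℝ), ∫⁻ r in Ioi (0 : ℝ),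
        ({s : ℝ | (y, s) ∉ Γ}.indicator (fun s => ENNReal.ofReal (s ^ (n - 1)))) r) = I
  have hpt : ∀ r : ℝ, 0 < r → (x, r) ∉ Γ →
      ENNReal.ofReal ((((n : ℝ) + 1) / n) ^ n * x * (r ^ n / n)) ≤ I := by
    intro r hr hp
    rw [← hI]
    exact geo2_point n hn Γ hΓ hc R hlarge hR hx hr hp
  set S : Set ℝ := {s : ℝ | 0 < s ∧ (x, s) ∉ Γ} with hS
  rcases S.eq_empty_or_nonempty with hE | hne
  · have h1 : (∫⁻ r in Ioi (0 : ℝ), ({s : ℝ | (x, s) ∉ Γ}.indicator
        (fun s => ENNReal.ofReal (s ^ (n - 1)))) r) = 0 := by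
      have h2 : (∫⁻ r in Ioi (0 : ℝ), ({s : ℝ | (x, s) ∉ Γ}.indicator
          (fun s => ENNReal.ofReal (s ^ (n - 1)))) r) = ∫⁻ _ in Ioi (0 : ℝ), (0 : ENNReal) := by
        refine setLIntegral_congr_fun measurableSet_Ioi fun s hs => ?_
        have h3 : s ∉ {s : ℝ | (x, s) ∉ Γ} := by
          intro h4
          have : s ∈ S := ⟨hs, h4⟩
          rw [hE] at this
          exact this
        rw [indicator_of_notMem h3]
      rw [h2, lintegral_zero]
    rw [h1, mul_zero]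
    exact bot_le
  · have hbd : BddAbove S := by
      refine ⟨R, fun s hs => ?_⟩
      by_contra h1
      push Not at h1
      exact hs.2 (hlarge _ ⟨hx.le, hs.1.le⟩ (Or.inr h1.le))
    set T := sSup S with hT
    have hT0 : 0 < T := by
      obtain ⟨s, hs⟩ := hne
      exact hs.1.trans_le (le_csSup hbd hs)
    have hup1 : (∫⁻ r in Ioi (0 : ℝ), ({s : ℝ | (x, s) ∉ Γ}.indicator
        (fun s => ENNReal.ofReal (s ^ (n - 1)))) r) ≤ ENNReal.ofReal (T ^ n / n) := by
      rw [← geo2_pow n hn hT0.le, ← lintegral_indicator measurableSet_Ioc]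
      refine le_trans (setLIntegral_mono' measurableSet_Ioi fun s hs => ?_)
        (setLIntegral_le_lintegral (Ioi (0 : ℝ)) _)
      by_cases h1 : (x, s) ∉ Γ
      · have h2 : s ∈ Ioc 0 T := ⟨hs, le_csSup hbd ⟨hs, h1⟩⟩
        rw [indicator_of_mem (show s ∈ {s : ℝ | (x, s) ∉ Γ} from h1), indicator_of_mem h2]
      · rw [indicator_of_notMem (show s ∉ {s : ℝ | (x, s) ∉ Γ} from h1)]
        exact bot_le
    have hlim : ENNReal.ofReal ((((n : ℝ) + 1) / n) ^ n * x * (T ^ n / n)) ≤ I := by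
      have hcont : Continuous fun r : ℝ =>
          ENNReal.ofReal ((((n : ℝ) + 1) / n) ^ n * x * (r ^ n / n)) :=
        ENNReal.continuous_ofReal.comp (by fun_prop)
      have h1 : Filter.Tendsto (fun r : ℝ =>
          ENNReal.ofReal ((((n : ℝ) + 1) / n) ^ n * x * (r ^ n / n))) (nhdsWithin T (Iio T))
          (nhds (ENNReal.ofReal ((((n : ℝ) + 1) / n) ^ n * x * (T ^ n / n)))) :=
        (hcont.tendsto T).mono_left nhdsWithin_le_nhds
      refine le_of_tendsto h1 ?_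
      have h2 : ∀ᶠ r in nhdsWithin T (Iio T), 0 < r :=
        nhdsWithin_le_nhds (lt_mem_nhds hT0)
      filter_upwards [h2, self_mem_nhdsWithin] with r hr hrT
      refine hpt r hr fun h3 => ?_
      obtain ⟨s, hs, hrs⟩ := exists_lt_of_lt_csSup hne hrT
      exact hs.2 (hup _ h3 _ ⟨le_refl x, hrs.le⟩)
    refine le_trans (mul_le_mul_right hup1 _) ?_
    rw [← ENNReal.ofReal_mul (by positivity)]
    exact hlim

end LP
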