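import Pool.Agent.Lib.MP_9e8926_ag_LP.Defs

set_option autoImplicit false

noncomputable section

namespace LP

open MvPolynomial

variable {n : ℕ} {k : Type*} [CommRing k] {ι κ : Type*} [Fintype ι] [Fintype κ]

theorem Fq_reindex (e : κ ≃ ι) (f : ι → MvPolynomial (Fin n) k) (c : ι → ℚ) (q : ℕ) :
    Fq (fun i => f (e i)) (fun i => c (e i)) q = Fq f c q := by
  unfold Fq
  exact Equiv.prod_comp e (fun i => f i ^ ⌈(c i : ℝ) * ((q : ℝ) - 1)⌉₊)

theorem Fvol_congr (p : ℕ) (f : ι → MvPolynomial (Fin n) k) (c : ι → ℚ)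
    (g : κ → MvPolynomial (Fin n) k) (d : κ → ℚ) (h : ∀ q, Fq f c q = Fq g d q) :
    Fvol p f c = Fvol p g d := by
  have h1 : ∀ I t, SFR p f c I t ↔ SFR p g d I t := by
    intro I t
    unfold SFR
    simp only [h]
  have h2 : ∀ I, fpt p f c I = fpt p g d I := by
    intro I
    unfold fpt
    simp only [h1]
  unfold Fvol
  simp only [h2]

theorem Fvol_reindex (p : ℕ) (e : κ ≃ ι) (f : ι → MvPolynomial (Fin n) k) (c : ι → ℚ) :
    Fvol p (fun i => f (e i)) (fun i => c (e i)) = Fvol p f c :=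
  Fvol_congr p _ _ _ _ (Fq_reindex e f c)

theorem volhat_reindex (e : κ ≃ ι) (f : ι → MvPolynomial (Fin n) ℂ) (c : ι → ℚ) :
    volhat (fun i => f (e i)) (fun i => c (e i)) = volhat f c := by
  have h1 : ∀ z : Fin n → ℂ, (∏ i, ‖eval z (f (e i))‖ ^ (-(2 * (c (e i) : ℝ)))) =
      ∏ i, ‖eval z (f i)‖ ^ (-(2 * (c i : ℝ))) := fun z =>
    Equiv.prod_comp e (fun i => ‖eval z (f i)‖ ^ (-(2 * (c i : ℝ))))
  have h2 : ∀ I, lct (fun i => f (e i)) (fun i => c (e i)) I = lct f c I := by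
    intro I
    unfold lct
    simp only [h1]
  unfold volhat
  simp only [h2]

end LP
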