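import Mathlib

set_option autoImplicit false

noncomputable section

namespace LP

/-- The bound in terms of the quotient of the exponents. -/
private theorem opt_aux (n : ℕ) (e φ β : ℝ) (s r : ℕ) (hs : 1 ≤ s) (hr : 1 ≤ r) :
    r * (s : ℝ) ^ n * e * (φ / s + β / r) ^ (n + 1) =
      e * (φ + β * ((s : ℝ) / r)) ^ (n + 1) / ((s : ℝ) / r) := by
  have hs0 : (0 : ℝ) < s := by exact_mod_cast hs
  have hr0 : (0 : ℝ) < r := by exact_mod_cast hr
  have h1 : φ / s + β / r = (φ + β * ((s : ℝ) / r)) / s := by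
    field_simp
  rw [h1, div_pow, pow_succ (s : ℝ) n]
  field_simp

/-- Optimal choice of the exponents. -/
theorem opt (n : ℕ) (hn : 1 ≤ n) (e φ β : ℝ) (he : 0 ≤ e) (hφ : 0 ≤ φ) (hβ : 0 < β) (V : ℝ)
    (h : ∀ s r : ℕ, 1 ≤ s → 1 ≤ r → V ≤ r * (s : ℝ) ^ n * e * (φ / s + β / r) ^ (n + 1)) :
    V ≤ β * (((n : ℝ) + 1) ^ (n + 1) / (n : ℝ) ^ n) * (e * φ ^ n) := by
  have hn0 : (0 : ℝ) < n := by exact_mod_cast hn
  rcases hφ.eq_or_lt with h0 | h0
  · subst h0
    rw [zero_pow (by omega), mul_zero, mul_zero]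
    have h1 : Filter.Tendsto (fun r : ℕ => e * β ^ (n + 1) * ((1 : ℝ) / r) ^ n) Filter.atTop
        (nhds (e * β ^ (n + 1) * 0 ^ n)) :=
      (tendsto_one_div_atTop_nhds_zero_nat.pow n).const_mul _
    rw [zero_pow (by omega), mul_zero] at h1
    refine ge_of_tendsto h1 ?_
    filter_upwards [Filter.eventually_ge_atTop 1] with r hr
    have hr0 : (0 : ℝ) < r := by exact_mod_cast hr
    refine (h 1 r le_rfl hr).trans (le_of_eq ?_)
    rw [zero_div, zero_add, div_pow, div_pow, pow_succ (r : ℝ) n]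
    simp only [Nat.cast_one, one_pow, mul_one]
    field_simp
  · set ρ : ℝ := φ / (n * β) with hρ
    have hρ0 : 0 < ρ := by positivity
    have h1 : Filter.Tendsto (fun r : ℕ => ((⌈ρ * r⌉₊ : ℝ)) / r) Filter.atTop (nhds ρ) :=
      (tendsto_nat_ceil_mul_div_atTop hρ0.le).comp tendsto_natCast_atTop_atTop
    have h2 : Filter.Tendsto (fun r : ℕ => e * (φ + β * ((⌈ρ * r⌉₊ : ℝ) / r)) ^ (n + 1) /
        ((⌈ρ * r⌉₊ : ℝ) / r)) Filter.atTop (nhds (e * (φ + β * ρ) ^ (n + 1) / ρ)) :=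
      (((h1.const_mul β).const_add φ).pow (n + 1) |>.const_mul e).div h1 hρ0.ne'
    have h3 : V ≤ e * (φ + β * ρ) ^ (n + 1) / ρ := by
      refine ge_of_tendsto h2 ?_
      filter_upwards [Filter.eventually_ge_atTop 1] with r hr
      have hr0 : (0 : ℝ) < r := by exact_mod_cast hr
      have hs : 1 ≤ ⌈ρ * r⌉₊ := Nat.one_le_ceil_iff.2 (by positivity)
      rw [← opt_aux n e φ β _ r hs hr]
      exact h _ r hs hr
    refine h3.trans (le_of_eq ?_)
    have h4 : φ + β * ρ = φ * (n + 1) / n := by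
      rw [hρ]
      field_simp
    rw [h4, hρ, div_pow, mul_pow, pow_succ (n : ℝ) n, pow_succ φ n]
    field_simp

end LP
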