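import Pool.Agent.Lib.MP_9e8926_ag_LP.UpG
import Pool.Agent.Lib.MP_9e8926_ag_LP.Opt
import Pool.Agent.Lib.MP_9e8926_ag_LP.SfrM
import Pool.Agent.Lib.MP_9e8926_ag_LP.Low
import Pool.Agent.Lib.MP_9e8926_ag_LP.BaseX

set_option autoImplicit false

noncomputable section

namespace LP

open MvPolynomial

variable {n : ℕ} {k : Type*} [Field k] {ι : Type*} [Fintype ι] (p : ℕ) [Fact p.Prime] [CharP k p]
  [PerfectField k]

omit [PerfectField k] in
private theorem upF_cf_emb_mul (ν : ℕ) (g : MvPolynomial (Fin n) k)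
    (h : MvPolynomial (Fin (n + 1)) k) : cf ν (emb g * h) = g * cf ν h := by
  have h1 : finSuccEquiv k n (emb g) = Polynomial.C g := by
    ext j : 1
    have h2 : (finSuccEquiv k n (emb g)).coeff j = cf j (emb g) := rfl
    rw [h2, cf_emb, Polynomial.coeff_C]
  show (finSuccEquiv k n (emb g * h)).coeff ν = g * (finSuccEquiv k n h).coeff ν
  rw [map_mul, h1, Polynomial.coeff_C_mul]

theorem Kid_fpt (hn : 1 ≤ n) (f : ι → MvPolynomial (Fin n) k) (c : ι → ℚ) (hc : ∀ i, 0 ≤ c i)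
    (b : ℚ) (hb0 : 0 ≤ b) (hb1 : b < 1) (hB : Base p f c)
    (a : Ideal (MvPolynomial (Fin n) k)) (ha : IsPrim a) (s r : ℕ) (hs : 1 ≤ s) (hr : 1 ≤ r) :
    fpt p (addF fun i => (emb (f i) : MvPolynomial (Fin (n + 1)) k)) (addC b c) (Kid a s r) ≤
      fpt p f c a / s + (1 - b) / r := by
  have hφ : 0 ≤ fpt p f c a := fpt_nonneg p f c a
  have hs' : (0 : ℝ) < s := by exact_mod_cast hs
  have hr' : (0 : ℝ) < r := by exact_mod_cast hr
  have hb0' : (0 : ℝ) ≤ b := by exact_mod_cast hb0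
  have hb1' : (b : ℝ) < 1 := by exact_mod_cast hb1
  refine fpt_le p _ _ (by omega) (add_nonneg (div_nonneg hφ hs'.le)
    (div_nonneg (by linarith) hr'.le)) fun T hT => ?_
  set A : ℝ := s * (T - (1 - b) / r) with hA
  have hA1 : fpt p f c a < A := by
    have h1 : fpt p f c a / s < T - (1 - b) / r := by linarith
    rwa [div_lt_iff₀ hs', mul_comm] at h1
  obtain ⟨φ', h1, h2⟩ := exists_between hA1
  have hd : 0 < A - φ' := by linarith
  refine ⟨⌈A / (A - φ')⌉₊, fun e he hQ h hh => ?_⟩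
  set q : ℕ := p ^ e with hq
  have hq1 : (A / (A - φ')) ≤ q := (Nat.le_ceil _).trans (by exact_mod_cast hQ)
  have hq2 : A ≤ q * (A - φ') := by rwa [div_le_iff₀ hd] at hq1
  have hq3 : 1 ≤ q := Nat.one_le_pow _ _ (Fact.out : p.Prime).pos
  have hq3' : (1 : ℝ) ≤ q := by exact_mod_cast hq3
  rw [mem_J_cf]
  intro μ hμ
  rw [Fq_addF, Fq_emb, mul_assoc, cf_X_pow_mul]
  split_ifs with hBμ
  · rw [upF_cf_emb_mul]
    set B : ℕ := ⌈(b : ℝ) * ((q : ℝ) - 1)⌉₊ with hBdef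
    have hB1 : (b : ℝ) * ((q : ℝ) - 1) ≤ B := Nat.le_ceil _
    set M : ℕ := ⌈T * ((q : ℝ) - 1)⌉₊ with hM
    have hM1 : T * ((q : ℝ) - 1) ≤ M := Nat.le_ceil _
    have hcf : cf (μ - B) h ∈ a ^ (s * (M - (μ - B) / r)) :=
      (Kid_pow_mem a s r M hr h).1 hh (μ - B)
    refine mem_of_fpt_lt p f c hn hc hB ha.1 h1 he (Ideal.pow_le_pow_right ?_ hcf)
    refine Nat.ceil_le.2 ?_
    push_cast
    have h3 : (M : ℝ) ≤ ((M - (μ - B) / r : ℕ) : ℝ) + (((μ - B) / r : ℕ) : ℝ) := by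
      have : M ≤ (M - (μ - B) / r) + (μ - B) / r := by omega
      exact_mod_cast this
    have h4 : (((μ - B) / r : ℕ) : ℝ) ≤ ((μ - B : ℕ) : ℝ) / r := Nat.cast_div_le
    have h5 : ((μ - B : ℕ) : ℝ) ≤ (1 - b) * ((q : ℝ) - 1) := by
      have h6 : ((μ - B : ℕ) : ℝ) + B + 1 ≤ q := by
        have : (μ - B) + B + 1 ≤ q := by omega
        exact_mod_cast this
      linarith
    have h7 : ((μ - B : ℕ) : ℝ) / r ≤ (1 - b) * ((q : ℝ) - 1) / r :=
      div_le_div_of_nonneg_right h5 hr'.le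
    have h8 : (T - (1 - b) / r) * ((q : ℝ) - 1) ≤ ((M - (μ - B) / r : ℕ) : ℝ) := by
      have h9 : (1 - (b : ℝ)) / r * ((q : ℝ) - 1) = (1 - b) * ((q : ℝ) - 1) / r := by ring
      rw [sub_mul, h9]
      linarith
    have h10 := mul_le_mul_of_nonneg_left h8 hs'.le
    have h11 : (s : ℝ) * ((T - (1 - b) / r) * ((q : ℝ) - 1)) = A * (q - 1) := by
      rw [hA]
      ring
    rw [h11] at h10
    have h12 : φ' * ((p : ℝ) ^ e) = φ' * (q : ℝ) := by
      rw [hq]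
      push_cast
      ring
    rw [h12]
    nlinarith
  · exact Submodule.zero_mem _

/-- **Product formula**, upper bound. -/
theorem fvol_prod_le (hn : 1 ≤ n) (f : ι → MvPolynomial (Fin n) k) (c : ι → ℚ)
    (hc : ∀ i, 0 ≤ c i) (b : ℚ) (hb0 : 0 ≤ b) (hb1 : b < 1) :
    Fvol p (addF fun i => (emb (f i) : MvPolynomial (Fin (n + 1)) k)) (addC b c) ≤
      (1 - b : ℝ) * (((n : ℝ) + 1) ^ (n + 1) / (n : ℝ) ^ n) * Fvol p f c := by
  have hb1' : (0 : ℝ) < 1 - b := by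
    have : (b : ℝ) < 1 := by exact_mod_cast hb1
    linarith
  have hn' : (0 : ℝ) < n := by exact_mod_cast hn
  have hC : (0 : ℝ) < (1 - b : ℝ) * (((n : ℝ) + 1) ^ (n + 1) / (n : ℝ) ^ n) := by positivity
  by_cases hB : Base p f c
  · rw [mul_comm, ← div_le_iff₀ hC]
    refine le_csInf ⟨_, m0 n k, isPrim_m0, rfl⟩ ?_
    rintro v ⟨a, ha, rfl⟩
    rw [div_le_iff₀ hC, mul_comm]
    refine opt n hn (emult a) (fpt p f c a) (1 - b) (emult_nonneg a ha) (fpt_nonneg p f c a) hb1'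
      _ fun s r hs hr => ?_
    refine (fvol_le p _ _ (Kid a s r) (Kid_prim a ha s r hs hr)).trans ?_
    have h1 := Kid_emult a ha s r hs hr
    have h2 := Kid_fpt p hn f c hc b hb0 hb1 hB a ha s r hs hr
    have h3 := emult_nonneg (Kid a s r) (Kid_prim a ha s r hs hr)
    refine mul_le_mul h1 (pow_le_pow_left₀ (fpt_nonneg p _ _ _) h2 _)
      (pow_nonneg (fpt_nonneg p _ _ _) _) (h3.trans h1)
  · rw [fvol_eq_zero p (by omega) _ _ fun h => hB (base_desc p f c b h)]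
    exact mul_nonneg hC.le (fvol_nonneg p f c)

end LP
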