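import Pool.Agent.Lib.MP_9e8926_ag_LP.Lead

set_option autoImplicit false

noncomputable section

namespace LP

open MvPolynomial

variable {n : ℕ} {k : Type*} [Field k]

private theorem leadF_exists_ld {f : MvPolynomial (Fin n) k} (hf : f ≠ 0) : ∃ μ, IsLd f μ := by
  have h1 : f.support.Nonempty := by
    rw [Finset.nonempty_iff_ne_empty]
    intro h
    exact hf (support_eq_empty.mp h)
  obtain ⟨μ, hμ, hmin⟩ := f.support.exists_min_image (fun μ => toLex μ) h1
  exact ⟨μ, hμ, hmin⟩

private theorem leadF_mono_mem {N : ℕ} {μ : Fin n →₀ ℕ} (hμ : N ≤ ∑ i, μ i) :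
    (monomial μ (1 : k)) ∈ m0 n k ^ N := by
  refine Ideal.pow_le_pow_right hμ ?_
  have h1 : (monomial μ (1 : k)) = ∏ i, (X i : MvPolynomial (Fin n) k) ^ μ i := by
    rw [monomial_eq, C_1, one_mul, Finsupp.prod_fintype]
    intro i
    exact pow_zero _
  rw [h1, ← Finset.prod_pow_eq_pow_sum]
  refine Ideal.prod_mem_prod ?_
  intro i _
  refine Ideal.pow_mem_pow ?_ _
  rw [m0, RingHom.mem_ker]
  exact constantCoeff_X _ i

private theorem leadF_fin (N : ℕ) : {μ : Fin n →₀ ℕ | ¬ N ≤ ∑ i, μ i}.Finite := by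
  refine (Set.finite_Icc (0 : Fin n →₀ ℕ) (Finsupp.equivFunOnFinite.symm fun _ => N)).subset ?_
  intro μ hμ
  refine ⟨zero_le, ?_⟩
  intro i
  have h1 : μ i ≤ ∑ j, μ j := Finset.single_le_sum (fun _ _ => Nat.zero_le _) (Finset.mem_univ i)
  have h2 : ¬ N ≤ ∑ j, μ j := hμ
  have h3 : (Finsupp.equivFunOnFinite.symm fun _ => N : Fin n →₀ ℕ) i = N := rfl
  rw [h3]
  omega

private theorem leadF_span {I : Ideal (MvPolynomial (Fin n) k)} {N : ℕ} (h : m0 n k ^ N ≤ I)
    (W : Submodule k (MvPolynomial (Fin n) k)) (hI : ∀ f ∈ I, f ∈ W)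
    (hL : ∀ μ, μ ∉ L I → (monomial μ (1 : k)) ∈ W) (μ : Fin n →₀ ℕ) :
    (monomial μ (1 : k)) ∈ W := by
  by_contra hcon
  have hfin : {μ : Fin n →₀ ℕ | (monomial μ (1 : k)) ∉ W}.Finite := by
    refine (leadF_fin N).subset ?_
    intro ν hν hN
    exact hν (hI _ (h (leadF_mono_mem hN)))
  obtain ⟨ν, hν, hmax⟩ := Set.exists_max_image _ (fun μ : Fin n →₀ ℕ => toLex μ) hfin ⟨μ, hcon⟩
  have hνL : ν ∈ L I := by
    by_contra h'
    exact hν (hL ν h')
  obtain ⟨f, hf, hsup, hmin⟩ := hνL
  have hc : coeff ν f ≠ 0 := mem_support_iff.mp hsup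
  have h1 : f = ∑ ν' ∈ f.support, monomial ν' (coeff ν' f) := (support_sum_monomial_coeff f).symm
  rw [← Finset.add_sum_erase _ _ hsup] at h1
  have h2 : (∑ ν' ∈ f.support.erase ν, monomial ν' (coeff ν' f)) ∈ W := by
    refine Submodule.sum_mem _ ?_
    intro ν' hν'
    rw [Finset.mem_erase] at hν'
    have h3 : (monomial ν' (1 : k)) ∈ W := by
      by_contra h4
      have h5 := hmax ν' h4
      have h6 := hmin ν' hν'.2
      exact hν'.1 (toLex.injective (le_antisymm h5 h6))
    have h4 : monomial ν' (coeff ν' f) = coeff ν' f • (monomial ν' (1 : k)) := by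
      rw [smul_monomial, smul_eq_mul, mul_one]
    rw [h4]
    exact W.smul_mem _ h3
  have h3 : monomial ν (coeff ν f) ∈ W := by
    have h4 : monomial ν (coeff ν f) =
        f - ∑ ν' ∈ f.support.erase ν, monomial ν' (coeff ν' f) := by
      rw [eq_sub_iff_add_eq]
      exact h1.symm
    rw [h4]
    exact W.sub_mem (hI f hf) h2
  apply hν
  have h4 : (monomial ν (1 : k)) = (coeff ν f)⁻¹ • monomial ν (coeff ν f) := by
    rw [smul_monomial, smul_eq_mul, inv_mul_cancel₀ hc]
  rw [h4]
  exact W.smul_mem _ h3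

/-- The colength of an ideal is the number of the exponents which are not lowest exponents. -/
theorem finrank_eq {I : Ideal (MvPolynomial (Fin n) k)} {N : ℕ} (h : m0 n k ^ N ≤ I) :
    Module.finrank k (MvPolynomial (Fin n) k ⧸ I) = (L I)ᶜ.ncard := by
  classical
  set v : ↥((L I)ᶜ) → MvPolynomial (Fin n) k ⧸ I :=
    fun μ => Ideal.Quotient.mk I (monomial μ.1 (1 : k)) with hv
  have hli : LinearIndependent k v := by
    rw [linearIndependent_iff']
    intro s g hg
    set f : MvPolynomial (Fin n) k := ∑ μ ∈ s, monomial μ.1 (g μ) with hf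
    have hfI : f ∈ I := by
      rw [← Ideal.Quotient.eq_zero_iff_mem, ← hg, hf, map_sum]
      refine Finset.sum_congr rfl ?_
      intro μ _
      have h1 : monomial μ.1 (g μ) = g μ • (monomial μ.1 (1 : k)) := by
        rw [smul_monomial, smul_eq_mul, mul_one]
      rw [h1, hv]
      rfl
    have hcf : ∀ μ : ↥((L I)ᶜ), μ ∈ s → coeff μ.1 f = g μ := by
      intro μ hμ
      rw [hf, coeff_sum, Finset.sum_eq_single μ]
      · rw [coeff_monomial, if_pos rfl]
      · intro ν _ hν
        rw [coeff_monomial, if_neg]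
        intro h1
        exact hν (Subtype.ext h1)
      · intro h1
        exact absurd hμ h1
    have hsup : ∀ ν ∈ f.support, ν ∉ L I := by
      intro ν hν hνL
      rw [mem_support_iff] at hν
      apply hν
      rw [hf, coeff_sum]
      refine Finset.sum_eq_zero ?_
      intro μ _
      rw [coeff_monomial, if_neg]
      intro h1
      exact μ.2 (h1 ▸ hνL)
    have hf0 : f = 0 := by
      by_contra hne
      obtain ⟨μ, hμ⟩ := leadF_exists_ld hne
      exact hsup μ hμ.1 ⟨f, hfI, hμ⟩
    intro μ hμ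
    rw [← hcf μ hμ, hf0, coeff_zero]
  have hsp : ⊤ ≤ Submodule.span k (Set.range v) := by
    intro x _
    obtain ⟨f, rfl⟩ := Ideal.Quotient.mk_surjective x
    set π : MvPolynomial (Fin n) k →ₗ[k] MvPolynomial (Fin n) k ⧸ I :=
      (Ideal.Quotient.mkₐ k I).toLinearMap with hπ
    have hW : ∀ μ : Fin n →₀ ℕ, (monomial μ (1 : k)) ∈
        (Submodule.span k (Set.range v)).comap π := by
      intro μ
      refine leadF_span h _ ?_ ?_ μ
      · intro f hf
        rw [Submodule.mem_comap]
        have h1 : π f = 0 := Ideal.Quotient.eq_zero_iff_mem.mpr hf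
        rw [h1]
        exact Submodule.zero_mem _
      · intro ν hν
        rw [Submodule.mem_comap]
        exact Submodule.subset_span ⟨⟨ν, hν⟩, rfl⟩
    have h1 : f ∈ (Submodule.span k (Set.range v)).comap π := by
      rw [← support_sum_monomial_coeff f]
      refine Submodule.sum_mem _ ?_
      intro μ _
      have h2 : monomial μ (coeff μ f) = coeff μ f • (monomial μ (1 : k)) := by
        rw [smul_monomial, smul_eq_mul, mul_one]
      rw [h2]
      exact Submodule.smul_mem _ _ (hW μ)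
    exact h1
  have h1 := Module.finrank_eq_nat_card_basis (Module.Basis.mk hli hsp)
  rw [h1]
  exact Nat.card_coe_set_eq _

end LP
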