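import Pool.Agent.Lib.MP_9e8926_ag_LP.UpE
import Pool.Agent.Lib.MP_9e8926_ag_LP.LeadF

set_option autoImplicit false

noncomputable section

namespace LP

open MvPolynomial

variable {n : ℕ} {k : Type*} [Field k]

/-- the dimension of the quotient by a power of `(a^s, z^r)` -/
private theorem Kid_finrank (a : Ideal (MvPolynomial (Fin n) k)) (ha : IsPrim a) (s r N : ℕ)
    (hr : 1 ≤ r) : Module.finrank k (MvPolynomial (Fin (n + 1)) k ⧸ Kid a s r ^ N) ≤
      ∑ ν ∈ Finset.range (N * r),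
        Module.finrank k (MvPolynomial (Fin n) k ⧸ a ^ (s * (N - ν / r))) := by
  obtain ⟨-, M, hM⟩ := ha
  have hfin : ∀ j, Module.Finite k (MvPolynomial (Fin n) k ⧸ a ^ j) := fun j =>
    finite_of_pow_le (N := M * j) (by rw [pow_mul]; exact Ideal.pow_right_mono hM j)
  let Φ : MvPolynomial (Fin (n + 1)) k →ₗ[k]
      (∀ ν : Fin (N * r), MvPolynomial (Fin n) k ⧸ a ^ (s * (N - (ν : ℕ) / r))) :=
    LinearMap.pi fun ν => (Ideal.Quotient.mkₐ k (a ^ (s * (N - (ν : ℕ) / r)))).toLinearMap ∘ₗ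
      cf (ν : ℕ)
  have hΦ : ∀ f, Φ f = 0 ↔ f ∈ Kid a s r ^ N := by
    intro f
    rw [Kid_pow_mem a s r N hr]
    constructor
    · intro h ν
      by_cases hν : ν < N * r
      · have h1 := congrFun h ⟨ν, hν⟩
        exact Ideal.Quotient.eq_zero_iff_mem.1 h1
      · have h2 : N ≤ ν / r := by
          rw [Nat.le_div_iff_mul_le (by omega)]
          exact not_lt.1 hν
        rw [Nat.sub_eq_zero_of_le h2, mul_zero, pow_zero, Ideal.one_eq_top]
        exact Submodule.mem_top
    · intro h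
      funext ν
      exact Ideal.Quotient.eq_zero_iff_mem.2 (h ν)
  let Ψ : (MvPolynomial (Fin (n + 1)) k ⧸ (Kid a s r ^ N)) →ₗ[k]
      (∀ ν : Fin (N * r), MvPolynomial (Fin n) k ⧸ a ^ (s * (N - (ν : ℕ) / r))) :=
    (Submodule.liftQ ((Kid a s r ^ N).restrictScalars k) Φ
      fun f (hf : f ∈ (Kid a s r ^ N).restrictScalars k) =>
        LinearMap.mem_ker.2 ((hΦ f).2 hf)).comp <|
      (Submodule.Quotient.restrictScalarsEquiv k (Kid a s r ^ N)).symm.toLinearMap
  have hΨ : ∀ f, Ψ (Ideal.Quotient.mk _ f) = Φ f := fun f => rfl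
  have hinj : Function.Injective Ψ := by
    rw [injective_iff_map_eq_zero]
    intro x hx
    obtain ⟨f, rfl⟩ := Ideal.Quotient.mk_surjective x
    rw [hΨ, hΦ] at hx
    exact Ideal.Quotient.eq_zero_iff_mem.2 hx
  have hF : ∀ ν : Fin (N * r), Module.Finite k
      (MvPolynomial (Fin n) k ⧸ a ^ (s * (N - (ν : ℕ) / r))) := fun ν => hfin _
  have h1 := LinearMap.finrank_le_finrank_of_injective hinj
  rw [Module.finrank_pi_fintype k] at h1
  refine h1.trans (le_of_eq ?_)
  exact Fin.sum_univ_eq_sum_range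
    (fun ν => Module.finrank k (MvPolynomial (Fin n) k ⧸ a ^ (s * (N - ν / r)))) (N * r)

private theorem sum_div (g : ℕ → ℝ) (r : ℕ) (hr : 1 ≤ r) (N : ℕ) :
    ∑ ν ∈ Finset.range (N * r), g (N - ν / r) = r * ∑ i ∈ Finset.range N, g (i + 1) := by
  induction N with
  | zero => simp
  | succ N ih =>
    rw [show (N + 1) * r = r + N * r by ring, Finset.sum_range_add, Finset.sum_range_succ, mul_add,
      ← ih, add_comm]
    congr 1
    · refine Finset.sum_congr rfl fun ν _ => ?_
      rw [Nat.add_div_left _ (by omega), Nat.add_sub_add_right]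
    · rw [Finset.sum_congr rfl (g := fun _ => g (N + 1)) fun ν hν => by
        rw [Nat.div_eq_of_lt (Finset.mem_range.1 hν), Nat.sub_zero]]
      rw [Finset.sum_const, Finset.card_range, nsmul_eq_mul]

private theorem bern (x : ℝ) (hx : 0 ≤ x) (m : ℕ) :
    x ^ (m + 1) + (m + 1) * x ^ m ≤ (x + 1) ^ (m + 1) := by
  induction m with
  | zero => simp
  | succ m ih =>
    have h1 : (x ^ (m + 1) + (m + 1) * x ^ m) * (x + 1) ≤ (x + 1) ^ (m + 1) * (x + 1) :=
      mul_le_mul_of_nonneg_right ih (by linarith)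
    have h2 : 0 ≤ (m + 1) * x ^ m := by positivity
    rw [← pow_succ] at h1
    refine le_trans ?_ h1
    push_cast
    have h3 : x ^ (m + 1) = x ^ m * x := pow_succ x m
    have h4 : x ^ (m + 1 + 1) = x ^ m * x * x := by rw [pow_succ, pow_succ]
    rw [h4, h3]
    nlinarith

private theorem sum_pow (m N : ℕ) :
    ((m : ℝ) + 1) * ∑ i ∈ Finset.range N, ((i : ℝ) + 1) ^ m ≤ ((N : ℝ) + 1) ^ (m + 1) := by
  induction N with
  | zero => simp
  | succ N ih =>
    rw [Finset.sum_range_succ, mul_add]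
    have h := bern ((N : ℝ) + 1) (by positivity) m
    push_cast
    linarith

private theorem fin0_le (I : Ideal (MvPolynomial (Fin 0) k)) :
    Module.finrank k (MvPolynomial (Fin 0) k ⧸ I) ≤ 1 := by
  have e : MvPolynomial (Fin 0) k ≃ₐ[k] k := MvPolynomial.isEmptyAlgEquiv k (Fin 0)
  have h1 : Module.finrank k (MvPolynomial (Fin 0) k) = 1 := by
    rw [e.toLinearEquiv.finrank_eq, Module.finrank_self]
  have : Module.Finite k (MvPolynomial (Fin 0) k) := Module.Finite.equiv e.symm.toLinearEquiv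
  rw [← h1]
  exact LinearMap.finrank_le_finrank_of_surjective (f := (Ideal.Quotient.mkₐ k I).toLinearMap)
    Ideal.Quotient.mk_surjective

/-- a bound for the colengths, without constant for `n = 0` -/
private theorem bound (a : Ideal (MvPolynomial (Fin n) k)) (ha : IsPrim a) (V : ℝ)
    (hV : emult a < V) : ∃ C : ℝ, 0 ≤ C ∧ (n = 0 → C = 0) ∧ ∀ j : ℕ, (n.factorial : ℝ) *
      (Module.finrank k (MvPolynomial (Fin n) k ⧸ a ^ j) : ℝ) ≤ V * (j : ℝ) ^ n + C := by
  rcases Nat.eq_zero_or_pos n with rfl | hn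
  · refine ⟨0, le_rfl, fun _ => rfl, fun j => ?_⟩
    have h1 : (1 : ℝ) ≤ emult a := by
      refine le_emult a ha 1 fun s hs => ?_
      rw [pow_zero, mul_one, Nat.factorial_zero, Nat.cast_one, one_mul]
      have h2 : a ^ s ≠ ⊤ := by
        intro h
        have h3 : a ^ s ≤ m0 0 k := (Ideal.pow_le_self (by omega)).trans ha.1
        rw [h, top_le_iff] at h3
        have h4 : (1 : MvPolynomial (Fin 0) k) ∈ m0 0 k := by
          rw [h3]
          exact Submodule.mem_top
        rw [mem_m0, map_one] at h4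
        exact one_ne_zero h4
      obtain ⟨M, hM⟩ := ha.2
      have : Module.Finite k (MvPolynomial (Fin 0) k ⧸ a ^ s) :=
        finite_of_pow_le (N := M * s) (by rw [pow_mul]; exact Ideal.pow_right_mono hM s)
      have : Nontrivial (MvPolynomial (Fin 0) k ⧸ a ^ s) := Ideal.Quotient.nontrivial_iff.2 h2
      have h5 : 0 < Module.finrank k (MvPolynomial (Fin 0) k ⧸ a ^ s) := Module.finrank_pos
      exact_mod_cast h5
    have h2 := fin0_le (a ^ j)
    have h3 : (Module.finrank k (MvPolynomial (Fin 0) k ⧸ a ^ j) : ℝ) ≤ 1 := by exact_mod_cast h2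
    rw [pow_zero, mul_one, Nat.factorial_zero, Nat.cast_one, one_mul]
    linarith
  · obtain ⟨C, hC⟩ := finrank_le_emult a ha V hV
    refine ⟨|C|, abs_nonneg C, fun h => absurd h hn.ne', fun j => (hC j).trans ?_⟩
    linarith [le_abs_self C]

theorem Kid_emult (a : Ideal (MvPolynomial (Fin n) k)) (ha : IsPrim a) (s r : ℕ) (hs : 1 ≤ s)
    (hr : 1 ≤ r) : emult (Kid a s r) ≤ r * (s : ℝ) ^ n * emult a := by
  have hs0 : (0 : ℝ) < s := by exact_mod_cast hs
  have hr0 : (0 : ℝ) < r := by exact_mod_cast hr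
  have hpos : 0 < (r : ℝ) * (s : ℝ) ^ n := by positivity
  refine le_of_forall_pos_le_add fun ε hε => ?_
  obtain ⟨V, hV⟩ : ∃ V, V = emult a + ε / (r * (s : ℝ) ^ n) := ⟨_, rfl⟩
  have hVe : emult a < V := by
    rw [hV]
    have : 0 < ε / (r * (s : ℝ) ^ n) := by positivity
    linarith
  have hV0 : 0 ≤ V := (emult_nonneg a ha).trans hVe.le
  have hVr : r * (s : ℝ) ^ n * V = r * (s : ℝ) ^ n * emult a + ε := by
    rw [hV]
    field_simp
  obtain ⟨C, hC0, hCn, hC⟩ := bound a ha V hVe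
  rw [← hVr]
  refine emult_le (Kid a s r)
    (fun N => r * (s : ℝ) ^ n * V * (1 + 1 / (N : ℝ)) ^ (n + 1) + (n + 1) * r * (C / (N : ℝ) ^ n))
    _ ?_ ?_
  · have h1 : Filter.Tendsto (fun N : ℕ => (1 + 1 / (N : ℝ)) ^ (n + 1)) Filter.atTop (nhds 1) := by
      have h2 : Filter.Tendsto (fun N : ℕ => 1 + 1 / (N : ℝ)) Filter.atTop (nhds (1 + 0)) :=
        tendsto_const_nhds.add tendsto_one_div_atTop_nhds_zero_nat
      rw [add_zero] at h2
      have h3 := h2.pow (n + 1)
      rwa [one_pow] at h3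
    have h4 : Filter.Tendsto (fun N : ℕ => C / (N : ℝ) ^ n) Filter.atTop (nhds 0) := by
      rcases Nat.eq_zero_or_pos n with h | h
      · rw [hCn h]
        simp
      · have h5 : Filter.Tendsto (fun N : ℕ => (N : ℝ) ^ n) Filter.atTop Filter.atTop :=
          (Filter.tendsto_pow_atTop h.ne').comp tendsto_natCast_atTop_atTop
        exact h5.const_div_atTop C
    have h6 := (h1.const_mul (r * (s : ℝ) ^ n * V)).add (h4.const_mul ((n + 1) * (r : ℝ)))
    rwa [mul_one, mul_zero, add_zero] at h6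
  · filter_upwards [Filter.eventually_ge_atTop 1] with N hN
    have hN0 : (0 : ℝ) < N := by exact_mod_cast hN
    have h1 : (Module.finrank k (MvPolynomial (Fin (n + 1)) k ⧸ Kid a s r ^ N) : ℝ) ≤
        ∑ ν ∈ Finset.range (N * r),
          (Module.finrank k (MvPolynomial (Fin n) k ⧸ a ^ (s * (N - ν / r))) : ℝ) := by
      exact_mod_cast Kid_finrank a ha s r N hr
    have h2 := sum_div (fun i => (Module.finrank k (MvPolynomial (Fin n) k ⧸ a ^ (s * i)) : ℝ))
      r hr N
    rw [h2] at h1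
    have h3 : ((n + 1).factorial : ℝ) = (n + 1) * n.factorial := by
      rw [Nat.factorial_succ]
      push_cast
      ring
    have h4 : (n.factorial : ℝ) * ∑ i ∈ Finset.range N,
        (Module.finrank k (MvPolynomial (Fin n) k ⧸ a ^ (s * (i + 1))) : ℝ) ≤
        V * (s : ℝ) ^ n * ∑ i ∈ Finset.range N, ((i : ℝ) + 1) ^ n + C * N := by
      rw [Finset.mul_sum, Finset.mul_sum]
      have h5 : C * (N : ℝ) = ∑ _i ∈ Finset.range N, C := by
        rw [Finset.sum_const, Finset.card_range, nsmul_eq_mul, mul_comm]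
      rw [h5, ← Finset.sum_add_distrib]
      refine Finset.sum_le_sum fun i _ => (hC _).trans (le_of_eq ?_)
      push_cast
      rw [mul_pow]
      ring
    have h6 := sum_pow n N
    calc ((n + 1).factorial : ℝ) *
          (Module.finrank k (MvPolynomial (Fin (n + 1)) k ⧸ Kid a s r ^ N) : ℝ)
        ≤ ((n + 1).factorial : ℝ) * (r * ∑ i ∈ Finset.range N,
          (Module.finrank k (MvPolynomial (Fin n) k ⧸ a ^ (s * (i + 1))) : ℝ)) :=
          mul_le_mul_of_nonneg_left h1 (by positivity)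
      _ = (n + 1) * r * ((n.factorial : ℝ) * ∑ i ∈ Finset.range N,
          (Module.finrank k (MvPolynomial (Fin n) k ⧸ a ^ (s * (i + 1))) : ℝ)) := by
          rw [h3]
          ring
      _ ≤ (n + 1) * r * (V * (s : ℝ) ^ n * ∑ i ∈ Finset.range N, ((i : ℝ) + 1) ^ n + C * N) :=
          mul_le_mul_of_nonneg_left h4 (by positivity)
      _ = r * (s : ℝ) ^ n * V * (((n : ℝ) + 1) * ∑ i ∈ Finset.range N, ((i : ℝ) + 1) ^ n) +
          (n + 1) * r * (C * N) := by ring
      _ ≤ r * (s : ℝ) ^ n * V * ((N : ℝ) + 1) ^ (n + 1) + (n + 1) * r * (C * N) := by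
          have := mul_le_mul_of_nonneg_left h6 (mul_nonneg hpos.le hV0)
          linarith
      _ = (r * (s : ℝ) ^ n * V * (1 + 1 / (N : ℝ)) ^ (n + 1) +
          (n + 1) * r * (C / (N : ℝ) ^ n)) * (N : ℝ) ^ (n + 1) := by
          have e1 : (1 + 1 / (N : ℝ)) ^ (n + 1) * (N : ℝ) ^ (n + 1) = ((N : ℝ) + 1) ^ (n + 1) := by
            rw [← mul_pow]
            congr 1
            field_simp
          have e2 : C / (N : ℝ) ^ n * (N : ℝ) ^ (n + 1) = C * N := by
            rw [pow_succ (N : ℝ) n]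
            field_simp
          rw [← e1, ← e2]
          ring

end LP
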