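import Pool.Agent.Lib.MP_9e8926_ag_LP.LctK
import Pool.Agent.Lib.MP_9e8926_ag_LP.UpG
import Pool.Agent.Lib.MP_9e8926_ag_LP.Opt

set_option autoImplicit false

noncomputable section

namespace LP

open MvPolynomial

theorem volhat_prod_le {n : ℕ} (hn : 1 ≤ n) {ι : Type*} [Fintype ι]
    (f : ι → MvPolynomial (Fin n) ℂ) (hf : ∀ i, f i ≠ 0) (c : ι → ℚ) (hc : ∀ i, 0 ≤ c i)
    (b : ℚ) (hb0 : 0 ≤ b) (hb1 : b < 1) :
    volhat (addF fun i => (emb (f i) : MvPolynomial (Fin (n + 1)) ℂ)) (addC b c) ≤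
      (1 - b : ℝ) * (((n : ℝ) + 1) ^ (n + 1) / (n : ℝ) ^ n) * volhat f c := by
  have hb : (0 : ℝ) < 1 - (b : ℝ) := by
    have h1 : (b : ℝ) < 1 := by exact_mod_cast hb1
    linarith
  have hn0 : (0 : ℝ) < n := by exact_mod_cast hn
  have hK : (0 : ℝ) < (1 - b : ℝ) * (((n : ℝ) + 1) ^ (n + 1) / (n : ℝ) ^ n) := by positivity
  rw [mul_comm, ← div_le_iff₀ hK]
  refine le_csInf ⟨_, m0 n ℂ, isPrim_m0, rfl⟩ ?_
  rintro v ⟨a, ha, rfl⟩
  rw [div_le_iff₀ hK, mul_comm (emult a * lct f c a ^ n)]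
  refine opt n hn _ _ _ (emult_nonneg a ha) (lct_nonneg f c a) hb _ fun s r hs hr => ?_
  have h1 : volhat (addF fun i => (emb (f i) : MvPolynomial (Fin (n + 1)) ℂ)) (addC b c) ≤
      emult (Kid a s r) * lct (addF fun i => (emb (f i) : MvPolynomial (Fin (n + 1)) ℂ))
        (addC b c) (Kid a s r) ^ (n + 1) := by
    refine csInf_le ⟨0, ?_⟩ ⟨Kid a s r, Kid_prim a ha s r hs hr, rfl⟩
    rintro w ⟨I, hI, rfl⟩
    exact mul_nonneg (emult_nonneg I hI) (pow_nonneg (lct_nonneg _ _ I) _)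
  have h2 := Kid_emult a ha s r hs hr
  have h3 := Kid_lct hn f hf c hc b hb0 hb1 a ha s r hs hr
  have h4 := lct_nonneg (addF fun i => (emb (f i) : MvPolynomial (Fin (n + 1)) ℂ))
    (addC b c) (Kid a s r)
  refine h1.trans (mul_le_mul h2 (pow_le_pow_left₀ h4 h3 _) (pow_nonneg h4 _) ?_)
  exact (emult_nonneg _ (Kid_prim a ha s r hs hr)).trans h2

end LP
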