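import Pool.Agent.Lib.MP_9e8926_ag_LP.IterD
import Pool.Agent.Lib.MP_9e8926_ag_LP.Rei
import Pool.Agent.Lib.MP_9e8926_ag_LP.UpF
import Pool.Agent.Lib.MP_9e8926_ag_LP.VolUp

set_option autoImplicit false

noncomputable section

namespace LP

open MvPolynomial

private theorem kc_zero (b : Fin 0 → ℚ) : Kc 0 b = 1 := by
  unfold Kc
  simp
  norm_num

private theorem kc_nonneg (m : ℕ) (b : Fin m → ℚ) (hb1 : ∀ l, b l < 1) : 0 ≤ Kc m b := by
  unfold Kc
  refine mul_nonneg (by positivity) (Finset.prod_nonneg fun l _ => ?_)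
  have : (b l : ℝ) < 1 := by exact_mod_cast hb1 l
  linarith

private theorem zf_zero {k : Type*} [CommRing k] {r : ℕ}
    (f : Fin r → MvPolynomial (Fin 2) k) (b : Fin 0 → ℚ) (c : Fin r → ℚ) :
    (fun i => f (Equiv.emptySum (Fin 0) (Fin r) i)) = zf 0 f ∧
    (fun i => c (Equiv.emptySum (Fin 0) (Fin r) i)) = Sum.elim b c := by
  constructor
  · funext i
    rcases i with l | j
    · exact l.elim0
    · rfl
  · funext i
    rcases i with l | j
    · exact l.elim0
    · rfl

private theorem restr00 {k : Type*} [CommRing k] (f : MvPolynomial (Fin 2) k) :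
    restr0 0 f = f := by
  rw [restr0_zero]
  exact rename_id_apply f

private theorem emb00 {k : Type*} [CommRing k] (f : MvPolynomial (Fin 2) k) :
    (emb0 0 f : MvPolynomial (Fin 2) k) = f := by
  have := restr0_emb0 0 f
  rw [restr00] at this
  exact this

private theorem one_sub_nonneg {b : ℚ} (hb : b < 1) : (0 : ℝ) ≤ 1 - (b : ℝ) := by
  have : (b : ℝ) < 1 := by exact_mod_cast hb
  linarith

theorem low_m {k : Type*} [Field k] [PerfectField k] (p : ℕ) [Fact p.Prime] [CharP k p]
    (m r : ℕ) (f : Fin r → MvPolynomial (Fin (m + 2)) k) (b : Fin m → ℚ) (c : Fin r → ℚ)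
    (hb0 : ∀ l, 0 ≤ b l) (hb1 : ∀ l, b l < 1) (hc : ∀ i, 0 ≤ c i) :
    Kc m b * Fvol p (fun i => restr0 m (f i)) c ≤ Fvol p (zf m f) (Sum.elim b c) := by
  induction m with
  | zero =>
    have h1 := zf_zero f b c
    rw [kc_zero, one_mul, ← h1.2]
    have h2 : zf 0 f = fun i => f (Equiv.emptySum (Fin 0) (Fin r) i) := h1.1.symm
    rw [h2]
    have h3 : Fvol p (fun i => f (Equiv.emptySum (Fin 0) (Fin r) i))
      (fun i => c (Equiv.emptySum (Fin 0) (Fin r) i)) = Fvol p f c :=
      Fvol_reindex p (Equiv.emptySum (Fin 0) (Fin r)) f c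
    rw [h3]
    have h4 : (fun i => restr0 0 (f i)) = f := by
      funext i
      exact restr00 (f i)
    rw [h4]
  | succ m ih =>
    have h1 : Fvol p (zf (m + 1) f) (Sum.elim b c) =
        Fvol p (addF (n := m + 2) (Sum.elim (fun l : Fin m =>
          (X (Fin.castAdd 2 l.succ) : MvPolynomial (Fin (m + 1 + 2)) k)) f))
          (addC (b 0) (Sum.elim (fun l : Fin m => b l.succ) c)) := by
      rw [← Fvol_reindex p (eq1 m r) (zf (m + 1) f) (Sum.elim b c)]
      congr 1
      · funext o
        exact zf_eq1 m f o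
      · funext o
        exact bc_eq1 m r b c o
    have hc' : ∀ i, 0 ≤ (Sum.elim (fun l : Fin m => b l.succ) c : Fin m ⊕ Fin r → ℚ) i := by
      rintro (l | j)
      · exact hb0 l.succ
      · exact hc j
    have h2 := fvol_restr p (n := m + 2) (by omega) (Sum.elim (fun l : Fin m =>
          (X (Fin.castAdd 2 l.succ) : MvPolynomial (Fin (m + 1 + 2)) k)) f)
          (Sum.elim (fun l : Fin m => b l.succ) c) hc' (b 0) (hb0 0) (hb1 0)
    have h3 : (fun i => restr (n := m + 2) (Sum.elim (fun l : Fin m =>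
          (X (Fin.castAdd 2 l.succ) : MvPolynomial (Fin (m + 1 + 2)) k)) f i)) =
        zf m (fun j => restr (n := m + 2) (f j)) := by
      funext i
      exact restr_zf m f i
    have h4 := ih (fun j => restr (n := m + 2) (f j)) (fun l => b l.succ)
      (fun l => hb0 l.succ) (fun l => hb1 l.succ)
    have h5 : (fun i => restr0 (m + 1) (f i)) =
        fun i => restr0 m (restr (n := m + 2) (f i)) := by
      funext i
      exact restr0_succ m (f i)
    rw [h1, h5, Kc_succ, mul_assoc]
    refine le_trans (mul_le_mul_of_nonneg_left h4 ?_) ?_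
    · exact mul_nonneg (one_sub_nonneg (hb1 0)) (by positivity)
    · rw [← h3]
      exact h2

theorem up_m {k : Type*} [Field k] [PerfectField k] (p : ℕ) [Fact p.Prime] [CharP k p]
    (m r : ℕ) (f : Fin r → MvPolynomial (Fin 2) k) (b : Fin m → ℚ) (c : Fin r → ℚ)
    (hb0 : ∀ l, 0 ≤ b l) (hb1 : ∀ l, b l < 1) (hc : ∀ i, 0 ≤ c i) :
    Fvol p (zf m fun i => emb0 m (f i)) (Sum.elim b c) ≤ Kc m b * Fvol p f c := by
  induction m with
  | zero =>
    have h0 : (fun i => (emb0 0 (f i) : MvPolynomial (Fin 2) k)) = f := by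
      funext i
      exact emb00 (f i)
    have h1 := zf_zero f b c
    rw [kc_zero, one_mul, ← h1.2]
    have h2 : zf 0 (fun i => emb0 0 (f i)) =
        fun i => f (Equiv.emptySum (Fin 0) (Fin r) i) := by
      rw [h1.1]
      exact congrArg (zf 0) h0
    rw [h2]
    have h3 : Fvol p (fun i => f (Equiv.emptySum (Fin 0) (Fin r) i))
      (fun i => c (Equiv.emptySum (Fin 0) (Fin r) i)) = Fvol p f c :=
      Fvol_reindex p (Equiv.emptySum (Fin 0) (Fin r)) f c
    exact h3.le
  | succ m ih =>
    have h1 : Fvol p (zf (m + 1) fun i => emb0 (m + 1) (f i)) (Sum.elim b c) =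
        Fvol p (addF (n := m + 2) (Sum.elim (fun l : Fin m =>
          (X (Fin.castAdd 2 l.succ) : MvPolynomial (Fin (m + 1 + 2)) k))
            fun i => emb0 (m + 1) (f i)))
          (addC (b 0) (Sum.elim (fun l : Fin m => b l.succ) c)) := by
      rw [← Fvol_reindex p (eq1 m r) (zf (m + 1) fun i => emb0 (m + 1) (f i)) (Sum.elim b c)]
      congr 1
      · funext o
        exact zf_eq1 m _ o
      · funext o
        exact bc_eq1 m r b c o
    have hc' : ∀ i, 0 ≤ (Sum.elim (fun l : Fin m => b l.succ) c : Fin m ⊕ Fin r → ℚ) i := by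
      rintro (l | j)
      · exact hb0 l.succ
      · exact hc j
    have h3 : (Sum.elim (fun l : Fin m =>
          (X (Fin.castAdd 2 l.succ) : MvPolynomial (Fin (m + 1 + 2)) k))
            fun i => emb0 (m + 1) (f i)) =
        fun i => emb (n := m + 2) (zf m (fun j => emb0 m (f j)) i) := by
      funext i
      rw [emb_zf m (fun j => emb0 m (f j)) i]
      rcases i with l | j
      · rfl
      · exact emb0_succ m (f j)
    have h2 := fvol_prod_le p (n := m + 2) (by omega) (zf m (fun j => emb0 m (f j)))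
          (Sum.elim (fun l : Fin m => b l.succ) c) hc' (b 0) (hb0 0) (hb1 0)
    have h4 := ih (fun l => b l.succ) (fun l => hb0 l.succ) (fun l => hb1 l.succ)
    rw [h1, h3, Kc_succ, mul_assoc]
    refine le_trans h2 (mul_le_mul_of_nonneg_left h4 ?_)
    exact mul_nonneg (one_sub_nonneg (hb1 0)) (by positivity)

theorem vol_m (m r : ℕ) (f : Fin r → MvPolynomial (Fin 2) ℂ) (hf : ∀ i, f i ≠ 0)
    (b : Fin m → ℚ) (c : Fin r → ℚ)
    (hb0 : ∀ l, 0 ≤ b l) (hb1 : ∀ l, b l < 1) (hc : ∀ i, 0 ≤ c i) :
    volhat (zf m fun i => emb0 m (f i)) (Sum.elim b c) ≤ Kc m b * volhat f c := by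
  induction m with
  | zero =>
    have h0 : (fun i => (emb0 0 (f i) : MvPolynomial (Fin 2) ℂ)) = f := by
      funext i
      exact emb00 (f i)
    have h1 := zf_zero f b c
    rw [kc_zero, one_mul, ← h1.2]
    have h2 : zf 0 (fun i => emb0 0 (f i)) =
        fun i => f (Equiv.emptySum (Fin 0) (Fin r) i) := by
      rw [h1.1]
      exact congrArg (zf 0) h0
    rw [h2]
    have h3 : volhat (fun i => f (Equiv.emptySum (Fin 0) (Fin r) i))
      (fun i => c (Equiv.emptySum (Fin 0) (Fin r) i)) = volhat f c :=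
      volhat_reindex (Equiv.emptySum (Fin 0) (Fin r)) f c
    exact h3.le
  | succ m ih =>
    have h1 : volhat (zf (m + 1) fun i => emb0 (m + 1) (f i)) (Sum.elim b c) =
        volhat (addF (n := m + 2) (Sum.elim (fun l : Fin m =>
          (X (Fin.castAdd 2 l.succ) : MvPolynomial (Fin (m + 1 + 2)) ℂ))
            fun i => emb0 (m + 1) (f i)))
          (addC (b 0) (Sum.elim (fun l : Fin m => b l.succ) c)) := by
      rw [← volhat_reindex (eq1 m r) (zf (m + 1) fun i => emb0 (m + 1) (f i)) (Sum.elim b c)]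
      congr 1
      · funext o
        exact zf_eq1 m _ o
      · funext o
        exact bc_eq1 m r b c o
    have hc' : ∀ i, 0 ≤ (Sum.elim (fun l : Fin m => b l.succ) c : Fin m ⊕ Fin r → ℚ) i := by
      rintro (l | j)
      · exact hb0 l.succ
      · exact hc j
    have h3 : (Sum.elim (fun l : Fin m =>
          (X (Fin.castAdd 2 l.succ) : MvPolynomial (Fin (m + 1 + 2)) ℂ))
            fun i => emb0 (m + 1) (f i)) =
        fun i => emb (n := m + 2) (zf m (fun j => emb0 m (f j)) i) := by
      funext i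
      rw [emb_zf m (fun j => emb0 m (f j)) i]
      rcases i with l | j
      · rfl
      · exact emb0_succ m (f j)
    have hne : ∀ i, zf m (fun j => emb0 m (f j)) i ≠ 0 := by
      rintro (l | j)
      · exact X_ne_zero _
      · intro h
        apply hf j
        have h5 := congrArg (restr0 m) (show emb0 m (f j) = 0 from h)
        rwa [restr0_emb0, map_zero] at h5
    have h2 := volhat_prod_le (n := m + 2) (by omega) (zf m (fun j => emb0 m (f j))) hne
          (Sum.elim (fun l : Fin m => b l.succ) c) hc' (b 0) (hb0 0) (hb1 0)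
    have h4 := ih (fun l => b l.succ) (fun l => hb0 l.succ) (fun l => hb1 l.succ)
    rw [h1, h3, Kc_succ, mul_assoc]
    refine le_trans h2 (mul_le_mul_of_nonneg_left h4 ?_)
    exact mul_nonneg (one_sub_nonneg (hb1 0)) (by positivity)

end LP
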