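import Pool.Agent.Lib.MP_9e8926_ag_LP.ZeroN
import Pool.Agent.Lib.MP_9e8926_ag_LP.Bas

set_option autoImplicit false

noncomputable section

namespace LP

open MvPolynomial MeasureTheory

variable {n : ℕ} {ι : Type*} [Fintype ι] (f : ι → MvPolynomial (Fin n) ℂ) (c : ι → ℚ)

private theorem LctA_lip (g : MvPolynomial (Fin n) ℂ) : ∃ C : ℝ, 0 ≤ C ∧
    ∀ z : Fin n → ℂ, ‖z‖ ≤ 1 → ‖eval z g - constantCoeff g‖ ≤ C * ‖z‖ := by
  induction g using MvPolynomial.induction_on with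
  | C a =>
    refine ⟨0, le_rfl, fun z _ => ?_⟩
    simp
  | add p q hp hq =>
    obtain ⟨Cp, hCp, hp⟩ := hp
    obtain ⟨Cq, hCq, hq⟩ := hq
    refine ⟨Cp + Cq, add_nonneg hCp hCq, fun z hz => ?_⟩
    rw [map_add, map_add, add_sub_add_comm, add_mul]
    exact (norm_add_le _ _).trans (add_le_add (hp z hz) (hq z hz))
  | mul_X p i hp =>
    obtain ⟨Cp, hCp, hp⟩ := hp
    refine ⟨‖constantCoeff p‖ + Cp, add_nonneg (norm_nonneg _) hCp, fun z hz => ?_⟩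
    rw [map_mul, map_mul, constantCoeff_X, mul_zero, sub_zero, eval_X, norm_mul]
    have h1 : ‖eval z p‖ ≤ ‖constantCoeff p‖ + Cp := by
      have h2 := hp z hz
      have h3 : ‖eval z p‖ ≤ ‖constantCoeff p‖ + ‖eval z p - constantCoeff p‖ := by
        have := norm_add_le (constantCoeff p) (eval z p - constantCoeff p)
        rwa [add_sub_cancel] at this
      have h4 : Cp * ‖z‖ ≤ Cp := mul_le_of_le_one_right hCp hz
      linarith
    exact mul_le_mul h1 (norm_le_pi_norm z i) (norm_nonneg _)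
      (add_nonneg (norm_nonneg _) hCp)

private theorem LctA_bd (g : MvPolynomial (Fin n) ℂ) : ∃ M : ℝ, 1 ≤ M ∧
    ∀ z : Fin n → ℂ, ‖z‖ ≤ 1 → ‖eval z g‖ ≤ M := by
  obtain ⟨C, hC, h⟩ := LctA_lip g
  refine ⟨1 + ‖constantCoeff g‖ + C, by linarith [norm_nonneg (constantCoeff g)], fun z hz => ?_⟩
  have h2 := h z hz
  have h3 : ‖eval z g‖ ≤ ‖constantCoeff g‖ + ‖eval z g - constantCoeff g‖ := by
    have := norm_add_le (constantCoeff g) (eval z g - constantCoeff g)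
    rwa [add_sub_cancel] at this
  have h4 : C * ‖z‖ ≤ C := mul_le_of_le_one_right hC hz
  linarith

theorem lct_nonneg (I : Ideal (MvPolynomial (Fin n) ℂ)) : 0 ≤ lct f c I :=
  Real.sSup_nonneg fun _ hx => hx.1

private theorem LctA_pos (Γ : Finset (MvPolynomial (Fin n) ℂ))
    (hΓ0 : ∃ N : ℕ, m0 n ℂ ^ N ≤ Ideal.span (Γ : Set (MvPolynomial (Fin n) ℂ)))
    {z : Fin n → ℂ} (hz : z ≠ 0) : 0 < ∑ g ∈ Γ, ‖eval z g‖ ^ 2 := by
  obtain ⟨N, hN⟩ := hΓ0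
  by_contra hcon
  have h0 : ∑ g ∈ Γ, ‖eval z g‖ ^ 2 = 0 :=
    le_antisymm (not_lt.1 hcon) (Finset.sum_nonneg fun g _ => sq_nonneg _)
  have h1 : ∀ g ∈ Γ, eval z g = 0 := by
    intro g hg
    have := (Finset.sum_eq_zero_iff_of_nonneg fun g _ => sq_nonneg _).1 h0 g hg
    exact norm_eq_zero.1 (pow_eq_zero_iff two_ne_zero |>.1 this)
  have h2 : Ideal.span (Γ : Set (MvPolynomial (Fin n) ℂ)) ≤ RingHom.ker (eval z) := by
    rw [Ideal.span_le]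
    intro g hg
    exact h1 g hg
  apply hz
  funext i
  have h3 : (X i : MvPolynomial (Fin n) ℂ) ^ N ∈ m0 n ℂ ^ N := by
    apply Ideal.pow_mem_pow
    rw [mem_m0, constantCoeff_X]
  have h4 : eval z ((X i : MvPolynomial (Fin n) ℂ) ^ N) = 0 := h2 (hN h3)
  rw [map_pow, eval_X] at h4
  by_cases hN0 : N = 0
  · rw [hN0, pow_zero] at h4
    exact absurd h4 one_ne_zero
  · exact (pow_eq_zero_iff hN0).1 h4

/-- The integral diverges for `t ≥ n`. -/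
theorem int_lt (hn : 1 ≤ n) (hf : ∀ i, f i ≠ 0) (hc : ∀ i, 0 ≤ c i)
    (Γ : Finset (MvPolynomial (Fin n) ℂ)) (hΓ : Ideal.span (Γ : Set (MvPolynomial (Fin n) ℂ)) ≤ m0 n ℂ)
    (hΓ0 : ∃ N : ℕ, m0 n ℂ ^ N ≤ Ideal.span (Γ : Set (MvPolynomial (Fin n) ℂ)))
    (t : ℝ) (h : IntNear (fun z => (∏ i, ‖eval z (f i)‖ ^ (-(2 * (c i : ℝ)))) *
      (∑ g ∈ Γ, ‖eval z g‖ ^ 2) ^ (-t))) : t < n := by
  by_contra hcon
  have ht : (n : ℝ) ≤ t := not_lt.1 hcon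
  have hn1 : (1 : ℝ) ≤ n := by exact_mod_cast hn
  obtain ⟨ρ, hρ, hint⟩ := h
  set ρ' : ℝ := min ρ 1 with hρ'
  have hρ0 : 0 < ρ' := lt_min hρ one_pos
  have hint' := hint.mono_set (Metric.ball_subset_ball (x := (0 : Fin n → ℂ)) (min_le_left ρ 1))
  -- constants
  choose M hM1 hM using fun i => LctA_bd (f i)
  choose C hC0 hC using fun g : MvPolynomial (Fin n) ℂ => LctA_lip g
  set C' : ℝ := 1 + ∑ g ∈ Γ, C g ^ 2 with hC'
  have hC'0 : 0 < C' := by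
    have : 0 ≤ ∑ g ∈ Γ, C g ^ 2 := Finset.sum_nonneg fun g _ => sq_nonneg _
    linarith
  set κ : ℝ := (∏ i, M i ^ (-(2 * (c i : ℝ)))) * C' ^ (-t) with hκ
  have hκ0 : 0 < κ := mul_pos (Finset.prod_pos fun i _ =>
    Real.rpow_pos_of_pos (by linarith [hM1 i]) _) (Real.rpow_pos_of_pos hC'0 _)
  have hsum : ∀ z : Fin n → ℂ, ‖z‖ ≤ 1 → ∑ g ∈ Γ, ‖eval z g‖ ^ 2 ≤ C' * ‖z‖ ^ 2 := by
    intro z hz
    have h1 : ∀ g ∈ Γ, ‖eval z g‖ ^ 2 ≤ C g ^ 2 * ‖z‖ ^ 2 := by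
      intro g hg
      have h2 : constantCoeff g = 0 := mem_m0.1 (hΓ (Ideal.subset_span hg))
      have h3 := hC g z hz
      rw [h2, sub_zero] at h3
      rw [← mul_pow]
      exact pow_le_pow_left₀ (norm_nonneg _) h3 2
    calc ∑ g ∈ Γ, ‖eval z g‖ ^ 2 ≤ ∑ g ∈ Γ, C g ^ 2 * ‖z‖ ^ 2 := Finset.sum_le_sum h1
      _ = (∑ g ∈ Γ, C g ^ 2) * ‖z‖ ^ 2 := by rw [Finset.sum_mul]
      _ ≤ C' * ‖z‖ ^ 2 := mul_le_mul_of_nonneg_right (by linarith) (sq_nonneg _)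
  have hne : Nonempty (Fin n) := ⟨⟨0, hn⟩⟩
  have hnt : Nontrivial (Fin n → ℂ) := inferInstance
  have hfin : Module.finrank ℝ (Fin n → ℂ) = 2 * n := by
    rw [Module.finrank_pi_fintype]
    simp [Complex.finrank_real_complex, mul_comm]
  -- the lower bound
  have hlow : ∀ᵐ z : Fin n → ℂ ∂(volume.restrict (Metric.ball 0 ρ')),
      ‖κ * ‖z‖ ^ (-(2 * (n : ℝ)))‖ ≤ (∏ i, ‖eval z (f i)‖ ^ (-(2 * (c i : ℝ)))) *
        (∑ g ∈ Γ, ‖eval z g‖ ^ 2) ^ (-t) := by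
    have h1 : ∀ᵐ z : Fin n → ℂ ∂(volume.restrict (Metric.ball 0 ρ')), ∀ i, eval z (f i) ≠ 0 := by
      refine ae_restrict_of_ae ?_
      rw [ae_all_iff]
      intro i
      rw [ae_iff]
      simpa only [not_not] using volume_zero (f i) (hf i)
    have h2 : ∀ᵐ z : Fin n → ℂ ∂(volume.restrict (Metric.ball 0 ρ')), z ≠ 0 :=
      ae_restrict_of_ae (compl_mem_ae_iff.2 (measure_singleton 0))
    filter_upwards [h1, h2, ae_restrict_mem Metric.isOpen_ball.measurableSet] with z hz1 hz2 hz3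
    rw [mem_ball_zero_iff] at hz3
    have hz : ‖z‖ ≤ 1 := hz3.le.trans (min_le_right _ _)
    have hz0 : 0 < ‖z‖ := norm_pos_iff.2 hz2
    rw [Real.norm_of_nonneg (mul_nonneg hκ0.le (Real.rpow_nonneg hz0.le _)), hκ, mul_assoc]
    refine mul_le_mul ?_ ?_ (by positivity) (Finset.prod_nonneg fun i _ =>
      Real.rpow_nonneg (norm_nonneg _) _)
    · refine Finset.prod_le_prod (fun i _ => Real.rpow_nonneg (by linarith [hM1 i]) _) fun i _ => ?_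
      refine Real.rpow_le_rpow_of_nonpos (norm_pos_iff.2 (hz1 i)) (hM i z hz) ?_
      have : (0 : ℝ) ≤ c i := by exact_mod_cast hc i
      linarith
    · have h3 : C' ^ (-t) * ‖z‖ ^ (-(2 * (n : ℝ))) ≤ (C' * ‖z‖ ^ 2) ^ (-t) := by
        rw [Real.mul_rpow hC'0.le (sq_nonneg _), ← Real.rpow_natCast ‖z‖ 2,
          ← Real.rpow_mul hz0.le]
        refine mul_le_mul_of_nonneg_left ?_ (Real.rpow_nonneg hC'0.le _)
        refine Real.rpow_le_rpow_of_exponent_ge hz0 hz ?_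
        push_cast
        linarith
      exact h3.trans (Real.rpow_le_rpow_of_nonpos (LctA_pos Γ hΓ0 hz2) (hsum z hz) (by linarith))
  have hI : IntegrableOn (fun z : Fin n → ℂ => κ * ‖z‖ ^ (-(2 * (n : ℝ)))) (Metric.ball 0 ρ') := by
    refine Integrable.mono' hint' ?_ hlow
    apply Measurable.aestronglyMeasurable
    fun_prop
  have hJ := (integrableOn_fun_norm_addHaar (μ := (volume : Measure (Fin n → ℂ)))
    (f := fun y : ℝ => κ * y ^ (-(2 * (n : ℝ)))) (r := ρ')).1 hI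
  have hK : IntegrableOn (fun y : ℝ => y ^ (-1 : ℝ)) (Set.Ioo 0 ρ') := by
    have h5 := hJ.const_mul κ⁻¹
    refine IntegrableOn.congr_fun h5 (fun y hy => ?_) measurableSet_Ioo
    have hy0 : 0 < y := hy.1
    show κ⁻¹ * (y ^ (Module.finrank ℝ (Fin n → ℂ) - 1) • (κ * y ^ (-(2 * (n : ℝ))))) =
      y ^ (-1 : ℝ)
    rw [hfin, smul_eq_mul, ← Real.rpow_natCast y (2 * n - 1), Nat.cast_sub (by omega)]
    have h6 : κ⁻¹ * (y ^ (((2 * n : ℕ) : ℝ) - ((1 : ℕ) : ℝ)) * (κ * y ^ (-(2 * (n : ℝ))))) =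
        (κ⁻¹ * κ) * (y ^ (((2 * n : ℕ) : ℝ) - ((1 : ℕ) : ℝ)) * y ^ (-(2 * (n : ℝ)))) := by ring
    rw [h6, inv_mul_cancel₀ hκ0.ne', one_mul, ← Real.rpow_add hy0]
    congr 1
    push_cast
    ring
  rw [intervalIntegral.integrableOn_Ioo_rpow_iff hρ0] at hK
  exact lt_irrefl _ hK

theorem le_lct (hn : 1 ≤ n) (hf : ∀ i, f i ≠ 0) (hc : ∀ i, 0 ≤ c i)
    (I : Ideal (MvPolynomial (Fin n) ℂ)) (hI : IsPrim I)
    (Γ : Finset (MvPolynomial (Fin n) ℂ)) (hΓ : Ideal.span (Γ : Set (MvPolynomial (Fin n) ℂ)) = I)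
    (t : ℝ) (ht : 0 ≤ t) (h : IntNear (fun z => (∏ i, ‖eval z (f i)‖ ^ (-(2 * (c i : ℝ)))) *
      (∑ g ∈ Γ, ‖eval z g‖ ^ 2) ^ (-t))) : t ≤ lct f c I := by
  refine le_csSup ⟨n, ?_⟩ ⟨ht, Γ, hΓ, h⟩
  rintro t' ⟨-, Γ', hΓ', h'⟩
  exact (int_lt f c hn hf hc Γ' (hΓ' ▸ hI.1) (hΓ' ▸ hI.2) t' h').le

end LP
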