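import Mathlib

set_option autoImplicit false

noncomputable section

namespace LP

open MeasureTheory

/-- the lower bound for the integrand -/
private theorem lctI_key (b : ℝ) (hb0 : 0 ≤ b) (r : ℕ) (T : ℝ) (hT : 0 ≤ T) {G x : ℝ}
    (hG0 : 0 < G) (hx0 : 0 < x) (hxG : x ≤ G) :
    G ^ (-(2 * b)) * (2 * G ^ (2 * r)) ^ (-T) ≤
      x ^ (-(2 * b)) * (G ^ (2 * r) + x ^ (2 * r)) ^ (-T) := by
  have hGr : 0 < G ^ (2 * r) := pow_pos hG0 _
  have hxr : 0 < x ^ (2 * r) := pow_pos hx0 _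
  have hle : x ^ (2 * r) ≤ G ^ (2 * r) := pow_le_pow_left₀ hx0.le hxG _
  refine mul_le_mul ?_ ?_ (Real.rpow_nonneg (by positivity) _) (Real.rpow_nonneg hx0.le _)
  · exact Real.rpow_le_rpow_of_nonpos hx0 hxG (by linarith)
  · exact Real.rpow_le_rpow_of_nonpos (by positivity) (by linarith) (by linarith)

/-- the value of the constant -/
private theorem lctI_val (b : ℝ) (r : ℕ) (T : ℝ) {G : ℝ} (hG0 : 0 < G) :
    Real.pi * 2 ^ (-T) * G ^ (2 * (1 - b) - 2 * r * T) =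
      G ^ (-(2 * b)) * (2 * G ^ (2 * r)) ^ (-T) * (G ^ 2 * Real.pi) := by
  rw [Real.mul_rpow two_pos.le (pow_pos hG0 _).le, ← Real.rpow_natCast G (2 * r),
    ← Real.rpow_mul hG0.le, ← Real.rpow_natCast G 2]
  have h1 : G ^ (2 * (1 - b) - 2 * r * T) =
      G ^ (-(2 * b)) * G ^ (((2 * r : ℕ) : ℝ) * -T) * G ^ ((2 : ℕ) : ℝ) := by
    rw [← Real.rpow_add hG0, ← Real.rpow_add hG0]
    congr 1
    push_cast
    ring
  rw [h1]
  ring

/-- The inner integral. -/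
theorem inner_int (b : ℝ) (hb0 : 0 ≤ b) (r : ℕ) (T : ℝ) (hT : 0 ≤ T) (ρ : ℝ)
    (G : ℝ) (hG0 : 0 < G) (hG : G ≤ ρ) :
    ENNReal.ofReal (Real.pi * 2 ^ (-T) * G ^ (2 * (1 - b) - 2 * r * T)) ≤
      ∫⁻ z in Metric.ball (0 : ℂ) ρ,
        ENNReal.ofReal (‖z‖ ^ (-(2 * b)) * (G ^ (2 * r) + ‖z‖ ^ (2 * r)) ^ (-T)) := by
  have hc : 0 ≤ G ^ (-(2 * b)) * (2 * G ^ (2 * r)) ^ (-T) :=
    mul_nonneg (Real.rpow_nonneg hG0.le _) (Real.rpow_nonneg (by positivity) _)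
  have hvol : volume (Metric.ball (0 : ℂ) G \ {0}) = ENNReal.ofReal (G ^ 2 * Real.pi) := by
    rw [measure_diff_null (measure_singleton 0), Complex.volume_ball,
      ENNReal.ofReal_mul (by positivity), ENNReal.ofReal_pow hG0.le]
    congr 1
    exact (ENNReal.ofReal_coe_nnreal (p := NNReal.pi)).symm
  have hms : MeasurableSet (Metric.ball (0 : ℂ) G \ {0}) :=
    Metric.isOpen_ball.measurableSet.diff (measurableSet_singleton 0)
  calc ENNReal.ofReal (Real.pi * 2 ^ (-T) * G ^ (2 * (1 - b) - 2 * r * T))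
      = ENNReal.ofReal (G ^ (-(2 * b)) * (2 * G ^ (2 * r)) ^ (-T)) *
          volume (Metric.ball (0 : ℂ) G \ {0}) := by
        rw [hvol, ← ENNReal.ofReal_mul hc, lctI_val b r T hG0]
    _ = ∫⁻ _ in Metric.ball (0 : ℂ) G \ {0},
          ENNReal.ofReal (G ^ (-(2 * b)) * (2 * G ^ (2 * r)) ^ (-T)) := by
        rw [setLIntegral_const]
    _ ≤ ∫⁻ z in Metric.ball (0 : ℂ) G \ {0},
          ENNReal.ofReal (‖z‖ ^ (-(2 * b)) * (G ^ (2 * r) + ‖z‖ ^ (2 * r)) ^ (-T)) := by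
        refine setLIntegral_mono' hms fun z hz => ENNReal.ofReal_le_ofReal ?_
        have h1 : ‖z‖ < G := by
          have := hz.1
          rwa [mem_ball_zero_iff] at this
        have h2 : 0 < ‖z‖ := norm_pos_iff.2 hz.2
        exact lctI_key b hb0 r T hT hG0 h2 h1.le
    _ ≤ _ := lintegral_mono_set
        (Set.diff_subset.trans (Metric.ball_subset_ball hG))

end LP
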