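import Pool.Agent.Lib.MP_9e8926_ag_LP.UpE

set_option autoImplicit false

noncomputable section

namespace LP

open MvPolynomial

private theorem eval_bdd {m : ℕ} (g : MvPolynomial (Fin m) ℂ) :
    ∃ B : ℝ, 0 ≤ B ∧ ∀ z : Fin m → ℂ, ‖z‖ ≤ 1 → ‖eval z g‖ ≤ B := by
  obtain ⟨B, hB⟩ := (isCompact_closedBall (0 : Fin m → ℂ) 1).exists_bound_of_continuousOn
    (f := fun z => eval z g) (MvPolynomial.continuous_eval g).continuousOn
  refine ⟨B, ?_, fun z hz => hB z (by rwa [mem_closedBall_zero_iff])⟩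
  exact le_trans (norm_nonneg _) (hB 0 (by simp))

/-- The polynomials whose squared absolute value is bounded by a multiple of `W`. -/
private def bdI {m : ℕ} (W : (Fin m → ℂ) → ℝ) (hW : ∀ z, 0 ≤ W z) :
    Ideal (MvPolynomial (Fin m) ℂ) where
  carrier := {g | ∃ C : ℝ, 0 ≤ C ∧ ∀ z : Fin m → ℂ, ‖z‖ ≤ 1 → ‖eval z g‖ ^ 2 ≤ C * W z}
  zero_mem' := ⟨0, le_rfl, fun z _ => by simp⟩
  add_mem' := by
    rintro g h ⟨C, hC, h1⟩ ⟨D, hD, h2⟩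
    refine ⟨2 * (C + D), by positivity, fun z hz => ?_⟩
    have h3 := h1 z hz
    have h4 := h2 z hz
    have h5 : ‖eval z (g + h)‖ ≤ ‖eval z g‖ + ‖eval z h‖ := by
      rw [map_add]
      exact norm_add_le _ _
    have h6 : ‖eval z (g + h)‖ ^ 2 ≤ (‖eval z g‖ + ‖eval z h‖) ^ 2 :=
      pow_le_pow_left₀ (norm_nonneg _) h5 2
    nlinarith [sq_nonneg (‖eval z g‖ - ‖eval z h‖)]
  smul_mem' := by
    rintro g h ⟨C, hC, h1⟩
    obtain ⟨B, hB, h2⟩ := eval_bdd g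
    refine ⟨B ^ 2 * C, by positivity, fun z hz => ?_⟩
    rw [smul_eq_mul, map_mul, norm_mul, mul_pow, mul_assoc]
    exact mul_le_mul (pow_le_pow_left₀ (norm_nonneg _) (h2 z hz) 2) (h1 z hz) (by positivity)
      (by positivity)

private theorem mem_bdI {m : ℕ} {W : (Fin m → ℂ) → ℝ} {hW : ∀ z, 0 ≤ W z}
    {g : MvPolynomial (Fin m) ℂ} : g ∈ bdI W hW ↔
    ∃ C : ℝ, 0 ≤ C ∧ ∀ z : Fin m → ℂ, ‖z‖ ≤ 1 → ‖eval z g‖ ^ 2 ≤ C * W z := Iff.rfl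

private theorem pow_le_bdI {n : ℕ} (Γa : Finset (MvPolynomial (Fin n) ℂ)) (s : ℕ) :
    Ideal.span (Γa : Set (MvPolynomial (Fin n) ℂ)) ^ s ≤
      bdI (fun z => (∑ h ∈ Γa, ‖eval z h‖ ^ 2) ^ s) (fun z => by positivity) := by
  induction s with
  | zero =>
    intro g _
    obtain ⟨B, hB, h2⟩ := eval_bdd g
    refine mem_bdI.2 ⟨B ^ 2, by positivity, fun z hz => ?_⟩
    rw [pow_zero, mul_one]
    exact pow_le_pow_left₀ (norm_nonneg _) (h2 z hz) 2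
  | succ s ih =>
    rw [pow_succ, Ideal.mul_le]
    intro g hg h hh
    obtain ⟨C, hC, h1⟩ := mem_bdI.1 (ih hg)
    have h3 : Ideal.span (Γa : Set (MvPolynomial (Fin n) ℂ)) ≤
        bdI (fun z => ∑ h ∈ Γa, ‖eval z h‖ ^ 2) (fun z => by positivity) := by
      rw [Ideal.span_le]
      intro x hx
      refine mem_bdI.2 ⟨1, zero_le_one, fun z _ => ?_⟩
      rw [one_mul]
      exact Finset.single_le_sum (f := fun h => ‖eval z h‖ ^ 2) (fun i _ => by positivity) hx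
    obtain ⟨D, hD, h2⟩ := mem_bdI.1 (h3 hh)
    refine mem_bdI.2 ⟨C * D, by positivity, fun z hz => ?_⟩
    have h4 := h1 z hz
    have h5 := h2 z hz
    rw [map_mul, norm_mul, mul_pow, pow_succ]
    calc ‖eval z g‖ ^ 2 * ‖eval z h‖ ^ 2 ≤
          (C * (∑ h ∈ Γa, ‖eval z h‖ ^ 2) ^ s) * (D * ∑ h ∈ Γa, ‖eval z h‖ ^ 2) :=
          mul_le_mul h4 h5 (by positivity) (by positivity)
      _ = _ := by ring

theorem kid_upper {n : ℕ} (a : Ideal (MvPolynomial (Fin n) ℂ)) (s r : ℕ)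
    (Γa : Finset (MvPolynomial (Fin n) ℂ))
    (hΓa : Ideal.span (Γa : Set (MvPolynomial (Fin n) ℂ)) = a)
    (Γ : Finset (MvPolynomial (Fin (n + 1)) ℂ))
    (hΓ : Ideal.span (Γ : Set (MvPolynomial (Fin (n + 1)) ℂ)) = Kid a s r) :
    ∃ C : ℝ, 0 < C ∧ ∀ z : Fin (n + 1) → ℂ, ‖z‖ ≤ 1 → ∑ g ∈ Γ, ‖eval z g‖ ^ 2 ≤
      C * ((∑ h ∈ Γa, ‖eval (Fin.tail z) h‖ ^ 2) ^ s + ‖z 0‖ ^ (2 * r)) := by
  have hW : ∀ z : Fin (n + 1) → ℂ,
      0 ≤ (∑ h ∈ Γa, ‖eval (Fin.tail z) h‖ ^ 2) ^ s + ‖z 0‖ ^ (2 * r) := fun z => by positivity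
  have hK : Kid a s r ≤ bdI _ hW := by
    unfold Kid
    refine sup_le ?_ ?_
    · rw [Ideal.map_le_iff_le_comap]
      intro h hh
      rw [Ideal.mem_comap]
      rw [← hΓa] at hh
      obtain ⟨C, hC, h1⟩ := mem_bdI.1 (pow_le_bdI Γa s hh)
      refine mem_bdI.2 ⟨C, hC, fun z hz => ?_⟩
      have h2 : ‖Fin.tail z‖ ≤ 1 := by
        refine (pi_norm_le_iff_of_nonneg zero_le_one).2 fun i => ?_
        exact (norm_le_pi_norm z i.succ).trans hz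
      have h3 : eval z (emb h) = eval (Fin.tail z) h := by
        unfold emb
        rw [eval_rename]
        rfl
      rw [h3]
      refine (h1 _ h2).trans (mul_le_mul_of_nonneg_left ?_ hC)
      exact le_add_of_nonneg_right (by positivity)
    · rw [Ideal.span_le, Set.singleton_subset_iff]
      refine mem_bdI.2 ⟨1, zero_le_one, fun z hz => ?_⟩
      rw [map_pow, eval_X, norm_pow, one_mul, ← pow_mul, mul_comm r 2]
      exact le_add_of_nonneg_left (by positivity)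
  have hg : ∀ g : MvPolynomial (Fin (n + 1)) ℂ, ∃ C : ℝ, 0 ≤ C ∧ (g ∈ Γ →
      ∀ z : Fin (n + 1) → ℂ, ‖z‖ ≤ 1 → ‖eval z g‖ ^ 2 ≤
        C * ((∑ h ∈ Γa, ‖eval (Fin.tail z) h‖ ^ 2) ^ s + ‖z 0‖ ^ (2 * r))) := by
    intro g
    by_cases h : g ∈ Γ
    · obtain ⟨C, hC, h1⟩ := mem_bdI.1 (hK (hΓ ▸ Ideal.subset_span h))
      exact ⟨C, hC, fun _ => h1⟩
    · exact ⟨0, le_rfl, fun h' => absurd h' h⟩
  choose C hC h1 using hg
  refine ⟨∑ g ∈ Γ, C g + 1, ?_, fun z hz => ?_⟩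
  · have := Finset.sum_nonneg fun g (_ : g ∈ Γ) => hC g
    linarith
  · calc ∑ g ∈ Γ, ‖eval z g‖ ^ 2 ≤ ∑ g ∈ Γ,
          C g * ((∑ h ∈ Γa, ‖eval (Fin.tail z) h‖ ^ 2) ^ s + ‖z 0‖ ^ (2 * r)) :=
          Finset.sum_le_sum fun g hg => h1 g hg z hz
      _ = (∑ g ∈ Γ, C g) * ((∑ h ∈ Γa, ‖eval (Fin.tail z) h‖ ^ 2) ^ s + ‖z 0‖ ^ (2 * r)) :=
          (Finset.sum_mul _ _ _).symm
      _ ≤ _ := mul_le_mul_of_nonneg_right (by linarith) (hW z)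

end LP
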