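import Pool.Agent.Lib.MP_9e8926_ag_LP.LctA
import Pool.Agent.Lib.MP_9e8926_ag_LP.LctU
import Pool.Agent.Lib.MP_9e8926_ag_LP.LctI

set_option autoImplicit false

noncomputable section

namespace LP

open MvPolynomial MeasureTheory

private theorem lctK_eval_emb {n : ℕ} (g : MvPolynomial (Fin n) ℂ) (z : Fin (n + 1) → ℂ) :
    eval z (emb g) = eval (Fin.tail z) g := by
  unfold emb
  rw [eval_rename]
  rfl

/-- The analytic part. -/
private theorem lctK_core {n : ℕ} (P : (Fin n → ℂ) → ℝ) (hPm : Measurable P) (hP : ∀ w, 0 ≤ P w)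
    (S : (Fin n → ℂ) → ℝ) (hSc : Continuous S) (hS0 : S 0 = 0) (hS : ∀ w, 0 ≤ S w)
    (b : ℝ) (hb0 : 0 ≤ b) (s r : ℕ) (hs : 1 ≤ s) (hr : 1 ≤ r) (T : ℝ) (hT : 0 ≤ T)
    (hpos : 0 < s * T - s * (1 - b) / r) (C : ℝ) (hC : 0 < C) (E : (Fin (n + 1) → ℂ) → ℝ)
    (hE : ∀ z, ‖z‖ ≤ 1 → E z ≤ C * (S (Fin.tail z) ^ s + ‖z 0‖ ^ (2 * r)))
    (hE0 : ∀ z, z 0 ≠ 0 → 0 < E z)
    (h : IntNear fun z => (‖z 0‖ ^ (-(2 * b)) * P (Fin.tail z)) * E z ^ (-T)) :
    IntNear fun w => P w * S w ^ (-(s * T - s * (1 - b) / r)) := by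
  obtain ⟨ρ, hρ, hi⟩ := h
  set ρ' : ℝ := min ρ 1 with hρ'
  have hρ'0 : 0 < ρ' := lt_min hρ one_pos
  have hrR : (0 : ℝ) < r := by exact_mod_cast (show 0 < r by omega)
  have hsR : (0 : ℝ) < s := by exact_mod_cast (show 0 < s by omega)
  have hi' := hi.mono_set (Metric.ball_subset_ball (min_le_left ρ 1))
  have hfin := hi'.lintegral_lt_top
  set L : ℂ × (Fin n → ℂ) → ℝ := fun p => P p.2 * C ^ (-T) *
    (‖p.1‖ ^ (-(2 * b)) * (S p.2 ^ s + ‖p.1‖ ^ (2 * r)) ^ (-T)) with hL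
  have hLm : Measurable L := by
    refine ((hPm.comp measurable_snd).mul_const _).mul ((measurable_fst.norm.pow_const _).mul ?_)
    exact (((hSc.measurable.comp measurable_snd).pow_const _).add
      (measurable_fst.norm.pow_const _)).pow_const _
  set e := MeasurableEquiv.piFinSuccAbove (fun _ : Fin (n + 1) => ℂ) 0 with he
  have hmp : MeasurePreserving e :=
    volume_preserving_piFinSuccAbove (fun _ : Fin (n + 1) => ℂ) 0
  have hez : ∀ z, e z = (z 0, Fin.tail z) := by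
    intro z
    rfl
  have hball : Metric.ball (0 : Fin (n + 1) → ℂ) ρ' =
      e ⁻¹' (Metric.ball (0 : ℂ) ρ' ×ˢ Metric.ball (0 : Fin n → ℂ) ρ') := by
    ext z
    rw [Set.mem_preimage, hez]
    simp only [Set.mem_prod, mem_ball_zero_iff]
    rw [pi_norm_lt_iff hρ'0, pi_norm_lt_iff hρ'0, Fin.forall_fin_succ]
    rfl
  have h1 : ∫⁻ p in Metric.ball (0 : ℂ) ρ' ×ˢ Metric.ball (0 : Fin n → ℂ) ρ',
      ENNReal.ofReal (L p) < ⊤ := by
    rw [← hmp.setLIntegral_comp_preimage_emb e.measurableEmbedding, ← hball]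
    refine lt_of_le_of_lt ?_ hfin
    refine lintegral_mono_ae ?_
    have hz0 : ∀ᵐ z : Fin (n + 1) → ℂ, z 0 ≠ 0 := by
      have := volume_zero (X 0 : MvPolynomial (Fin (n + 1)) ℂ) (X_ne_zero 0)
      simp only [eval_X] at this
      rw [ae_iff]
      simpa using this
    filter_upwards [ae_restrict_of_ae hz0, ae_restrict_mem Metric.isOpen_ball.measurableSet]
      with z hz hzb
    refine ENNReal.ofReal_le_ofReal ?_
    have hz1 : ‖z‖ ≤ 1 := (mem_ball_zero_iff.1 hzb).le.trans (min_le_right _ _)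
    have hle := hE z hz1
    have hEp := hE0 z hz
    have hpos' : 0 ≤ S (Fin.tail z) ^ s + ‖z 0‖ ^ (2 * r) :=
      add_nonneg (pow_nonneg (hS _) _) (pow_nonneg (norm_nonneg _) _)
    have h2 : C ^ (-T) * (S (Fin.tail z) ^ s + ‖z 0‖ ^ (2 * r)) ^ (-T) ≤ E z ^ (-T) := by
      rw [← Real.mul_rpow hC.le hpos']
      exact Real.rpow_le_rpow_of_nonpos hEp hle (by linarith)
    rw [hez]
    calc L (z 0, Fin.tail z) = (‖z 0‖ ^ (-(2 * b)) * P (Fin.tail z)) *
          (C ^ (-T) * (S (Fin.tail z) ^ s + ‖z 0‖ ^ (2 * r)) ^ (-T)) := by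
            simp only [hL]
            ring
      _ ≤ _ := mul_le_mul_of_nonneg_left h2
          (mul_nonneg (Real.rpow_nonneg (norm_nonneg _) _) (hP _))
  rw [Measure.volume_eq_prod, ← Measure.prod_restrict,
    lintegral_prod_symm' _ hLm.ennreal_ofReal] at h1
  -- the exponent
  set t : ℝ := s * T - s * (1 - b) / r with ht
  have hGc : Continuous fun w => S w ^ ((s : ℝ) / (2 * r)) :=
    hSc.rpow_const fun w => Or.inr (by positivity)
  have hG0 : S 0 ^ ((s : ℝ) / (2 * r)) < ρ' := by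
    rw [hS0, Real.zero_rpow (by positivity)]
    exact hρ'0
  obtain ⟨δ, hδ, hδ'⟩ := Metric.eventually_nhds_iff_ball.1
    (hGc.continuousAt.eventually (gt_mem_nhds hG0))
  set κ : ℝ := Real.pi * 2 ^ (-T) * C ^ (-T) with hκ
  have hκ0 : 0 < κ := by positivity
  have hkey : ∀ w ∈ Metric.ball (0 : Fin n → ℂ) δ, ENNReal.ofReal (κ * (P w * S w ^ (-t))) ≤
      ∫⁻ z in Metric.ball (0 : ℂ) ρ', ENNReal.ofReal (L (z, w)) := by
    intro w hw
    rcases (hS w).eq_or_lt with h0 | h0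
    · rw [← h0, Real.zero_rpow (by linarith)]
      simp
    have hG := inner_int b hb0 r T hT ρ' (S w ^ ((s : ℝ) / (2 * r))) (Real.rpow_pos_of_pos h0 _)
      (hδ' w hw).le
    have hG1 : (S w ^ ((s : ℝ) / (2 * r))) ^ (2 * r) = S w ^ s := by
      rw [← Real.rpow_natCast, ← Real.rpow_mul h0.le, ← Real.rpow_natCast]
      congr 1
      push_cast
      field_simp
    have hG2 : (S w ^ ((s : ℝ) / (2 * r))) ^ (2 * (1 - b) - 2 * r * T) = S w ^ (-t) := by
      rw [← Real.rpow_mul h0.le]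
      congr 1
      rw [ht]
      field_simp
      ring
    rw [hG1, hG2] at hG
    have hPC : 0 ≤ P w * C ^ (-T) := mul_nonneg (hP w) (Real.rpow_nonneg hC.le _)
    have e1 : κ * (P w * S w ^ (-t)) = (P w * C ^ (-T)) * (Real.pi * 2 ^ (-T) * S w ^ (-t)) := by
      rw [hκ]
      ring
    rw [e1, ENNReal.ofReal_mul hPC]
    have e2 : ∫⁻ z in Metric.ball (0 : ℂ) ρ', ENNReal.ofReal (L (z, w)) =
        ENNReal.ofReal (P w * C ^ (-T)) * ∫⁻ z in Metric.ball (0 : ℂ) ρ',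
          ENNReal.ofReal (‖z‖ ^ (-(2 * b)) * (S w ^ s + ‖z‖ ^ (2 * r)) ^ (-T)) := by
      rw [← lintegral_const_mul' _ _ ENNReal.ofReal_ne_top]
      refine lintegral_congr fun z => ?_
      rw [← ENNReal.ofReal_mul hPC]
    rw [e2]
    gcongr
  set δ' : ℝ := min δ ρ' with hδ''
  refine ⟨δ', lt_min hδ hρ'0, ?_⟩
  have hFm : Measurable fun w => κ * (P w * S w ^ (-t)) :=
    (hPm.mul (hSc.measurable.pow_const _)).const_mul _
  have hnn : ∀ w, 0 ≤ κ * (P w * S w ^ (-t)) := fun w =>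
    mul_nonneg hκ0.le (mul_nonneg (hP w) (Real.rpow_nonneg (hS w) _))
  have hint : Integrable (fun w => κ * (P w * S w ^ (-t)))
      (volume.restrict (Metric.ball (0 : Fin n → ℂ) δ')) := by
    refine (lintegral_ofReal_ne_top_iff_integrable hFm.aestronglyMeasurable
      (Filter.Eventually.of_forall hnn)).1 (ne_of_lt ?_)
    refine lt_of_le_of_lt ?_ h1
    refine (setLIntegral_mono' Metric.isOpen_ball.measurableSet fun w hw =>
      hkey w (Metric.ball_subset_ball (min_le_left _ _) hw)).trans ?_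
    exact lintegral_mono_set (Metric.ball_subset_ball (min_le_right _ _))
  have := hint.const_mul κ⁻¹
  refine this.congr (Filter.Eventually.of_forall fun w => ?_)
  show κ⁻¹ * (κ * (P w * S w ^ (-t))) = _
  rw [← mul_assoc, inv_mul_cancel₀ hκ0.ne', one_mul]

theorem Kid_lct {n : ℕ} (hn : 1 ≤ n) {ι : Type*} [Fintype ι] (f : ι → MvPolynomial (Fin n) ℂ)
    (hf : ∀ i, f i ≠ 0) (c : ι → ℚ) (hc : ∀ i, 0 ≤ c i) (b : ℚ) (hb0 : 0 ≤ b) (hb1 : b < 1)
    (a : Ideal (MvPolynomial (Fin n) ℂ)) (ha : IsPrim a) (s r : ℕ) (hs : 1 ≤ s) (hr : 1 ≤ r) :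
    lct (addF fun i => (emb (f i) : MvPolynomial (Fin (n + 1)) ℂ)) (addC b c) (Kid a s r) ≤
      lct f c a / s + (1 - b) / r := by
  have hrR : (0 : ℝ) < r := by exact_mod_cast (show 0 < r by omega)
  have hsR : (0 : ℝ) < s := by exact_mod_cast (show 0 < s by omega)
  have hb0' : (0 : ℝ) ≤ b := by exact_mod_cast hb0
  have hb1' : (b : ℝ) < 1 := by exact_mod_cast hb1
  have hl := lct_nonneg f c a
  refine Real.sSup_le ?_ (add_nonneg (div_nonneg hl hsR.le) (div_nonneg (by linarith) hrR.le))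
  rintro T ⟨hT, Γ, hΓ, hint⟩
  rcases le_or_gt T ((1 - b) / r) with hle | hlt
  · have := div_nonneg hl hsR.le
    linarith
  obtain ⟨Γa, hΓa⟩ := (IsNoetherian.noetherian a : a.FG)
  have hΓa' : Ideal.span (Γa : Set (MvPolynomial (Fin n) ℂ)) = a := hΓa
  obtain ⟨C, hC, hup⟩ := kid_upper a s r Γa hΓa' Γ hΓ
  have ht : 0 < s * T - s * (1 - (b : ℝ)) / r := by
    have : s * ((1 - (b : ℝ)) / r) < s * T := mul_lt_mul_of_pos_left hlt hsR
    have e : s * ((1 - (b : ℝ)) / r) = s * (1 - (b : ℝ)) / r := by ring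
    linarith
  have hmain : IntNear fun w => (∏ i, ‖eval w (f i)‖ ^ (-(2 * (c i : ℝ)))) *
      (∑ g ∈ Γa, ‖eval w g‖ ^ 2) ^ (-(s * T - s * (1 - (b : ℝ)) / r)) := by
    refine lctK_core (fun w => ∏ i, ‖eval w (f i)‖ ^ (-(2 * (c i : ℝ)))) ?_ ?_
      (fun w => ∑ g ∈ Γa, ‖eval w g‖ ^ 2) ?_ ?_ ?_ b hb0' s r hs hr T hT ht C hC
      (fun z => ∑ g ∈ Γ, ‖eval z g‖ ^ 2) hup ?_ ?_
    · exact Finset.measurable_fun_prod _ fun i _ =>
        (MvPolynomial.continuous_eval (f i)).norm.measurable.pow_const _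
    · exact fun w => Finset.prod_nonneg fun i _ => Real.rpow_nonneg (norm_nonneg _) _
    · exact continuous_finsetSum _ fun g _ => (MvPolynomial.continuous_eval g).norm.pow 2
    · refine Finset.sum_eq_zero fun g hg => ?_
      have hg' : g ∈ a := hΓa' ▸ Ideal.subset_span hg
      have h0 : constantCoeff g = 0 := RingHom.mem_ker.1 (ha.1 hg')
      have h1 : eval (0 : Fin n → ℂ) g = 0 := by
        rw [MvPolynomial.eval_zero]
        exact h0
      rw [h1]
      simp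
    · exact fun w => Finset.sum_nonneg fun g _ => sq_nonneg _
    · intro z hz
      by_contra hcon
      have h0 : ∑ g ∈ Γ, ‖eval z g‖ ^ 2 = 0 :=
        le_antisymm (not_lt.1 hcon) (Finset.sum_nonneg fun g _ => sq_nonneg _)
      rw [Finset.sum_eq_zero_iff_of_nonneg (fun g _ => sq_nonneg _)] at h0
      have hsub : Kid a s r ≤ RingHom.ker (eval z) := by
        rw [← hΓ, Ideal.span_le]
        intro g hg
        have := h0 g hg
        rw [sq_eq_zero_iff, norm_eq_zero] at this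
        exact RingHom.mem_ker.2 this
      have hX : (X 0 ^ r : MvPolynomial (Fin (n + 1)) ℂ) ∈ Kid a s r :=
        Ideal.mem_sup_right (Ideal.subset_span rfl)
      have := RingHom.mem_ker.1 (hsub hX)
      rw [map_pow, eval_X] at this
      exact hz (pow_eq_zero_iff (by omega) |>.1 this)
    · obtain ⟨ρ, hρ, hi⟩ := hint
      refine ⟨ρ, hρ, ?_⟩
      refine hi.congr (Filter.Eventually.of_forall fun z => ?_)
      simp only [Fintype.prod_option, addF, addC, Option.elim_none, Option.elim_some, eval_X,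
        lctK_eval_emb]
  have hle := le_lct f c hn hf hc a ha Γa hΓa' _ ht.le hmain
  have e : T = (s * T - s * (1 - (b : ℝ)) / r) / s + (1 - b) / r := by
    field_simp
    ring
  calc T = (s * T - s * (1 - (b : ℝ)) / r) / s + (1 - b) / r := e
    _ ≤ _ := by gcongr

end LP
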