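import Pool.Agent.Lib.MP_9e8926_ag_LP.LowD

set_option autoImplicit false

noncomputable section

namespace LP

open MvPolynomial

variable {n : ℕ} {k : Type*} [Field k]

/-- `μ` is the lexicographically smallest exponent of `f`. -/
def IsLd (f : MvPolynomial (Fin n) k) (μ : Fin n →₀ ℕ) : Prop :=
  μ ∈ f.support ∧ ∀ μ' ∈ f.support, toLex μ ≤ toLex μ'

/-- The set of the lowest exponents of the elements of an ideal. -/
def L (I : Ideal (MvPolynomial (Fin n) k)) : Set (Fin n →₀ ℕ) := {μ | ∃ f ∈ I, IsLd f μ}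

private theorem isLd_mul {f g : MvPolynomial (Fin n) k} {μ ν : Fin n →₀ ℕ} (hf : IsLd f μ)
    (hg : IsLd g ν) : IsLd (f * g) (μ + ν) := by
  constructor
  · rw [mem_support_iff, coeff_mul, Finset.sum_eq_single (μ, ν)]
    · exact mul_ne_zero (mem_support_iff.1 hf.1) (mem_support_iff.1 hg.1)
    · rintro ⟨a, b⟩ hab hne
      rw [Finset.HasAntidiagonal.mem_antidiagonal] at hab
      by_contra h0
      have ha : a ∈ f.support := mem_support_iff.2 (left_ne_zero_of_mul h0)
      have hb : b ∈ g.support := mem_support_iff.2 (right_ne_zero_of_mul h0)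
      have h1 := hf.2 a ha
      have h2 := hg.2 b hb
      have h3 : toLex μ + toLex ν = toLex a + toLex b := by
        rw [← toLex_add, ← toLex_add, hab]
      obtain ⟨h4, h5⟩ := (add_eq_add_iff_eq_and_eq h1 h2).1 h3
      exact hne (Prod.ext (toLex.injective h4).symm (toLex.injective h5).symm)
    · intro h
      exfalso
      apply h
      rw [Finset.HasAntidiagonal.mem_antidiagonal]
  · intro m hm
    have h1 := support_mul f g hm
    rw [Finset.mem_add] at h1
    obtain ⟨a, ha, b, hb, rfl⟩ := h1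
    exact add_le_add (hf.2 a ha) (hg.2 b hb)

private theorem isLd_monomial (μ : Fin n →₀ ℕ) :
    IsLd (monomial μ (1 : k)) μ := by
  classical
  have h : (monomial μ (1 : k)).support = {μ} := by
    rw [support_monomial, if_neg one_ne_zero]
  refine ⟨?_, fun m hm => ?_⟩
  · rw [h]
    exact Finset.mem_singleton_self μ
  · rw [h, Finset.mem_singleton] at hm
    rw [hm]

private theorem cons_lt {a b : ℕ} {m m' : Fin n →₀ ℕ} :
    toLex (Finsupp.cons a m) < toLex (Finsupp.cons b m') ↔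
      a < b ∨ (a = b ∧ toLex m < toLex m') := by
  rw [Finsupp.Lex.lt_iff]
  constructor
  · rintro ⟨i, h1, h2⟩
    induction i using Fin.cases with
    | zero => exact Or.inl (by simpa using h2)
    | succ i =>
      refine Or.inr ⟨by simpa using h1 0 (Fin.succ_pos i), ?_⟩
      rw [Finsupp.Lex.lt_iff]
      refine ⟨i, fun j hj => ?_, by simpa using h2⟩
      simpa using h1 j.succ (Fin.succ_lt_succ_iff.2 hj)
  · rintro (h | ⟨rfl, h⟩)
    · exact ⟨0, fun j hj => absurd hj (Fin.not_lt_zero j), by simpa using h⟩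
    · rw [Finsupp.Lex.lt_iff] at h
      obtain ⟨i, h1, h2⟩ := h
      refine ⟨i.succ, fun j hj => ?_, by simpa using h2⟩
      induction j using Fin.cases with
      | zero => simp
      | succ j => simpa using h1 j (Fin.succ_lt_succ_iff.1 hj)

private theorem cons_inj {a b : ℕ} {m m' : Fin n →₀ ℕ} :
    Finsupp.cons a m = Finsupp.cons b m' ↔ a = b ∧ m = m' := by
  constructor
  · intro h
    refine ⟨by simpa using DFunLike.congr_fun h 0, ?_⟩
    ext i
    simpa using DFunLike.congr_fun h i.succ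
  · rintro ⟨rfl, rfl⟩
    rfl

private theorem cons_le {a b : ℕ} {m m' : Fin n →₀ ℕ} :
    toLex (Finsupp.cons a m) ≤ toLex (Finsupp.cons b m') ↔
      a < b ∨ (a = b ∧ toLex m ≤ toLex m') := by
  rw [le_iff_lt_or_eq, cons_lt, le_iff_lt_or_eq, toLex_inj, toLex_inj, cons_inj]
  tauto

theorem L_mono {I I' : Ideal (MvPolynomial (Fin n) k)} (h : I ≤ I') : L I ⊆ L I' := by
  rintro μ ⟨f, hf, hm⟩
  exact ⟨f, h hf, hm⟩

theorem L_add {I I' : Ideal (MvPolynomial (Fin n) k)} {μ μ' : Fin n →₀ ℕ} (h : μ ∈ L I)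
    (h' : μ' ∈ L I') : μ + μ' ∈ L (I * I') := by
  obtain ⟨f, hf, hm⟩ := h
  obtain ⟨g, hg, hm'⟩ := h'
  exact ⟨f * g, Ideal.mul_mem_mul hf hg, isLd_mul hm hm'⟩

theorem L_up {I : Ideal (MvPolynomial (Fin n) k)} {μ μ' : Fin n →₀ ℕ} (h : μ ∈ L I)
    (h' : μ ≤ μ') : μ' ∈ L I := by
  obtain ⟨f, hf, hm⟩ := h
  refine ⟨monomial (μ' - μ) 1 * f, I.mul_mem_left _ hf, ?_⟩
  have h1 := isLd_mul (isLd_monomial (k := k) (μ' - μ)) hm
  rwa [tsub_add_cancel_of_le h'] at h1

theorem L_pow {I : Ideal (MvPolynomial (Fin n) k)} {μ : Fin n →₀ ℕ} (h : μ ∈ L I) (s : ℕ) :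
    s • μ ∈ L (I ^ s) := by
  induction s with
  | zero =>
    rw [zero_smul, pow_zero, Ideal.one_eq_top]
    exact ⟨monomial 0 1, Submodule.mem_top, isLd_monomial 0⟩
  | succ s ih =>
    rw [succ_nsmul, pow_succ]
    exact L_add ih h

theorem mem_L_of_deg {I : Ideal (MvPolynomial (Fin n) k)} {N : ℕ} (h : m0 n k ^ N ≤ I)
    {μ : Fin n →₀ ℕ} (hμ : N ≤ ∑ i, μ i) : μ ∈ L I := by
  classical
  refine ⟨monomial μ 1, h ?_, isLd_monomial μ⟩
  rw [mem_m0_pow]
  intro m hm
  rw [support_monomial, if_neg one_ne_zero, Finset.mem_singleton] at hm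
  rw [hm]
  exact hμ

theorem finite_compl {I : Ideal (MvPolynomial (Fin n) k)} {N : ℕ} (h : m0 n k ^ N ≤ I) :
    (L I)ᶜ.Finite := by
  refine (Set.finite_Iic (Finsupp.equivFunOnFinite.symm fun _ : Fin n => N)).subset ?_
  intro μ hμ
  rw [Set.mem_Iic]
  intro i
  by_contra hi
  refine hμ (mem_L_of_deg h ?_)
  have h1 : μ i ≤ ∑ i, μ i := Finset.single_le_sum (fun _ _ => Nat.zero_le _) (Finset.mem_univ i)
  have h2 : N < μ i := by simpa using hi
  omega

theorem L_cons (I : Ideal (MvPolynomial (Fin (n + 1)) k)) (ν : ℕ) (μ : Fin n →₀ ℕ) :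
    Finsupp.cons ν μ ∈ L I ↔ μ ∈ L (D I ν) := by
  constructor
  · rintro ⟨f, hf, h1, h2⟩
    refine ⟨cf ν f, mem_D.2 ⟨f, hf, fun j hj => ?_, rfl⟩, ?_, ?_⟩
    · ext m
      rw [coeff_cf, coeff_zero]
      by_contra h0
      have h3 := h2 _ (mem_support_iff.2 h0)
      rw [cons_le] at h3
      omega
    · rw [mem_support_iff, coeff_cf]
      exact mem_support_iff.1 h1
    · intro m hm
      rw [mem_support_iff, coeff_cf] at hm
      have h3 := h2 _ (mem_support_iff.2 hm)
      rw [cons_le] at h3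
      rcases h3 with h3 | h3
      · exact absurd h3 (lt_irrefl _)
      · exact h3.2
  · rintro ⟨a, ha, h1, h2⟩
    obtain ⟨f, hf, h3, rfl⟩ := mem_D.1 ha
    refine ⟨f, hf, ?_, ?_⟩
    · rw [mem_support_iff, ← coeff_cf]
      exact mem_support_iff.1 h1
    · intro m hm
      have e : Finsupp.cons (m 0) (Finsupp.tail m) = m := Finsupp.cons_tail m
      rw [mem_support_iff, ← e, ← coeff_cf] at hm
      rw [← e, cons_le]
      rcases lt_trichotomy ν (m 0) with h4 | h4 | h4
      · exact Or.inl h4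
      · refine Or.inr ⟨h4, h2 _ ?_⟩
        rw [mem_support_iff, h4]
        exact hm
      · rw [h3 _ h4, coeff_zero] at hm
        exact absurd rfl hm

end LP
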