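import Pool.Agent.Lib.MP_9e8926_ag_LP.LowC

set_option autoImplicit false

noncomputable section

namespace LP

open MvPolynomial

variable {n : ℕ} {k : Type*} [Field k]

private theorem cf_emb_mul (ν : ℕ) (g : MvPolynomial (Fin n) k)
    (f : MvPolynomial (Fin (n + 1)) k) : cf ν (emb g * f) = g * cf ν f := by
  have h : finSuccEquiv k n (emb g) = Polynomial.C g := by
    unfold emb
    induction g using MvPolynomial.induction_on with
    | C a => rw [rename_C, finSuccEquiv_apply, eval₂Hom_C, RingHom.comp_apply]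
    | add p q hp hq => rw [map_add, map_add, hp, hq, map_add]
    | mul_X p i hp => rw [map_mul, map_mul, hp, rename_X, finSuccEquiv_X_succ, map_mul]
  change (finSuccEquiv k n (emb g * f)).coeff ν = g * (finSuccEquiv k n f).coeff ν
  rw [map_mul, h, Polynomial.coeff_C_mul]

/-- The ideal of the coefficients of `z^ν` of the elements of `I` divisible by `z^ν`. -/
def D (I : Ideal (MvPolynomial (Fin (n + 1)) k)) (ν : ℕ) : Ideal (MvPolynomial (Fin n) k) where
  carrier := {a | ∃ f ∈ I, (∀ j < ν, cf j f = 0) ∧ cf ν f = a}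
  zero_mem' := ⟨0, I.zero_mem, fun j _ => map_zero _, map_zero _⟩
  add_mem' := by
    rintro a b ⟨f, hf, h1, h2⟩ ⟨g, hg, h3, h4⟩
    exact ⟨f + g, I.add_mem hf hg, fun j hj => by rw [map_add, h1 j hj, h3 j hj, add_zero],
      by rw [map_add, h2, h4]⟩
  smul_mem' := by
    rintro g a ⟨f, hf, h1, h2⟩
    exact ⟨emb g * f, I.mul_mem_left _ hf,
      fun j hj => by rw [cf_emb_mul, h1 j hj, mul_zero],
      by rw [cf_emb_mul, h2, smul_eq_mul]⟩

theorem mem_D {I : Ideal (MvPolynomial (Fin (n + 1)) k)} {ν : ℕ} {a : MvPolynomial (Fin n) k} :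
    a ∈ D I ν ↔ ∃ f ∈ I, (∀ j < ν, cf j f = 0) ∧ cf ν f = a := Iff.rfl

theorem D_mono {I I' : Ideal (MvPolynomial (Fin (n + 1)) k)} (h : I ≤ I') (ν : ℕ) :
    D I ν ≤ D I' ν := by
  rintro a ⟨f, hf, h1, h2⟩
  exact ⟨f, h hf, h1, h2⟩

theorem D_le_succ (I : Ideal (MvPolynomial (Fin (n + 1)) k)) (ν : ℕ) : D I ν ≤ D I (ν + 1) := by
  rintro a ⟨f, hf, h1, h2⟩
  refine ⟨X 0 ^ 1 * f, I.mul_mem_left _ hf, fun j hj => ?_, ?_⟩
  · rw [cf_X_pow_mul]
    split_ifs with h
    · exact h1 _ (by omega)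
    · rfl
  · rw [cf_X_pow_mul, if_pos (by omega), Nat.add_sub_cancel, h2]

theorem D_mul (I I' : Ideal (MvPolynomial (Fin (n + 1)) k)) (ν μ : ℕ) :
    D I ν * D I' μ ≤ D (I * I') (ν + μ) := by
  rw [Ideal.mul_le]
  rintro a ⟨f, hf, h1, h2⟩ b ⟨g, hg, h3, h4⟩
  obtain ⟨h5, h6⟩ := cf_mul_low h1 h3
  exact ⟨f * g, Ideal.mul_mem_mul hf hg, h5, by rw [h6, h2, h4]⟩

theorem D_pow (I : Ideal (MvPolynomial (Fin (n + 1)) k)) (ν s : ℕ) :
    D I ν ^ s ≤ D (I ^ s) (s * ν) := by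
  induction s with
  | zero =>
    intro a _
    refine ⟨emb a, ?_, fun j hj => ?_, ?_⟩
    · rw [pow_zero, Ideal.one_eq_top]
      exact Submodule.mem_top
    · rw [Nat.zero_mul] at hj
      exact absurd hj (Nat.not_lt_zero j)
    · rw [Nat.zero_mul, cf_emb, if_pos rfl]
  | succ s ih =>
    rw [pow_succ, pow_succ, Nat.succ_mul]
    exact (Ideal.mul_mono_left ih).trans (D_mul _ _ _ _)

theorem m0_pow_le_D {I : Ideal (MvPolynomial (Fin (n + 1)) k)} {N : ℕ}
    (h : m0 (n + 1) k ^ N ≤ I) (ν : ℕ) : m0 n k ^ (N - ν) ≤ D I ν := by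
  intro a ha
  have hc : ∀ j : ℕ, cf j (X 0 ^ ν * emb a) = if j = ν then a else 0 := by
    intro j
    rw [cf_X_pow_mul]
    by_cases h1 : ν ≤ j
    · rw [if_pos h1, cf_emb]
      by_cases h2 : j = ν
      · rw [if_pos (by omega), if_pos h2]
      · rw [if_neg (by omega), if_neg h2]
    · rw [if_neg h1, if_neg (by omega)]
  refine ⟨X 0 ^ ν * emb a, h ?_, fun j hj => ?_, ?_⟩
  · rw [mem_m0_pow_cf]
    intro j
    rw [hc]
    split_ifs with h1
    · rw [h1]
      exact ha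
    · exact Submodule.zero_mem _
  · rw [hc, if_neg (by omega)]
  · rw [hc, if_pos rfl]

end LP
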