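import Pool.Agent.Lib.MP_9e8926_ag_LP.Iter
import Pool.Agent.Lib.MP_9e8926_ag_LP.Fin0

set_option autoImplicit false

noncomputable section

namespace LP

open MvPolynomial

theorem prod_eq {n : ℕ} {k : Type*} [Field k] {ι : Type*} [Fintype ι] (p : ℕ) [Fact p.Prime]
    [CharP k p] [PerfectField k] (hn : 1 ≤ n) (f : ι → MvPolynomial (Fin n) k) (c : ι → ℚ)
    (hc : ∀ i, 0 ≤ c i) (b : ℚ) (hb0 : 0 ≤ b) (hb1 : b < 1) :
    Fvol p (addF fun i => (emb (f i) : MvPolynomial (Fin (n + 1)) k)) (addC b c) =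
      (1 - b : ℝ) * (((n : ℝ) + 1) ^ (n + 1) / (n : ℝ) ^ n) * Fvol p f c := by
  refine le_antisymm (fvol_prod_le p hn f c hc b hb0 hb1) ?_
  have h := fvol_restr p hn (fun i => (emb (f i) : MvPolynomial (Fin (n + 1)) k)) c hc b hb0 hb1
  have h1 : (fun i => restr (emb (f i) : MvPolynomial (Fin (n + 1)) k)) = f := by
    funext i
    rw [restr, emb, aeval_rename]
    have : (Fin.cons 0 X : Fin (n + 1) → MvPolynomial (Fin n) k) ∘ Fin.succ = X := by
      funext j
      simp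
    rw [this, aeval_X_left, AlgHom.id_apply]
  rw [h1] at h
  exact h

private theorem kc_nn (m : ℕ) (b : Fin m → ℚ) (hb1 : ∀ l, b l < 1) : 0 ≤ Kc m b := by
  unfold Kc
  refine mul_nonneg (by positivity) (Finset.prod_nonneg fun l _ => ?_)
  have : (b l : ℝ) < 1 := by exact_mod_cast hb1 l
  linarith

private theorem restr0_map {A B : Type*} [CommRing A] [CommRing B] (φ : A →+* B) (m : ℕ)
    (f : MvPolynomial (Fin (m + 2)) A) : restr0 m (map φ f) = map φ (restr0 m f) := by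
  have h : ((restr0 m : MvPolynomial (Fin (m + 2)) B →ₐ[B] _).toRingHom.comp (map φ)) =
      (map φ).comp (restr0 m : MvPolynomial (Fin (m + 2)) A →ₐ[A] _).toRingHom := by
    apply MvPolynomial.ringHom_ext
    · intro a
      simp [restr0]
    · intro i
      simp only [RingHom.comp_apply, map_X, AlgHom.toRingHom_eq_coe, RingHom.coe_coe, restr0,
        aeval_X]
      refine Fin.addCases (fun j => ?_) (fun j => ?_) i
      · simp
      · simp
  exact congrArg (fun g => g f) h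

theorem cor_low (A : Type) [CommRing A] [IsDomain A] [Algebra.FiniteType ℤ A] (ι : A →+* ℂ)
    (hι : Function.Injective ι) (m r : ℕ) (f : Fin r → MvPolynomial (Fin (m + 2)) A)
    (hf : ∀ i, restr0 m (f i) ≠ 0) (b : Fin m → ℚ) (hb0 : ∀ l, 0 ≤ b l) (hb1 : ∀ l, b l < 1)
    (c : Fin r → ℚ) (hc : ∀ i, 0 ≤ c i) (hklt : Klt (fun i => map ι (restr0 m (f i))) c) :
    ∃ C : ℝ, ∃ a : A, a ≠ 0 ∧ ∀ μ : Ideal A, μ.IsMaximal → a ∉ μ → ∀ p : ℕ, CharP (A ⧸ μ) p →
      Kc m b * volhat (fun i => map ι (restr0 m (f i))) c - C / p ≤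
        Fvol p (zf m fun i => map (Ideal.Quotient.mk μ) (f i)) (Sum.elim b c) := by
  obtain ⟨C, a, ha, h⟩ := two_dim A ι hι r (fun i => restr0 m (f i)) hf c hc hklt
  refine ⟨Kc m b * C, a, ha, ?_⟩
  intro μ hμ haμ p hp
  have h1 := h μ hμ haμ p hp
  let _ : Field (A ⧸ μ) := Ideal.Quotient.field μ
  have : Finite (A ⧸ μ) := FV.finite_of_surj A (A ⧸ μ) (Ideal.Quotient.mk μ)
    Ideal.Quotient.mk_surjective
  have hpr : Fact p.Prime := by
    have := hp
    exact ⟨CharP.char_is_prime (A ⧸ μ) p⟩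
  have hK := kc_nn m b hb1
  have h2 := low_m (k := A ⧸ μ) p m r (fun i => map (Ideal.Quotient.mk μ) (f i)) b c hb0 hb1 hc
  have h3 : (fun i => restr0 m (map (Ideal.Quotient.mk μ) (f i))) =
      fun i => map (Ideal.Quotient.mk μ) (restr0 m (f i)) := by
    funext i
    exact restr0_map _ m (f i)
  rw [h3] at h2
  refine le_trans ?_ h2
  have h4 := (abs_le.mp h1).1
  have h5 := mul_le_mul_of_nonneg_left h4 hK
  have h6 : Kc m b * C / p = Kc m b * (C / p) := by ring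
  rw [h6]
  nlinarith [h5]

theorem cor_prod (A : Type) [CommRing A] [IsDomain A] [Algebra.FiniteType ℤ A] (ι : A →+* ℂ)
    (hι : Function.Injective ι) (m r : ℕ) (f : Fin r → MvPolynomial (Fin 2) A)
    (hf : ∀ i, f i ≠ 0) (b : Fin m → ℚ) (hb0 : ∀ l, 0 ≤ b l) (hb1 : ∀ l, b l < 1)
    (c : Fin r → ℚ) (hc : ∀ i, 0 ≤ c i) (hklt : Klt (fun i => map ι (f i)) c) :
    volhat (zf m fun i => emb0 m (map ι (f i))) (Sum.elim b c) ≤
      Kc m b * volhat (fun i => map ι (f i)) c ∧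
    ∃ C : ℝ, ∃ a : A, a ≠ 0 ∧ ∀ μ : Ideal A, μ.IsMaximal → a ∉ μ → ∀ p : ℕ, CharP (A ⧸ μ) p →
      |Fvol p (zf m fun i => emb0 m (map (Ideal.Quotient.mk μ) (f i))) (Sum.elim b c) -
        Kc m b * volhat (fun i => map ι (f i)) c| ≤ C / p := by
  constructor
  · refine vol_m m r (fun i => map ι (f i)) (fun i h => hf i ?_) b c hb0 hb1 hc
    exact map_injective (σ := Fin 2) ι hι (by rw [map_zero]; exact h)
  obtain ⟨C, a, ha, h⟩ := two_dim A ι hι r f hf c hc hklt
  refine ⟨Kc m b * C, a, ha, ?_⟩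
  intro μ hμ haμ p hp
  have h1 := h μ hμ haμ p hp
  let _ : Field (A ⧸ μ) := Ideal.Quotient.field μ
  have : Finite (A ⧸ μ) := FV.finite_of_surj A (A ⧸ μ) (Ideal.Quotient.mk μ)
    Ideal.Quotient.mk_surjective
  have hpr : Fact p.Prime := by
    have := hp
    exact ⟨CharP.char_is_prime (A ⧸ μ) p⟩
  have hK := kc_nn m b hb1
  have h2 := low_m (k := A ⧸ μ) p m r (fun i => emb0 m (map (Ideal.Quotient.mk μ) (f i))) b c
    hb0 hb1 hc
  have h2' := up_m (k := A ⧸ μ) p m r (fun i => map (Ideal.Quotient.mk μ) (f i)) b c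
    hb0 hb1 hc
  have h3 : (fun i => restr0 m (emb0 m (map (Ideal.Quotient.mk μ) (f i)))) =
      fun i => map (Ideal.Quotient.mk μ) (f i) := by
    funext i
    exact restr0_emb0 m _
  rw [h3] at h2
  have h4 : Fvol p (zf m fun i => emb0 m (map (Ideal.Quotient.mk μ) (f i))) (Sum.elim b c) =
      Kc m b * Fvol p (fun i => map (Ideal.Quotient.mk μ) (f i)) c := le_antisymm h2' h2
  rw [h4, ← mul_sub, abs_mul, abs_of_nonneg hK]
  have h6 : Kc m b * C / p = Kc m b * (C / p) := by ring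
  rw [h6]
  exact mul_le_mul_of_nonneg_left h1 hK

end LP
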