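import Pool.Agent.Lib.MP_9e8926_ag_LP.Lead

set_option autoImplicit false

noncomputable section

namespace LP

open MvPolynomial

variable {n : ℕ} {k : Type*} [Field k]

/-- An exponent as a real vector. -/
def rv (μ : Fin n →₀ ℕ) : Fin n → ℝ := fun i => (μ i : ℝ)

/-- The Newton polyhedron of a set of exponents. -/
def Up (A : Set (Fin n →₀ ℕ)) : Set (Fin n → ℝ) := {w | ∃ y ∈ convexHull ℝ (rv '' A), y ≤ w}

theorem Up_convex (A : Set (Fin n →₀ ℕ)) : Convex ℝ (Up A) := by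
  rintro w ⟨y, hy, hyw⟩ w' ⟨y', hy', hyw'⟩ a b ha hb hab
  refine ⟨a • y + b • y', convex_convexHull ℝ _ hy hy' ha hb hab, ?_⟩
  intro i
  simp only [Pi.add_apply, Pi.smul_apply, smul_eq_mul]
  exact add_le_add (mul_le_mul_of_nonneg_left (hyw i) ha) (mul_le_mul_of_nonneg_left (hyw' i) hb)

private theorem L_fsum {ι : Type*} (I : Ideal (MvPolynomial (Fin n) k)) (m : ι → Fin n →₀ ℕ)
    (hm : ∀ j, m j ∈ L I) (N : ι → ℕ) (j0 : ι) (t : Finset ι) :
    ∑ j ∈ t, N j • m j ∈ L (I ^ (∑ j ∈ t, N j)) := by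
  classical
  induction t using Finset.induction_on with
  | empty =>
    have h := L_pow (hm j0) 0
    simpa using h
  | insert a t ha ih =>
    rw [Finset.sum_insert ha, Finset.sum_insert ha, pow_add]
    exact L_add (L_pow (hm a) _) ih

/-- Exponents in `(s + n)` times the Newton polyhedron of `I` belong to `I^s`. -/
theorem newt_sum (I : Ideal (MvPolynomial (Fin n) k)) (s : ℕ) (μ : Fin n →₀ ℕ) (w : Fin n → ℝ)
    (hw : w ∈ Up (L I)) (h : ∀ i, ((s : ℝ) + n) * w i ≤ μ i) : μ ∈ L (I ^ s) := by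
  classical
  obtain ⟨y, hy, hyw⟩ := hw
  obtain ⟨ι, hfin, z, c, hz, hai, hpos, hsum, hcomb⟩ := eq_pos_convex_span_of_mem_convexHull hy
  have hz' : ∀ j, ∃ m ∈ L I, rv m = z j := fun j => hz ⟨j, rfl⟩
  choose m hm hmz using hz'
  have hcard : Fintype.card ι ≤ n + 1 := by
    have h1 := hai.card_le_finrank_succ
    have h2 : Module.finrank ℝ (vectorSpan ℝ (Set.range z)) ≤ n := by
      have := Submodule.finrank_le (vectorSpan ℝ (Set.range z))
      simpa using this
    omega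
  have hne : Nonempty ι := by
    by_contra hcon
    rw [not_nonempty_iff] at hcon
    simp at hsum
  obtain ⟨j0⟩ := hne
  set N : ι → ℕ := fun j => ⌊((s : ℝ) + n) * c j⌋₊ with hN
  have hs0 : (0 : ℝ) ≤ (s : ℝ) + n := by positivity
  have hNle : ∀ j, (N j : ℝ) ≤ ((s : ℝ) + n) * c j := fun j =>
    Nat.floor_le (mul_nonneg hs0 (hpos j).le)
  have hNlt : ∀ j, ((s : ℝ) + n) * c j < (N j : ℝ) + 1 := fun j => Nat.lt_floor_add_one _
  have hsN : s ≤ ∑ j, N j := by
    have h1 : ∑ j, ((s : ℝ) + n) * c j < ∑ j, ((N j : ℝ) + 1) :=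
      Finset.sum_lt_sum_of_nonempty ⟨j0, Finset.mem_univ _⟩ (fun j _ => hNlt j)
    rw [← Finset.mul_sum, hsum, mul_one, Finset.sum_add_distrib] at h1
    simp only [Finset.sum_const, Finset.card_univ, nsmul_eq_mul, mul_one] at h1
    have h2 : (Fintype.card ι : ℝ) ≤ (n : ℝ) + 1 := by exact_mod_cast hcard
    have h3 : (s : ℝ) < (∑ j, (N j : ℝ)) + 1 := by linarith
    have h4 : s < (∑ j, N j) + 1 := by exact_mod_cast h3
    omega
  have h1 : ∑ j, N j • m j ∈ L (I ^ s) :=
    L_mono (Ideal.pow_le_pow_right hsN) (L_fsum I m hm N j0 Finset.univ)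
  refine L_up h1 ?_
  intro i
  have h2 : ((∑ j, N j • m j : Fin n →₀ ℕ) i : ℝ) ≤ (μ i : ℝ) := by
    have e1 : ((∑ j, N j • m j : Fin n →₀ ℕ) i : ℝ) = ∑ j, (N j : ℝ) * z j i := by
      rw [Finsupp.finsetSum_apply]
      push_cast
      refine Finset.sum_congr rfl fun j _ => ?_
      rw [← hmz j]
      simp [rv]
    have e2 : y i = ∑ j, c j * z j i := by
      rw [← hcomb]
      simp
    rw [e1]
    calc ∑ j, (N j : ℝ) * z j i ≤ ∑ j, ((s : ℝ) + n) * c j * z j i := by
          refine Finset.sum_le_sum fun j _ => ?_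
          refine mul_le_mul_of_nonneg_right (hNle j) ?_
          rw [← hmz j]
          simp [rv]
      _ = ((s : ℝ) + n) * y i := by
          rw [e2, Finset.mul_sum]
          exact Finset.sum_congr rfl fun j _ => by ring
      _ ≤ ((s : ℝ) + n) * w i := mul_le_mul_of_nonneg_left (hyw i) hs0
      _ ≤ μ i := h i
  exact_mod_cast h2

end LP
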