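import Pool.Agent.Lib.MP_9e8926_ag_LP.NewtA
import Pool.Agent.Lib.MP_9e8926_ag_LP.LeadF

set_option autoImplicit false

noncomputable section

namespace LP

open MvPolynomial MeasureTheory Filter

variable {n : ℕ} {k : Type*} [Field k]

private theorem newtB_mem_up {I : Ideal (MvPolynomial (Fin n) k)} {N : ℕ} (h : m0 n k ^ N ≤ I)
    {w : Fin n → ℝ} (hw : 0 ≤ w) (i : Fin n) (hi : (N : ℝ) ≤ w i) : w ∈ Up (L I) := by
  have h1 : (Finsupp.single i N : Fin n →₀ ℕ) ∈ L I := by
    refine mem_L_of_deg h ?_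
    have h2 : (Finsupp.single i N : Fin n →₀ ℕ) i ≤ ∑ j, (Finsupp.single i N : Fin n →₀ ℕ) j :=
      Finset.single_le_sum (fun _ _ => Nat.zero_le _) (Finset.mem_univ i)
    rwa [Finsupp.single_eq_same] at h2
  refine ⟨rv (Finsupp.single i N), subset_convexHull ℝ _ ⟨_, h1, rfl⟩, ?_⟩
  intro j
  unfold rv
  by_cases hj : i = j
  · subst hj
    rw [Finsupp.single_eq_same]
    exact hi
  · rw [Finsupp.single_apply, if_neg hj, Nat.cast_zero]
    exact hw j

theorem covol_lt_top (I : Ideal (MvPolynomial (Fin n) k)) (hI : IsPrim I) :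
    volume {w : Fin n → ℝ | 0 ≤ w ∧ w ∉ Up (L I)} < ⊤ := by
  obtain ⟨-, N, hN⟩ := hI
  have hsub : {w : Fin n → ℝ | 0 ≤ w ∧ w ∉ Up (L I)} ⊆ Set.Icc 0 (fun _ => (N : ℝ)) := by
    rintro w ⟨h0, h1⟩
    refine ⟨h0, fun i => ?_⟩
    by_contra hcon
    exact h1 (newtB_mem_up hN h0 i (not_le.1 hcon).le)
  exact (measure_mono hsub).trans_lt isCompact_Icc.measure_lt_top

/-- The number of exponents with a zero. -/
private theorem newtB_card (T : Finset (Fin n →₀ ℕ)) (M : ℕ)
    (hT : ∀ μ ∈ T, ∀ i, μ i < M) (hT0 : ∀ μ ∈ T, ∃ i, μ i = 0) :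
    T.card ≤ n * M ^ (n - 1) := by
  classical
  have h1 : T.card ≤ (Finset.univ.biUnion fun i : Fin n =>
      Fintype.piFinset fun j : Fin n => if j = i then ({0} : Finset ℕ) else Finset.range M).card := by
    refine Finset.card_le_card_of_injOn (fun μ => (μ : Fin n → ℕ)) ?_ ?_
    · intro μ hμ
      obtain ⟨i, hi⟩ := hT0 μ hμ
      rw [Finset.mem_coe, Finset.mem_biUnion]
      refine ⟨i, Finset.mem_univ i, ?_⟩
      rw [Fintype.mem_piFinset]
      intro j
      by_cases hj : j = i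
      · rw [if_pos hj, hj, Finset.mem_singleton]
        exact hi
      · rw [if_neg hj, Finset.mem_range]
        exact hT μ hμ j
    · exact DFunLike.coe_injective.injOn
  have h2 : ∀ i : Fin n, (Fintype.piFinset fun j : Fin n =>
      if j = i then ({0} : Finset ℕ) else Finset.range M).card = M ^ (n - 1) := by
    intro i
    rw [Fintype.card_piFinset, ← Finset.mul_prod_erase _ _ (Finset.mem_univ i), if_pos rfl,
      Finset.card_singleton, one_mul]
    have h3 : ∀ j ∈ Finset.univ.erase i,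
        (if j = i then ({0} : Finset ℕ) else Finset.range M).card = M := by
      intro j hj
      rw [if_neg (Finset.ne_of_mem_erase hj), Finset.card_range]
    rw [Finset.prod_congr rfl h3, Finset.prod_const, Finset.card_erase_of_mem (Finset.mem_univ i),
      Finset.card_univ, Fintype.card_fin]
  refine h1.trans (Finset.card_biUnion_le.trans ?_)
  rw [Finset.sum_congr rfl fun i _ => h2 i, Finset.sum_const, Finset.card_univ, Fintype.card_fin,
    smul_eq_mul]

/-- The half open unit cube with the upper vertex `μ`. -/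
private def newtB_cube (μ : Fin n →₀ ℕ) : Set (Fin n → ℝ) :=
  Set.univ.pi fun i => Set.Ioc ((μ i : ℝ) - 1) (μ i)

private theorem newtB_vol (μ : Fin n →₀ ℕ) : volume (newtB_cube μ) = 1 := by
  unfold newtB_cube
  rw [Real.volume_pi_Ioc]
  simp

private theorem newtB_disj {μ ν : Fin n →₀ ℕ} (h : μ ≠ ν) :
    Disjoint (newtB_cube μ) (newtB_cube ν) := by
  rw [Set.disjoint_left]
  intro w hw hw'
  apply h
  ext i
  have h1 := hw i (Set.mem_univ i)
  have h2 := hw' i (Set.mem_univ i)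
  have h3 : (μ i : ℝ) < ν i + 1 := by linarith [h1.1, h2.2]
  have h4 : (ν i : ℝ) < μ i + 1 := by linarith [h2.1, h1.2]
  have h5 : μ i < ν i + 1 := by exact_mod_cast h3
  have h6 : ν i < μ i + 1 := by exact_mod_cast h4
  omega

open scoped Pointwise in
private theorem newtB_scale (S : Set (Fin n → ℝ)) {r : ℝ} (hr : 0 < r) :
    volume ((fun w : Fin n → ℝ => r • w) '' S) = ENNReal.ofReal (r ^ n) * volume S := by
  rw [Set.image_smul, Measure.addHaar_smul, Module.finrank_fin_fun,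
    abs_of_nonneg (pow_nonneg hr.le n)]

theorem finrank_le_covol (hn : 1 ≤ n) (I : Ideal (MvPolynomial (Fin n) k)) (hI : IsPrim I) :
    ∃ C : ℝ, ∀ s : ℕ, 1 ≤ s → (Module.finrank k (MvPolynomial (Fin n) k ⧸ I ^ s) : ℝ) ≤
      ((s : ℝ) + n) ^ n * (volume {w : Fin n → ℝ | 0 ≤ w ∧ w ∉ Up (L I)}).toReal +
        C * (s : ℝ) ^ (n - 1) := by
  classical
  have hlt := covol_lt_top I hI
  obtain ⟨-, N, hN⟩ := hI
  refine ⟨(n : ℝ) * (N : ℝ) ^ (n - 1), fun s hs => ?_⟩
  have hNs : m0 n k ^ (N * s) ≤ I ^ s := by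
    rw [pow_mul]
    exact Ideal.pow_right_mono hN s
  have hfin : (L (I ^ s))ᶜ.Finite := finite_compl hNs
  rw [finrank_eq hNs, Set.ncard_eq_toFinset_card _ hfin]
  set T : Finset (Fin n →₀ ℕ) := hfin.toFinset with hT
  have hmem : ∀ μ, μ ∈ T ↔ μ ∉ L (I ^ s) := fun μ => by
    rw [hT, Set.Finite.mem_toFinset, Set.mem_compl_iff]
  -- the exponents with a zero
  have hB : (T.filter fun μ => ¬ ∀ i, 1 ≤ μ i).card ≤ n * (N * s) ^ (n - 1) := by
    refine newtB_card _ _ ?_ ?_
    · intro μ hμ i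
      rw [Finset.mem_filter, hmem] at hμ
      by_contra hcon
      refine hμ.1 (mem_L_of_deg hNs ?_)
      exact (not_lt.1 hcon).trans
        (Finset.single_le_sum (fun _ _ => Nat.zero_le _) (Finset.mem_univ i))
    · intro μ hμ
      rw [Finset.mem_filter] at hμ
      have := hμ.2
      push Not at this
      obtain ⟨i, hi⟩ := this
      exact ⟨i, by omega⟩
  -- the exponents without a zero
  set S0 : Set (Fin n → ℝ) := {w : Fin n → ℝ | 0 ≤ w ∧ w ∉ Up (L I)} with hS0
  have hr : (0 : ℝ) < (s : ℝ) + n := by positivity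
  have hA : ((T.filter fun μ => ∀ i, 1 ≤ μ i).card : ℝ) ≤
      ((s : ℝ) + n) ^ n * (volume S0).toReal := by
    have h1 : (⋃ μ ∈ T.filter (fun μ => ∀ i, 1 ≤ μ i), newtB_cube μ) ⊆
        (fun w : Fin n → ℝ => ((s : ℝ) + n) • w) '' S0 := by
      intro w hw
      rw [Set.mem_iUnion₂] at hw
      obtain ⟨μ, hμ, hwμ⟩ := hw
      rw [Finset.mem_filter, hmem] at hμ
      refine ⟨((s : ℝ) + n)⁻¹ • w, ?_, smul_inv_smul₀ hr.ne' w⟩
      have hw0 : 0 ≤ w := by
        intro i
        have h2 := (hwμ i (Set.mem_univ i)).1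
        have h3 : (1 : ℝ) ≤ μ i := by exact_mod_cast hμ.2 i
        show (0 : ℝ) ≤ w i
        linarith
      refine ⟨smul_nonneg (inv_pos.2 hr).le hw0, fun hup => ?_⟩
      refine hμ.1 (newt_sum I s μ _ hup fun i => ?_)
      rw [Pi.smul_apply, smul_eq_mul, mul_inv_cancel_left₀ hr.ne']
      exact (hwμ i (Set.mem_univ i)).2
    have h2 : volume (⋃ μ ∈ T.filter (fun μ => ∀ i, 1 ≤ μ i), newtB_cube μ) =
        ((T.filter fun μ => ∀ i, 1 ≤ μ i).card : ENNReal) := by
      rw [measure_biUnion_finset (fun μ _ ν _ h => newtB_disj h) (fun μ _ => ?_)]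
      · rw [Finset.sum_congr rfl fun μ _ => newtB_vol μ, Finset.sum_const, nsmul_eq_mul, mul_one]
      · exact MeasurableSet.univ_pi fun i => measurableSet_Ioc
    have h3 := measure_mono (μ := (volume : Measure (Fin n → ℝ))) h1
    rw [h2, newtB_scale S0 hr] at h3
    have h4 : ENNReal.ofReal (((s : ℝ) + n) ^ n) * volume S0 ≠ ⊤ :=
      ENNReal.mul_ne_top ENNReal.ofReal_ne_top hlt.ne
    have h5 := ENNReal.toReal_mono h4 h3
    rw [ENNReal.toReal_natCast, ENNReal.toReal_mul,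
      ENNReal.toReal_ofReal (pow_nonneg hr.le n)] at h5
    exact h5
  have hcard : (T.filter fun μ => ∀ i, 1 ≤ μ i).card + (T.filter fun μ => ¬ ∀ i, 1 ≤ μ i).card =
      T.card := Finset.card_filter_add_card_filter_not _
  have hB' : ((T.filter fun μ => ¬ ∀ i, 1 ≤ μ i).card : ℝ) ≤
      (n : ℝ) * (N : ℝ) ^ (n - 1) * (s : ℝ) ^ (n - 1) := by
    have h1 : ((T.filter fun μ => ¬ ∀ i, 1 ≤ μ i).card : ℝ) ≤
        ((n * (N * s) ^ (n - 1) : ℕ) : ℝ) := by
      exact_mod_cast hB
    refine h1.trans (le_of_eq ?_)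
    push_cast
    rw [mul_pow]
    ring
  rw [← hcard]
  push_cast
  linarith

end LP
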