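import Pool.Agent.Lib.MP_9e8926_ag_LP.NewtA
import Pool.Agent.Lib.MP_9e8926_ag_LP.LeadF
import Pool.Agent.Lib.MP_9e8926_ag_LP.Lim

set_option autoImplicit false

noncomputable section

namespace LP

open MvPolynomial MeasureTheory Filter

variable {n : ℕ} {k : Type*} [Field k]

/-- The union of the sets `(L (I^N) + ℝ≥0^n) / N`. -/
def G0 (I : Ideal (MvPolynomial (Fin n) k)) : Set (Fin n → ℝ) :=
  {w | ∃ N : ℕ, 1 ≤ N ∧ ∃ μ ∈ L (I ^ N), ∀ i, (μ i : ℝ) ≤ N * w i}

/-- The limit region of an ideal. -/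
def Gam (I : Ideal (MvPolynomial (Fin n) k)) : Set (Fin n → ℝ) := closure (convexHull ℝ (G0 I))

theorem Gam_closed (I : Ideal (MvPolynomial (Fin n) k)) : IsClosed (Gam I) := isClosed_closure

theorem Gam_convex (I : Ideal (MvPolynomial (Fin n) k)) : Convex ℝ (Gam I) :=
  (convex_convexHull ℝ _).closure

private theorem Reg_G0_up (I : Ideal (MvPolynomial (Fin n) k)) {w w' : Fin n → ℝ} (h : w ∈ G0 I)
    (hw : w ≤ w') : w' ∈ G0 I := by
  obtain ⟨N, hN, μ, hμ, h1⟩ := h
  refine ⟨N, hN, μ, hμ, fun i => (h1 i).trans ?_⟩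
  exact mul_le_mul_of_nonneg_left (hw i) (Nat.cast_nonneg N)

theorem Gam_up (I : Ideal (MvPolynomial (Fin n) k)) (w w' : Fin n → ℝ) (h : w ∈ Gam I)
    (hw : w ≤ w') : w' ∈ Gam I := by
  have h1 : ∀ x ∈ convexHull ℝ (G0 I), x + (w' - w) ∈ convexHull ℝ (G0 I) := by
    have h2 : convexHull ℝ (G0 I) ⊆ (fun x => x + (w' - w)) ⁻¹' convexHull ℝ (G0 I) := by
      refine convexHull_min ?_ ?_
      · intro x hx
        refine subset_convexHull ℝ _ (Reg_G0_up I hx ?_)
        intro i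
        have := hw i
        simp only [Pi.add_apply, Pi.sub_apply]
        linarith
      · exact (convex_convexHull ℝ (G0 I)).translate_preimage_left _
    exact fun x hx => h2 hx
  have h3 : w + (w' - w) ∈ closure (convexHull ℝ (G0 I)) :=
    map_mem_closure (f := fun x : Fin n → ℝ => x + (w' - w))
      (continuous_id.add continuous_const) h h1
  rwa [add_sub_cancel] at h3

theorem G0_nonneg (I : Ideal (MvPolynomial (Fin n) k)) (w : Fin n → ℝ) (h : w ∈ G0 I) :
    0 ≤ w := by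
  obtain ⟨N, hN, μ, hμ, h1⟩ := h
  intro i
  have hN' : (0 : ℝ) < N := by exact_mod_cast hN
  have h2 : (0 : ℝ) ≤ N * w i := (Nat.cast_nonneg (μ i)).trans (h1 i)
  exact nonneg_of_mul_nonneg_right h2 hN'

theorem Gam_large (I : Ideal (MvPolynomial (Fin n) k)) (hI : IsPrim I) :
    ∃ R : ℝ, 0 < R ∧ ∀ w : Fin n → ℝ, 0 ≤ w → (∃ i, R ≤ w i) → w ∈ Gam I := by
  classical
  obtain ⟨-, M, hM⟩ := hI
  refine ⟨(M : ℝ) + 1, by positivity, ?_⟩
  rintro w hw ⟨i, hi⟩
  refine subset_closure (subset_convexHull ℝ _ ⟨1, le_rfl, Finsupp.single i M, ?_, ?_⟩)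
  · rw [pow_one]
    refine mem_L_of_deg hM ?_
    rw [Finset.sum_eq_single i]
    · simp
    · intro j _ hj
      rw [Finsupp.single_apply, if_neg (Ne.symm hj)]
    · intro h
      exact (h (Finset.mem_univ i)).elim
  · intro j
    rw [Nat.cast_one, one_mul, Finsupp.single_apply]
    by_cases hj : i = j
    · rw [if_pos hj, ← hj]
      linarith
    · rw [if_neg hj, Nat.cast_zero]
      exact hw j

/-- a convex combination of two points -/
private theorem Reg_two (I : Ideal (MvPolynomial (Fin n) k)) {u v : Fin n → ℝ} (hu : u ∈ G0 I)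
    (hv : v ∈ G0 I) {a b ρ : ℝ} (ha : 0 ≤ a) (hb : 0 ≤ b) (hab : a + b = 1) (hρ : 1 < ρ) :
    ρ • (a • u + b • v) ∈ G0 I := by
  have hu0 := G0_nonneg I u hu
  have hv0 := G0_nonneg I v hv
  obtain ⟨N, hN, μ, hμ, h1⟩ := hu
  obtain ⟨K, hK, ν, hν, h2⟩ := hv
  have hN' : (0 : ℝ) < N := by exact_mod_cast hN
  have hK' : (0 : ℝ) < K := by exact_mod_cast hK
  obtain ⟨M, hM⟩ := exists_nat_gt (((N : ℝ) + K) / (ρ - 1))
  have hρ' : 0 < ρ - 1 := by linarith
  have hM0 : (0 : ℝ) < M := lt_of_le_of_lt (by positivity) hM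
  have hM1 : 1 ≤ M := by
    have : 0 < M := by exact_mod_cast hM0
    omega
  rw [div_lt_iff₀ hρ'] at hM
  set s : ℕ := ⌊(M : ℝ) * a * ρ / N⌋₊ with hs
  set t : ℕ := ⌊(M : ℝ) * b * ρ / K⌋₊ with ht
  have s1 : (s : ℝ) * N ≤ M * a * ρ := by
    have := Nat.floor_le (show 0 ≤ (M : ℝ) * a * ρ / N by positivity)
    rwa [le_div_iff₀ hN'] at this
  have t1 : (t : ℝ) * K ≤ M * b * ρ := by
    have := Nat.floor_le (show 0 ≤ (M : ℝ) * b * ρ / K by positivity)
    rwa [le_div_iff₀ hK'] at this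
  have s2 : (M : ℝ) * a * ρ < (s + 1) * N := by
    have := Nat.lt_floor_add_one ((M : ℝ) * a * ρ / N)
    rwa [div_lt_iff₀ hN'] at this
  have t2 : (M : ℝ) * b * ρ < (t + 1) * K := by
    have := Nat.lt_floor_add_one ((M : ℝ) * b * ρ / K)
    rwa [div_lt_iff₀ hK'] at this
  have hsum : M ≤ N * s + K * t := by
    have h3 : (M : ℝ) * a * ρ + M * b * ρ = M * ρ := by
      have : (M : ℝ) * a * ρ + M * b * ρ = M * ρ * (a + b) := by ring
      rw [this, hab, mul_one]
    have h4 : (M : ℝ) ≤ N * s + K * t := by nlinarith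
    exact_mod_cast h4
  refine ⟨M, hM1, s • μ + t • ν, ?_, ?_⟩
  · have h3 := L_add (L_pow hμ s) (L_pow hν t)
    refine L_mono ?_ h3
    rw [← pow_mul, ← pow_mul, ← pow_add]
    exact Ideal.pow_le_pow_right hsum
  · intro i
    have e1 : (((s • μ + t • ν : Fin n →₀ ℕ) i : ℕ) : ℝ) = s * (μ i : ℝ) + t * (ν i : ℝ) := by
      simp
    have e2 : (ρ • (a • u + b • v)) i = ρ * (a * u i + b * v i) := by
      simp
    rw [e1, e2]
    have f1 : (s : ℝ) * (μ i : ℝ) ≤ s * (N * u i) :=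
      mul_le_mul_of_nonneg_left (h1 i) (Nat.cast_nonneg s)
    have f2 : (t : ℝ) * (ν i : ℝ) ≤ t * (K * v i) :=
      mul_le_mul_of_nonneg_left (h2 i) (Nat.cast_nonneg t)
    have f3 : (s : ℝ) * N * u i ≤ M * a * ρ * u i := mul_le_mul_of_nonneg_right s1 (hu0 i)
    have f4 : (t : ℝ) * K * v i ≤ M * b * ρ * v i := mul_le_mul_of_nonneg_right t1 (hv0 i)
    nlinarith

/-- Convex combinations, up to a dilation. -/
theorem dil (I : Ideal (MvPolynomial (Fin n) k)) (w : Fin n → ℝ)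
    (h : w ∈ convexHull ℝ (G0 I)) (r : ℝ) (hr : 1 < r) : r • w ∈ G0 I := by
  have key : convexHull ℝ (G0 I) ⊆ {w | ∀ r : ℝ, 1 < r → r • w ∈ G0 I} := by
    refine convexHull_min ?_ ?_
    · intro u hu r hr
      refine Reg_G0_up I hu ?_
      intro i
      have := G0_nonneg I u hu i
      simp only [Pi.zero_apply] at this
      simp only [Pi.smul_apply, smul_eq_mul]
      nlinarith
    · intro u hu v hv a b ha hb hab r hr
      have hq : 1 < Real.sqrt r := by
        rw [show (1 : ℝ) = Real.sqrt 1 by simp]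
        exact Real.sqrt_lt_sqrt zero_le_one hr
      have h1 := Reg_two I (hu _ hq) (hv _ hq) ha hb hab hq
      have h2 : Real.sqrt r * Real.sqrt r = r := Real.mul_self_sqrt (by linarith)
      have h3 : Real.sqrt r • (a • Real.sqrt r • u + b • Real.sqrt r • v) =
          r • (a • u + b • v) := by
        funext i
        simp only [Pi.smul_apply, Pi.add_apply, smul_eq_mul]
        have : Real.sqrt r * (a * (Real.sqrt r * u i) + b * (Real.sqrt r * v i)) =
          (Real.sqrt r * Real.sqrt r) * (a * u i + b * v i) := by ring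
        rw [this, h2]
      rwa [h3] at h1
  exact key h r hr

theorem dil_pos (I : Ideal (MvPolynomial (Fin n) k)) (w : Fin n → ℝ)
    (h : w ∈ Gam I) (hw : ∀ i, 0 < w i) (r : ℝ) (hr : 1 < r) : r • w ∈ G0 I := by
  have hq : 1 < Real.sqrt r := by
    rw [show (1 : ℝ) = Real.sqrt 1 by simp]
    exact Real.sqrt_lt_sqrt zero_le_one hr
  have h2 : Real.sqrt r * Real.sqrt r = r := Real.mul_self_sqrt (by linarith)
  have hop : IsOpen {x : Fin n → ℝ | ∀ i, x i < Real.sqrt r * w i} := by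
    have : {x : Fin n → ℝ | ∀ i, x i < Real.sqrt r * w i} =
        ⋂ i, {x : Fin n → ℝ | x i < Real.sqrt r * w i} := by
      ext x
      simp
    rw [this]
    exact isOpen_iInter_of_finite fun i => isOpen_lt (continuous_apply i) continuous_const
  obtain ⟨x, hx1, hx2⟩ := mem_closure_iff.1 h _ hop (fun i => by
    have := hw i
    nlinarith)
  refine Reg_G0_up I (dil I x hx2 _ hq) ?_
  intro i
  have h3 := (hx1 i).le
  simp only [Pi.smul_apply, smul_eq_mul]
  calc Real.sqrt r * x i ≤ Real.sqrt r * (Real.sqrt r * w i) :=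
        mul_le_mul_of_nonneg_left h3 (by linarith)
    _ = r * w i := by rw [← mul_assoc, h2]

end LP
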