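import Pool.Agent.Lib.MP_9e8926_ag_LP.Main

/-!
# MP_9e8926_ag: restriction of Frobenius volumes to a hyperplane
-/

set_option autoImplicit false

namespace LP.RestrictionInequality

open LP MvPolynomial

/-- Let `k` be a perfect field of characteristic `p`, `n ≥ 1`, let `fᵢ` be polynomials in
`z, x₁, …, xₙ`, let `cᵢ ≥ 0` and `0 ≤ b < 1` be rational numbers.  The Frobenius volume of the pair
`(𝔸^(n+1), ∑ cᵢ div fᵢ + b div z)` is at least `(1 - b) (n+1)^(n+1) / n^n` times the Frobenius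
volume of the restricted pair `(𝔸^n, ∑ cᵢ div fᵢ|_{z=0})`, with equality if the `fᵢ` do not depend
on `z`. -/
theorem result (k : Type) [Field k] [PerfectField k] (p : ℕ) [Fact p.Prime] [CharP k p] (n : ℕ)
    (hn : 1 ≤ n) (r : ℕ) (f : Fin r → MvPolynomial (Fin (n + 1)) k) (c : Fin r → ℚ)
    (hc : ∀ i, 0 ≤ c i) (b : ℚ) (hb : 0 ≤ b ∧ b < 1) :
    (1 - b : ℝ) * (((n : ℝ) + 1) ^ (n + 1) / (n : ℝ) ^ n) * Fvol p (fun i => restr (f i)) c ≤
      Fvol p (addF f) (addC b c) ∧
    ((∀ i, ∃ g : MvPolynomial (Fin n) k, f i = emb g) →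
      Fvol p (addF f) (addC b c) =
        (1 - b : ℝ) * (((n : ℝ) + 1) ^ (n + 1) / (n : ℝ) ^ n) *
          Fvol p (fun i => restr (f i)) c) := by
  refine ⟨fvol_restr p hn f c hc b hb.1 hb.2, fun h => ?_⟩
  choose g hg using h
  have h1 : f = fun i => emb (g i) := funext hg
  have h2 : (fun i => restr (emb (g i) : MvPolynomial (Fin (n + 1)) k)) = g := by
    funext i
    rw [restr, emb, aeval_rename]
    have : (Fin.cons 0 X : Fin (n + 1) → MvPolynomial (Fin n) k) ∘ Fin.succ = X := by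
      funext j
      simp
    rw [this, aeval_X_left, AlgHom.id_apply]
  rw [h1, h2]
  exact prod_eq p hn g c hc b hb.1 hb.2

end LP.RestrictionInequality
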