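import Pool.Agent.Lib.MP_9e8926_ag_LP.FrobN

set_option autoImplicit false

noncomputable section

namespace LP

open MvPolynomial

variable {n : ℕ} {k : Type*} [Field k] {ι : Type*} [Fintype ι] (p : ℕ) [Fact p.Prime] [CharP k p]
  (f : ι → MvPolynomial (Fin n) k) (c : ι → ℚ)

theorem not_mem_of_sfr {I : Ideal (MvPolynomial (Fin n) k)} {t : ℝ} (h : SFR p f c I t)
    (d : MvPolynomial (Fin n) k) (hd : d ≠ 0) : ∃ e : ℕ, 1 ≤ e ∧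
      ∃ a ∈ I ^ ⌈t * ((p ^ e : ℕ) - 1 : ℝ)⌉₊, d * Fq f c (p ^ e) * a ∉ J n k (p ^ e) := by
  obtain ⟨e, he, φ, hφ, a, ha, hna⟩ := h d hd
  exact ⟨e, he, a, ha, fun hmem => hna (map_J_m0 p e φ hφ hmem)⟩

theorem sfr_large (hn : 1 ≤ n) {I : Ideal (MvPolynomial (Fin n) k)} {t : ℝ}
    (h : SFR p f c I t) (d : MvPolynomial (Fin n) k) (hd : d ≠ 0) (Q : ℕ) :
    ∃ e : ℕ, 1 ≤ e ∧ Q ≤ p ^ e ∧
      ∃ a ∈ I ^ ⌈t * ((p ^ e : ℕ) - 1 : ℝ)⌉₊, d * Fq f c (p ^ e) * a ∉ J n k (p ^ e) := by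
  obtain ⟨x, hx, hxJ⟩ : ∃ x : MvPolynomial (Fin n) k, x ≠ 0 ∧ ∀ q, x ^ q ∈ J n k q :=
    ⟨X ⟨0, hn⟩, X_ne_zero _, fun q => Ideal.subset_span ⟨⟨0, hn⟩, rfl⟩⟩
  have hdx : d * x ^ Q ≠ 0 := mul_ne_zero hd (pow_ne_zero _ hx)
  obtain ⟨e, he, a, ha, hna⟩ := not_mem_of_sfr p f c h (d * x ^ Q) hdx
  refine ⟨e, he, ?_, a, ha, ?_⟩
  · by_contra hcon
    have h1 : p ^ e ≤ Q := (not_le.1 hcon).le
    have h2 : x ^ Q ∈ J n k (p ^ e) := by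
      rw [← Nat.add_sub_cancel' h1, pow_add]
      exact Ideal.mul_mem_right _ _ (hxJ _)
    apply hna
    have h3 : d * x ^ Q * Fq f c (p ^ e) * a = (d * Fq f c (p ^ e) * a) * x ^ Q := by ring
    rw [h3]
    exact Ideal.mul_mem_left _ _ h2
  · intro hmem
    apply hna
    have h3 : d * x ^ Q * Fq f c (p ^ e) * a = x ^ Q * (d * Fq f c (p ^ e) * a) := by ring
    rw [h3]
    exact Ideal.mul_mem_left _ _ hmem

theorem base_of_sfr {I : Ideal (MvPolynomial (Fin n) k)} {t : ℝ} (h : SFR p f c I t) :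
    Base p f c := by
  intro d hd
  obtain ⟨e, he, φ, hφ, a, -, hna⟩ := h d hd
  refine ⟨e, he, φ, hφ, a, ?_, hna⟩
  rw [zero_mul, Nat.ceil_zero, pow_zero, Ideal.one_eq_top]
  trivial

theorem base_iff [PerfectField k] : Base p f c ↔ ∀ d : MvPolynomial (Fin n) k, d ≠ 0 →
    ∃ e : ℕ, 1 ≤ e ∧ d * Fq f c (p ^ e) ∉ J n k (p ^ e) := by
  constructor
  · intro h d hd
    obtain ⟨e, he, a, -, hna⟩ := not_mem_of_sfr p f c h d hd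
    exact ⟨e, he, fun hmem => hna (Ideal.mul_mem_right _ _ hmem)⟩
  · intro h d hd
    obtain ⟨e, he, hmem⟩ := h d hd
    obtain ⟨ψ, h1, h2⟩ := exists_psi_unit p e _ hmem
    refine ⟨e, he, ψ, h1, 1, ?_, ?_⟩
    · rw [zero_mul, Nat.ceil_zero, pow_zero, Ideal.one_eq_top]
      trivial
    · rw [mul_one]
      exact h2

omit [Fintype ι] in
private theorem sfrN_exp (hc : ∀ i, 0 ≤ c i) (q₁ q : ℕ) (i : ι) :
    ⌈(c i : ℝ) * (((q₁ * q : ℕ) : ℝ) - 1)⌉₊ ≤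
      ⌈(c i : ℝ) * ((q₁ : ℝ) - 1)⌉₊ + ⌈(c i : ℝ) * ((q : ℝ) - 1)⌉₊ * q₁ := by
  have h0 : (0 : ℝ) ≤ (c i : ℝ) := by exact_mod_cast hc i
  rw [Nat.ceil_le]
  have h1 := Nat.le_ceil ((c i : ℝ) * ((q₁ : ℝ) - 1))
  have h2 := Nat.le_ceil ((c i : ℝ) * ((q : ℝ) - 1))
  have h3 : (0 : ℝ) ≤ (q₁ : ℝ) := Nat.cast_nonneg _
  have h4 := mul_le_mul_of_nonneg_right h2 h3
  calc (c i : ℝ) * (((q₁ * q : ℕ) : ℝ) - 1)
      = (c i : ℝ) * ((q₁ : ℝ) - 1) + (c i : ℝ) * ((q : ℝ) - 1) * (q₁ : ℝ) := by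
        push_cast
        ring
    _ ≤ _ := by
        push_cast at h1 h4 ⊢
        linarith

theorem fq_mul (hc : ∀ i, 0 ≤ c i) (q₁ q : ℕ) (h₁ : 1 ≤ q₁) (hq : 1 ≤ q) :
    Fq f c (q₁ * q) ∣ Fq f c q₁ * Fq f c q ^ q₁ := by
  unfold Fq
  rw [← Finset.prod_pow, ← Finset.prod_mul_distrib]
  refine Finset.prod_dvd_prod_of_dvd _ _ fun i _ => ?_
  rw [← pow_mul, ← pow_add]
  exact pow_dvd_pow _ (sfrN_exp c hc q₁ q i)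

theorem sfr_of_not_mem [PerfectField k] (hc : ∀ i, 0 ≤ c i) (hb : Base p f c)
    {I : Ideal (MvPolynomial (Fin n) k)} {t : ℝ} (ht : 0 ≤ t) {e : ℕ} (he : 1 ≤ e)
    {a : MvPolynomial (Fin n) k} (ha : a ∈ I ^ ⌈t * (p ^ e : ℕ)⌉₊)
    (h : Fq f c (p ^ e) * a ∉ J n k (p ^ e)) : SFR p f c I t := by
  intro d hd
  have hp : 0 < p := (Fact.out : p.Prime).pos
  obtain ⟨e₁, he₁, hu⟩ := (base_iff p f c).1 hb d hd
  have hflat : d * Fq f c (p ^ e₁) * (Fq f c (p ^ e) * a) ^ p ^ e₁ ∉ J n k (p ^ e₁ * p ^ e) :=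
    fun hmem => h (flat p e₁ (p ^ e) _ _ hu hmem)
  obtain ⟨y, hy⟩ := exists_eq_mul_right_of_dvd
    (fq_mul f c hc (p ^ e₁) (p ^ e) (Nat.pow_pos hp) (Nat.pow_pos hp))
  have hnot : d * Fq f c (p ^ (e₁ + e)) * a ^ p ^ e₁ ∉ J n k (p ^ (e₁ + e)) := by
    intro hmem
    apply hflat
    rw [← pow_add]
    have h1 : d * Fq f c (p ^ e₁) * (Fq f c (p ^ e) * a) ^ p ^ e₁ =
        y * (d * Fq f c (p ^ (e₁ + e)) * a ^ p ^ e₁) := by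
      rw [mul_pow, pow_add]
      linear_combination (d * a ^ p ^ e₁) * hy
    rw [h1]
    exact Ideal.mul_mem_left _ _ hmem
  obtain ⟨ψ, hψ1, hψ2⟩ := exists_psi_unit p (e₁ + e) _ hnot
  refine ⟨e₁ + e, by omega, ψ, hψ1, a ^ p ^ e₁, ?_, hψ2⟩
  have h1 : a ^ p ^ e₁ ∈ I ^ (⌈t * ((p ^ e : ℕ) : ℝ)⌉₊ * p ^ e₁) := by
    rw [pow_mul]
    exact Ideal.pow_mem_pow ha _
  refine Ideal.pow_le_pow_right ?_ h1
  rw [Nat.ceil_le]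
  have h2 := Nat.le_ceil (t * ((p ^ e : ℕ) : ℝ))
  have h3 : (0 : ℝ) ≤ ((p ^ e₁ : ℕ) : ℝ) := Nat.cast_nonneg _
  have h4 := mul_le_mul_of_nonneg_right h2 h3
  calc t * (((p ^ (e₁ + e) : ℕ) : ℝ) - 1) ≤ t * ((p ^ e : ℕ) : ℝ) * ((p ^ e₁ : ℕ) : ℝ) := by
        rw [pow_add]
        push_cast
        nlinarith
    _ ≤ _ := by
        push_cast at h4 ⊢
        exact h4

end LP
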