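import Pool.Agent.Lib.MP_9e8926_ag_LP.BaseX
import Pool.Agent.Lib.MP_9e8926_ag_LP.LowD
import Pool.Agent.Lib.MP_9e8926_ag_LP.SfrM

set_option autoImplicit false

noncomputable section

namespace LP

open MvPolynomial

variable {n : ℕ} {k : Type*} [Field k] {ι : Type*} [Fintype ι] (p : ℕ) [Fact p.Prime] [CharP k p]
  [PerfectField k]

private theorem slice_addC (b : ℚ) (c : ι → ℚ) (hb0 : 0 ≤ b) (hc : ∀ i, 0 ≤ c i) :
    ∀ o : Option ι, 0 ≤ addC b c o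
  | none => hb0
  | some i => hc i

private theorem slice_key (hn : 1 ≤ n) (f : ι → MvPolynomial (Fin (n + 1)) k) (c : ι → ℚ)
    (hc : ∀ i, 0 ≤ c i) (b : ℚ) (hb0 : 0 ≤ b) (hb1 : b < 1)
    (hB : Base p (fun i => restr (f i)) c) (I : Ideal (MvPolynomial (Fin (n + 1)) k))
    (hI : IsPrim I) (t : ℝ) (ht0 : 0 ≤ t) (ht : fpt p (addF f) (addC b c) I < t) (N ν : ℕ)
    (hN : 1 ≤ N) (σ : ℝ) (hσ : t / N < σ) (hσν : b + σ * ν < 1) :
    ∃ Q : ℕ, ∀ e : ℕ, 1 ≤ e → Q ≤ p ^ e →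
      ∀ a ∈ D (I ^ N) ν ^ ⌈σ * ((p ^ e : ℕ) - 1 : ℝ)⌉₊,
        Fq (fun i => restr (f i)) c (p ^ e) * a ∈ J n k (p ^ e) := by
  have hN0 : (0 : ℝ) < N := by exact_mod_cast hN
  have hσ0 : 0 < σ := lt_of_le_of_lt (div_nonneg ht0 hN0.le) hσ
  have hσN : t < N * σ := by
    rw [div_lt_iff₀ hN0] at hσ
    linarith
  set t' : ℝ := (t + N * σ) / 2 with ht'
  have h1 : t < t' := by rw [ht']; linarith
  have h2 : t' < N * σ := by rw [ht']; linarith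
  set δ : ℝ := 1 - b - σ * ν with hδ
  have hδ0 : 0 < δ := by rw [hδ]; linarith
  refine ⟨⌈(N * σ) / (N * σ - t')⌉₊ + ⌈1 + ν / δ⌉₊, fun e he hQ a ha => ?_⟩
  set q : ℕ := p ^ e with hq
  have hQ' : ((⌈(N * σ) / (N * σ - t')⌉₊ + ⌈1 + ν / δ⌉₊ : ℕ) : ℝ) ≤ (q : ℝ) := by
    exact_mod_cast hQ
  rw [Nat.cast_add] at hQ'
  have h3 := Nat.le_ceil ((N * σ) / (N * σ - t'))
  have h4 := Nat.le_ceil (1 + ν / δ)
  have h5 : (0 : ℝ) ≤ (⌈(N * σ) / (N * σ - t')⌉₊ : ℕ) := Nat.cast_nonneg _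
  have h6 : (0 : ℝ) ≤ (⌈1 + ν / δ⌉₊ : ℕ) := Nat.cast_nonneg _
  have hq1 : (N * σ) / (N * σ - t') ≤ q := by linarith
  have hq2 : 1 + ν / δ ≤ q := by linarith
  have hq3 : (1 : ℝ) ≤ q := by
    have : 0 ≤ (ν : ℝ) / δ := div_nonneg (Nat.cast_nonneg _) hδ0.le
    linarith
  set T : ℕ := ⌈σ * ((q : ℝ) - 1)⌉₊ with hT
  have hT1 : σ * ((q : ℝ) - 1) ≤ T := Nat.le_ceil _
  have hT2 : (T : ℝ) < σ * ((q : ℝ) - 1) + 1 :=
    Nat.ceil_lt_add_one (mul_nonneg hσ0.le (by linarith))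
  set B : ℕ := ⌈(b : ℝ) * ((q : ℝ) - 1)⌉₊ with hBdef
  have hb0' : (0 : ℝ) ≤ b := by exact_mod_cast hb0
  have hB2 : (B : ℝ) < b * ((q : ℝ) - 1) + 1 :=
    Nat.ceil_lt_add_one (mul_nonneg hb0' (by linarith))
  obtain ⟨h, hh, hlow, hcf⟩ := mem_D.1 (D_pow (I ^ N) ν T ha)
  have hceil : ⌈t' * ((q : ℕ) : ℝ)⌉₊ ≤ N * T := by
    rw [Nat.ceil_le]
    push_cast
    have h7 : N * σ ≤ q * (N * σ - t') := by
      rwa [div_le_iff₀ (by linarith)] at hq1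
    have h8 : (N : ℝ) * (σ * ((q : ℝ) - 1)) ≤ N * T := mul_le_mul_of_nonneg_left hT1 hN0.le
    nlinarith
  have hmem : h ∈ I ^ ⌈t' * ((p ^ e : ℕ) : ℝ)⌉₊ := by
    rw [← pow_mul] at hh
    exact Ideal.pow_le_pow_right hceil hh
  have hJ := mem_of_fpt_lt p (addF f) (addC b c) (by omega) (slice_addC b c hb0 hc)
    (base_ext p hn f c hc b hb0 hb1 hB) hI.1 (ht.trans h1) he hmem
  rw [Fq_addF, ← hq, ← hBdef, mul_assoc] at hJ
  have hlt : B + T * ν < q := by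
    have h9 : (ν : ℝ) ≤ ((q : ℝ) - 1) * δ := by
      have h10 : ν / δ ≤ (q : ℝ) - 1 := by linarith
      rwa [div_le_iff₀ hδ0] at h10
    have h11 : (T : ℝ) * ν ≤ (σ * ((q : ℝ) - 1) + 1) * ν :=
      mul_le_mul_of_nonneg_right hT2.le (Nat.cast_nonneg _)
    have h12 : (B : ℝ) + T * ν < q := by
      rw [hδ] at h9
      nlinarith
    exact_mod_cast h12
  have h13 := mem_J_cf.1 hJ (B + T * ν) hlt
  rw [cf_X_pow_mul, if_pos (Nat.le_add_right _ _), Nat.add_sub_cancel_left] at h13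
  have h14 := (cf_mul_low (f := Fq f c q) (g := h) (ν := 0) (μ := T * ν) (by simp) hlow).2
  rw [zero_add] at h14
  rw [h14, cf_Fq, hcf] at h13
  exact h13

/-- The ideals of lowest coefficients have small `F`-pure thresholds. -/
theorem slice (hn : 1 ≤ n) (f : ι → MvPolynomial (Fin (n + 1)) k) (c : ι → ℚ)
    (hc : ∀ i, 0 ≤ c i) (b : ℚ) (hb0 : 0 ≤ b) (hb1 : b < 1)
    (hB : Base p (fun i => restr (f i)) c) (I : Ideal (MvPolynomial (Fin (n + 1)) k))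
    (hI : IsPrim I) (t : ℝ) (ht : fpt p (addF f) (addC b c) I < t) (N ν : ℕ) (hN : 1 ≤ N)
    (hν : (ν : ℝ) * t < (1 - b) * N) :
    IsPrim (D (I ^ N) ν) ∧ fpt p (fun i => restr (f i)) c (D (I ^ N) ν) ≤ t / N := by
  have hN0 : (0 : ℝ) < N := by exact_mod_cast hN
  have ht0 : 0 ≤ t := (fpt_nonneg p (addF f) (addC b c) I).trans ht.le
  have hgap : 0 < 1 - (b : ℝ) - t / N * ν := by
    have h1 : t / N * ν = (ν * t) / N := by ring
    have h2 : (ν * t) / N < 1 - (b : ℝ) := by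
      rw [div_lt_iff₀ hN0]
      exact hν
    rw [h1]
    linarith
  set δ : ℝ := (1 - (b : ℝ) - t / N * ν) / (ν + 1) with hδ
  have hν1 : (0 : ℝ) < ν + 1 := by positivity
  have hδ0 : 0 < δ := div_pos hgap hν1
  have hδν : δ * (ν + 1) = 1 - (b : ℝ) - t / N * ν := div_mul_cancel₀ _ hν1.ne'
  have hσ0 : (b : ℝ) + (t / N + δ) * ν < 1 := by nlinarith
  refine ⟨⟨?_, ?_⟩, ?_⟩
  · intro u hu
    by_contra hu0
    rw [mem_m0] at hu0
    obtain ⟨Q, hQ⟩ := slice_key p hn f c hc b hb0 hb1 hB I hI t ht0 ht N ν hN (t / N + δ)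
      (by linarith) hσ0
    obtain ⟨e, he, hQe, a, -, ha⟩ := sfr_large p (fun i => restr (f i)) c hn hB 1 one_ne_zero Q
    apply ha
    rw [one_mul]
    apply Ideal.mul_mem_right
    have h3 := hQ e he hQe _ (Ideal.pow_mem_pow hu _)
    refine mem_J_of_mul ?_ h3
    rw [map_pow]
    exact pow_ne_zero _ hu0
  · obtain ⟨M, hM⟩ := (isPrim_pow hI hN).2
    exact ⟨M - ν, m0_pow_le_D hM ν⟩
  · refine fpt_le p _ c hn (div_nonneg ht0 hN0.le) fun s hs => ?_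
    have h4 : (b : ℝ) + min s (t / N + δ) * ν < 1 := by
      have h5 : min s (t / N + δ) * ν ≤ (t / N + δ) * ν :=
        mul_le_mul_of_nonneg_right (min_le_right _ _) (Nat.cast_nonneg _)
      linarith
    obtain ⟨Q, hQ⟩ := slice_key p hn f c hc b hb0 hb1 hB I hI t ht0 ht N ν hN
      (min s (t / N + δ)) (lt_min hs (by linarith)) h4
    refine ⟨Q, fun e he hQe a ha => hQ e he hQe a ?_⟩
    refine Ideal.pow_le_pow_right (Nat.ceil_le_ceil ?_) ha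
    refine mul_le_mul_of_nonneg_right (min_le_left _ _) ?_
    have h6 : (1 : ℝ) ≤ ((p ^ e : ℕ) : ℝ) := by
      exact_mod_cast Nat.one_le_iff_ne_zero.2 (pow_ne_zero _ (Fact.out : p.Prime).ne_zero)
    linarith

end LP
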