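import Pool.Agent.Lib.MP_9e8926_ag_LP.Lim
import Pool.Agent.Lib.MP_9e8926_ag_LP.LeadF

set_option autoImplicit false

noncomputable section

namespace LP

open MvPolynomial

variable {n : ℕ} {k : Type*} [Field k]

/-- The ideal `(a^s, z^r)`. -/
def Kid (a : Ideal (MvPolynomial (Fin n) k)) (s r : ℕ) : Ideal (MvPolynomial (Fin (n + 1)) k) :=
  (a ^ s).map (emb : MvPolynomial (Fin n) k →ₐ[k] MvPolynomial (Fin (n + 1)) k) ⊔
    Ideal.span {X 0 ^ r}

private theorem UpE_cf_mul (ν : ℕ) (f g : MvPolynomial (Fin (n + 1)) k) :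
    cf ν (f * g) = ∑ x ∈ Finset.HasAntidiagonal.antidiagonal ν, cf x.1 f * cf x.2 g := by
  change (finSuccEquiv k n (f * g)).coeff ν = _
  rw [map_mul, Polynomial.coeff_mul]
  rfl

private theorem UpE_ext {f g : MvPolynomial (Fin (n + 1)) k} (h : ∀ ν, cf ν f = cf ν g) :
    f = g :=
  (finSuccEquiv k n).injective (Polynomial.ext h)

private theorem UpE_zero (f : MvPolynomial (Fin (n + 1)) k) :
    ∃ d : ℕ, ∀ ν, d ≤ ν → cf ν f = 0 := by
  refine ⟨(finSuccEquiv k n f).natDegree + 1, fun ν hν => ?_⟩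
  exact Polynomial.coeff_eq_zero_of_natDegree_lt (lt_of_lt_of_le (Nat.lt_succ_self _) hν)

private theorem UpE_sum (f : MvPolynomial (Fin (n + 1)) k) :
    ∃ d : ℕ, f = ∑ ν ∈ Finset.range d, X 0 ^ ν * emb (cf ν f) := by
  obtain ⟨d, hd⟩ := UpE_zero f
  refine ⟨d, UpE_ext fun μ => ?_⟩
  rw [map_sum]
  have h1 : ∀ ν ∈ Finset.range d, cf μ (X 0 ^ ν * emb (cf ν f)) =
      if ν = μ then cf μ f else (0 : MvPolynomial (Fin n) k) := by
    intro ν _
    rw [cf_X_pow_mul]
    by_cases h : ν ≤ μ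
    · rw [if_pos h, cf_emb]
      by_cases h' : ν = μ
      · subst h'
        rw [if_pos (Nat.sub_self ν), if_pos rfl]
      · rw [if_neg (by omega), if_neg h']
    · rw [if_neg h, if_neg (by omega)]
  rw [Finset.sum_congr rfl h1, Finset.sum_ite_eq']
  by_cases h : μ < d
  · rw [if_pos (Finset.mem_range.2 h)]
  · rw [if_neg (by simpa using h), hd μ (by omega)]

private theorem UpE_X_mem (a : Ideal (MvPolynomial (Fin n) k)) (s r : ℕ) :
    (X 0 ^ r : MvPolynomial (Fin (n + 1)) k) ∈ Kid a s r :=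
  Ideal.mem_sup_right (Ideal.mem_span_singleton_self _)

private theorem UpE_emb_mem (a : Ideal (MvPolynomial (Fin n) k)) (s r : ℕ)
    {x : MvPolynomial (Fin n) k} (hx : x ∈ a ^ s) : emb x ∈ Kid a s r :=
  Ideal.mem_sup_left (Ideal.mem_map_of_mem _ hx)

theorem Kid_prim (a : Ideal (MvPolynomial (Fin n) k)) (ha : IsPrim a) (s r : ℕ) (hs : 1 ≤ s)
    (hr : 1 ≤ r) : IsPrim (Kid a s r) := by
  obtain ⟨h0, M, hM⟩ := ha
  refine ⟨sup_le ?_ ?_, M * s + r, ?_⟩
  · rw [Ideal.map_le_iff_le_comap]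
    intro x hx
    have hx1 : x ∈ m0 n k := h0 (Ideal.pow_le_self (by omega) hx)
    rw [mem_m0] at hx1
    rw [Ideal.mem_comap, mem_m0]
    change constantCoeff (rename Fin.succ x) = 0
    rw [constantCoeff_rename, hx1]
  · rw [Ideal.span_singleton_le_iff_mem, mem_m0, map_pow, constantCoeff_X, zero_pow (by omega)]
  · intro f hf
    rw [mem_m0_pow_cf] at hf
    obtain ⟨d, hd⟩ := UpE_sum f
    rw [hd]
    refine Ideal.sum_mem _ fun ν _ => ?_
    by_cases h : r ≤ ν
    · refine Ideal.mul_mem_right _ _ ?_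
      obtain ⟨t, rfl⟩ := Nat.exists_eq_add_of_le h
      rw [pow_add]
      exact Ideal.mul_mem_right _ _ (UpE_X_mem a s r)
    · refine Ideal.mul_mem_left _ _ (UpE_emb_mem a s r ?_)
      have h1 : m0 n k ^ (M * s + r - ν) ≤ m0 n k ^ (M * s) := Ideal.pow_le_pow_right (by omega)
      have h2 : m0 n k ^ (M * s) ≤ a ^ s := by
        rw [pow_mul]
        exact Ideal.pow_right_mono hM s
      exact h2 (h1 (hf ν))

/-- The ideal of the polynomials whose coefficients lie in the powers of `a`. -/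
private def UpE_Q (a : Ideal (MvPolynomial (Fin n) k)) (s r N : ℕ) :
    Ideal (MvPolynomial (Fin (n + 1)) k) where
  carrier := {f | ∀ ν : ℕ, cf ν f ∈ a ^ (s * (N - ν / r))}
  zero_mem' := fun ν => by
    rw [map_zero]
    exact Ideal.zero_mem _
  add_mem' := by
    intro f g hf hg ν
    rw [map_add]
    exact Ideal.add_mem _ (hf ν) (hg ν)
  smul_mem' := by
    intro c f hf ν
    rw [smul_eq_mul, UpE_cf_mul]
    refine Ideal.sum_mem _ fun x hx => Ideal.mul_mem_left _ _ ?_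
    have hx1 : x.1 + x.2 = ν := Finset.HasAntidiagonal.mem_antidiagonal.1 hx
    have h1 : x.2 / r ≤ ν / r := Nat.div_le_div_right (by omega)
    exact Ideal.pow_le_pow_right (Nat.mul_le_mul_left s (by omega)) (hf x.2)

private theorem UpE_mem_Q {a : Ideal (MvPolynomial (Fin n) k)} {s r N : ℕ}
    {f : MvPolynomial (Fin (n + 1)) k} :
    f ∈ UpE_Q a s r N ↔ ∀ ν : ℕ, cf ν f ∈ a ^ (s * (N - ν / r)) := Iff.rfl

private theorem UpE_Kid_le (a : Ideal (MvPolynomial (Fin n) k)) (s r : ℕ) (hr : 1 ≤ r) :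
    Kid a s r ≤ UpE_Q a s r 1 := by
  refine sup_le ?_ ?_
  · rw [Ideal.map_le_iff_le_comap]
    intro x hx
    rw [Ideal.mem_comap, UpE_mem_Q]
    intro ν
    rw [cf_emb]
    by_cases h : ν = 0
    · subst h
      rw [if_pos rfl, Nat.zero_div, Nat.sub_zero, mul_one]
      exact hx
    · rw [if_neg h]
      exact Ideal.zero_mem _
  · rw [Ideal.span_singleton_le_iff_mem, UpE_mem_Q]
    intro ν
    have h0 : (X 0 ^ r : MvPolynomial (Fin (n + 1)) k) = X 0 ^ r * 1 := (mul_one _).symm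
    rw [h0, cf_X_pow_mul]
    by_cases h : r ≤ ν
    · have h1 : 1 ≤ ν / r := (Nat.le_div_iff_mul_le (by omega)).2 (by omega)
      have h2 : 1 - ν / r = 0 := by omega
      rw [h2, mul_zero, pow_zero, Ideal.one_eq_top]
      exact Submodule.mem_top
    · rw [if_neg h]
      exact Ideal.zero_mem _

private theorem UpE_mul_le (a : Ideal (MvPolynomial (Fin n) k)) (s r N M : ℕ) :
    UpE_Q a s r N * UpE_Q a s r M ≤ UpE_Q a s r (N + M) := by
  rw [Ideal.mul_le]
  intro f hf g hg ν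
  rw [UpE_cf_mul]
  refine Ideal.sum_mem _ fun x hx => ?_
  have hx1 : x.1 + x.2 = ν := Finset.HasAntidiagonal.mem_antidiagonal.1 hx
  have h1 : x.1 / r + x.2 / r ≤ ν / r := by
    rw [← hx1]
    exact Nat.div_add_div_le_add_div
  have h2 := Ideal.mul_mem_mul (hf x.1) (hg x.2)
  rw [← pow_add, ← mul_add] at h2
  exact Ideal.pow_le_pow_right (Nat.mul_le_mul_left s (by omega)) h2

private theorem UpE_pow_le (a : Ideal (MvPolynomial (Fin n) k)) (s r N : ℕ) (hr : 1 ≤ r) :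
    Kid a s r ^ N ≤ UpE_Q a s r N := by
  induction N with
  | zero =>
    intro f _
    rw [UpE_mem_Q]
    intro ν
    rw [Nat.zero_sub, mul_zero, pow_zero, Ideal.one_eq_top]
    exact Submodule.mem_top
  | succ N ih =>
    rw [pow_succ]
    exact (Ideal.mul_mono ih (UpE_Kid_le a s r hr)).trans (UpE_mul_le a s r N 1)

/-- The powers of `(a^s, z^r)`. -/
theorem Kid_pow_mem (a : Ideal (MvPolynomial (Fin n) k)) (s r N : ℕ) (hr : 1 ≤ r)
    (f : MvPolynomial (Fin (n + 1)) k) :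
    f ∈ Kid a s r ^ N ↔ ∀ ν : ℕ, cf ν f ∈ a ^ (s * (N - ν / r)) := by
  refine ⟨fun h => UpE_pow_le a s r N hr h, fun h => ?_⟩
  obtain ⟨d, hd⟩ := UpE_sum f
  rw [hd]
  refine Ideal.sum_mem _ fun ν _ => ?_
  have hX : (X 0 ^ ν : MvPolynomial (Fin (n + 1)) k) ∈ Kid a s r ^ (ν / r) := by
    have h1 : ν = r * (ν / r) + ν % r := (Nat.div_add_mod ν r).symm
    have h2 : (X 0 ^ ν : MvPolynomial (Fin (n + 1)) k) =
        (X 0 ^ r) ^ (ν / r) * X 0 ^ (ν % r) := by
      rw [← pow_mul, ← pow_add, ← h1]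
    rw [h2]
    exact Ideal.mul_mem_right _ _ (Ideal.pow_mem_pow (UpE_X_mem a s r) _)
  by_cases hj : ν / r ≤ N
  · have h3 : emb (cf ν f) ∈ Kid a s r ^ (N - ν / r) := by
      have h4 := h ν
      rw [pow_mul] at h4
      have h5 : emb (cf ν f) ∈ ((a ^ s) ^ (N - ν / r)).map
          (emb : MvPolynomial (Fin n) k →ₐ[k] MvPolynomial (Fin (n + 1)) k) :=
        Ideal.mem_map_of_mem _ h4
      rw [Ideal.map_pow] at h5
      exact Ideal.pow_right_mono (le_sup_left : _ ≤ Kid a s r) _ h5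
    have h6 := Ideal.mul_mem_mul hX h3
    rwa [← pow_add, Nat.add_sub_cancel' hj] at h6
  · exact Ideal.mul_mem_right _ _ (Ideal.pow_le_pow_right (by omega) hX)

end LP
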